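import Pool.Agent.Lib.K5A.Beyond

/-!
# K5A.Out: the output of block B7 (algebra) in the exact form of `K5.bounds_of`

Input: `MapIn S` (the graded recursion `RecIn` and the expansion of `S x Y T k`).
`Dm x Y T = S x Y T 2`, `N3 x Y T = 1 + 3 S x Y T 2 + S x Y T 3`.
-/

set_option autoImplicit false

namespace K5A

open scoped ENNReal

variable {S : ℝ≥0∞ → ℝ≥0∞ → ℝ≥0∞ → ℕ → ℝ≥0∞} {Dm N3 : ℝ≥0∞ → ℝ≥0∞ → ℝ≥0∞ → ℝ≥0∞}

theorem algAS0 (hS : MapIn S) (hD : ∀ x Y T, Dm x Y T = S x Y T 2)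
    (hN : ∀ x Y T, N3 x Y T = 1 + 3 * S x Y T 2 + S x Y T 3) :
    ∀ r s y t : ℝ, K5N.Good r s y t → 0 < K5N.pkap r s y t ∧ 0 ≤ K5N.pD r s y t ∧
      0 ≤ K5N.pN r s y t ∧
      Dm (.ofReal (K5N.px r s y t)) (.ofReal (K5N.pY r s y t)) (.ofReal (K5N.pT r s y t)) =
        .ofReal (K5N.pD r s y t) ∧
      N3 (.ofReal (K5N.px r s y t)) (.ofReal (K5N.pY r s y t)) (.ofReal (K5N.pT r s y t)) =
        .ofReal (K5N.pN r s y t) := by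
  intro r s y t h
  rw [hD, hN]
  exact explicit hS r s y t h

/-- Field `hAS`. -/
theorem algAS (hS : MapIn S) (hD : ∀ x Y T, Dm x Y T = S x Y T 2)
    (hN : ∀ x Y T, N3 x Y T = 1 + 3 * S x Y T 2 + S x Y T 3) :
    ∀ r s y t : ℝ, K5N.Good r s y t → 0 < K5N.pkap r s y t ∧
      Dm (.ofReal (K5N.px r s y t)) (.ofReal (K5N.pY r s y t)) (.ofReal (K5N.pT r s y t)) =
        .ofReal (K5N.pD r s y t) ∧
      N3 (.ofReal (K5N.px r s y t)) (.ofReal (K5N.pY r s y t)) (.ofReal (K5N.pT r s y t)) =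
        .ofReal (K5N.pN r s y t) := by
  intro r s y t h
  obtain ⟨h1, -, -, h2, h3⟩ := algAS0 hS hD hN r s y t h
  exact ⟨h1, h2, h3⟩

/-- Field `hAR`. -/
theorem algAR (hS : MapIn S) (hD : ∀ x Y T, Dm x Y T = S x Y T 2)
    (hN : ∀ x Y T, N3 x Y T = 1 + 3 * S x Y T 2 + S x Y T 3) :
    ∀ r s y t : ℝ, K5N.Crit r s y t → ∃ (z n κ : ℝ → ℝ) (dz dκ : ℝ),
      HasDerivWithinAt z dz (Set.Iic 1) 1 ∧ HasDerivWithinAt κ dκ (Set.Iic 1) 1 ∧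
      z 1 = K5N.pD r s y t ∧ κ 1 = K5N.pkap r s y t ∧
      ∀ l : ℝ, 0 < l → l ≤ 1 → 0 < κ l ∧ 0 ≤ z l ∧ 0 ≤ n l ∧
        Dm (.ofReal (K5N.px r s y t)) (.ofReal (l * y * κ l ^ 2 + 2 * (l * t * κ l ^ 3)))
          (.ofReal (l * t * κ l ^ 3)) = .ofReal (z l) ∧
        N3 (.ofReal (K5N.px r s y t)) (.ofReal (l * y * κ l ^ 2 + 2 * (l * t * κ l ^ 3)))
          (.ofReal (l * t * κ l ^ 3)) = .ofReal (n l) ∧
        κ l = 1 + l * y * κ l ^ 2 * (1 + K5N.px r s y t * (1 + z l)) +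
          l * t * κ l ^ 3 * (1 + 3 * K5N.px r s y t * (1 + z l) + K5N.px r s y t ^ 2 * n l) :=
  ray (algAS0 hS hD hN)

/-- Field `hAX`. -/
theorem algAX (hS : MapIn S) (hD : ∀ x Y T, Dm x Y T = S x Y T 2)
    (hN : ∀ x Y T, N3 x Y T = 1 + 3 * S x Y T 2 + S x Y T 3) :
    ∀ r s y t : ℝ, K5N.Crit r s y t → ∀ Y T D N : ℝ, 0 < T → 2 * T < Y → 0 ≤ D → 0 ≤ N →
      Dm (.ofReal (K5N.px r s y t)) (.ofReal Y) (.ofReal T) = .ofReal D →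
      N3 (.ofReal (K5N.px r s y t)) (.ofReal Y) (.ofReal T) = .ofReal N →
      ∀ κ : ℝ, κ = 1 + (Y - 2 * T) * (1 + K5N.px r s y t * (1 + D)) +
        T * (1 + 3 * K5N.px r s y t * (1 + D) + K5N.px r s y t ^ 2 * N) →
      ¬ (y < (Y - 2 * T) / κ ^ 2 ∧ t < T / κ ^ 3) := by
  intro r s y t hC Y T D N hT hY hD0 hN0 h2 h3 κ hκ
  rw [hD] at h2
  rw [hN] at h3
  exact beyond hS r s y t hC Y T D N hT hY hD0 hN0 h2 h3 κ hκ

end K5A
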