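import Pool.Agent.Lib.K5A.Formal

/-!
# K5A.AS: the explicit values of the map networks (field `hAS` of `K5N.Sys`)
-/

set_option autoImplicit false

namespace K5A

open PowerSeries
open scoped ENNReal

/-- The input of the algebra from the map side. -/
structure MapIn (S : ℝ≥0∞ → ℝ≥0∞ → ℝ≥0∞ → ℕ → ℝ≥0∞) : Prop where
  ex : ∀ x : ℝ≥0∞, x ≠ ∞ → ∃ (s : ℕ → ℕ → ℕ → ℝ≥0∞) (g gn : Bool → ℕ → ℕ → ℕ → ℕ → ℝ≥0∞),
    RecIn x s g gn ∧ ∀ k, 2 ≤ k → ∀ Y T : ℝ≥0∞, S x Y T k = ∑' a, ∑' b, s k a b * Y ^ a * T ^ b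

theorem evE_add {l : ℝ} (hl : 0 ≤ l) {f g : ℝ⟦X⟧} (hf : Nn f) (hg : Nn g) :
    evE l (f + g) = evE l f + evE l g := by
  unfold evE
  rw [← ENNReal.tsum_add]
  refine tsum_congr fun n => ?_
  rw [map_add, add_mul, ENNReal.ofReal_add (mul_nonneg (hf n) (pow_nonneg hl n))
    (mul_nonneg (hg n) (pow_nonneg hl n))]

theorem evE_X {l : ℝ} : evE l (X : ℝ⟦X⟧) = ENNReal.ofReal l := by
  unfold evE
  rw [tsum_eq_single 1 (fun n hn => by rw [coeff_X, if_neg hn, zero_mul, ENNReal.ofReal_zero])]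
  simp

theorem C_two : (C 2 : ℝ⟦X⟧) = 2 := map_ofNat C 2
theorem C_three : (C 3 : ℝ⟦X⟧) = 3 := map_ofNat C 3

theorem nn_t2 {x : ℝ} (hx : 0 ≤ x) {S2 : ℝ⟦X⟧} (h2 : Nn S2) : Nn (t2 (C x) S2) :=
  nn_add (nn_C hx) (nn_mul (nn_pow (nn_C hx) 2) (nn_add nn_one h2))

theorem nn_t3 {x : ℝ} (hx : 0 ≤ x) {S2 S3 : ℝ⟦X⟧} (h2 : Nn S2) (h3 : Nn S3) :
    Nn (t3 (C x) S2 S3) :=
  nn_add (nn_add (nn_C hx) (nn_mul (nn_mul MobAux.nn_three (nn_pow (nn_C hx) 2))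
    (nn_add nn_one h2))) (nn_mul (nn_pow (nn_C hx) 3) (nn_add (nn_add nn_one
    (nn_mul MobAux.nn_three h2)) h3))

theorem evE_two {l : ℝ} : evE l (2 : ℝ⟦X⟧) = 2 := by
  rw [← C_two, evE_C]; simp

theorem evE_three {l : ℝ} : evE l (3 : ℝ⟦X⟧) = 3 := by
  rw [← C_three, evE_C]; simp

theorem evE_t2 {l x : ℝ} (hl : 0 ≤ l) (hx : 0 ≤ x) {S2 : ℝ⟦X⟧} (h2 : Nn S2) :
    evE l (t2 (C x) S2) = ENNReal.ofReal x + ENNReal.ofReal x ^ 2 * (1 + evE l S2) := by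
  rw [t2, evE_add hl (nn_C hx) (nn_mul (nn_pow (nn_C hx) 2) (nn_add nn_one h2)),
    evE_mul hl (nn_pow (nn_C hx) 2) (nn_add nn_one h2), evE_pow hl (nn_C hx),
    evE_add hl nn_one h2, evE_C, evE_one]

theorem evE_t3 {l x : ℝ} (hl : 0 ≤ l) (hx : 0 ≤ x) {S2 S3 : ℝ⟦X⟧} (h2 : Nn S2) (h3 : Nn S3) :
    evE l (t3 (C x) S2 S3) = ENNReal.ofReal x + 3 * ENNReal.ofReal x ^ 2 * (1 + evE l S2)
      + ENNReal.ofReal x ^ 3 * (1 + 3 * evE l S2 + evE l S3) := by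
  have a1 : Nn (C x : ℝ⟦X⟧) := nn_C hx
  have a2 : Nn (3 * C x ^ 2 * (1 + S2)) := nn_mul (nn_mul MobAux.nn_three (nn_pow a1 2))
    (nn_add nn_one h2)
  have a3 : Nn (1 + 3 * S2 + S3) := nn_add (nn_add nn_one (nn_mul MobAux.nn_three h2)) h3
  rw [t3, evE_add hl (nn_add a1 a2) (nn_mul (nn_pow a1 3) a3), evE_add hl a1 a2,
    evE_mul hl (nn_mul MobAux.nn_three (nn_pow a1 2)) (nn_add nn_one h2),
    evE_mul hl MobAux.nn_three (nn_pow a1 2), evE_mul hl (nn_pow a1 3) a3, evE_pow hl a1,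
    evE_pow hl a1, evE_add hl nn_one h2, evE_add hl (nn_add nn_one (nn_mul MobAux.nn_three h2)) h3,
    evE_add hl nn_one (nn_mul MobAux.nn_three h2), evE_mul hl MobAux.nn_three h2, evE_C, evE_one,
    evE_three]

theorem w3_map {A B : Type} [CommRing A] [CommRing B] (φ : A →+* B) (r s Y T : A) :
    φ (w3 r s Y T) = w3 (φ r) (φ s) (φ Y) (φ T) := by
  unfold w3
  simp only [map_mul, map_sub, map_add, map_pow, map_ofNat]

theorem sm_ev_w3 {l y t : ℝ} {r s : ℝ⟦X⟧} (hr : Sm l r) (hs : Sm l s) :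
    Sm l (w3 r s (C y * X) (C t * X)) ∧
    ev l (w3 r s (C y * X) (C t * X)) = w3 (ev l r) (ev l s) (y * l) (t * l) := by
  have hY : Sm l (C y * X : ℝ⟦X⟧) := (sm_C y).mul sm_X
  have hT : Sm l (C t * X : ℝ⟦X⟧) := (sm_C t).mul sm_X
  have h1 := w3_map (evH l) ⟨r, hr⟩ ⟨s, hs⟩ ⟨_, hY⟩ ⟨_, hT⟩
  have e1 : w3 r s (C y * X) (C t * X) =
      (SmR l).subtype (w3 ⟨r, hr⟩ ⟨s, hs⟩ ⟨_, hY⟩ ⟨_, hT⟩) := by
    rw [w3_map]; rfl
  simp only [evH_apply] at h1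
  rw [ev_mul (sm_C y) sm_X, ev_mul (sm_C t) sm_X, ev_C, ev_C, ev_X] at h1
  refine ⟨?_, by rw [← h1, e1]; rfl⟩
  rw [e1]
  exact (w3 (⟨r, hr⟩ : SmR l) ⟨s, hs⟩ ⟨_, hY⟩ ⟨_, hT⟩).2

theorem ev_ge_const {f : ℝ⟦X⟧} (hf : Nn f) (hs : Sm 1 f) : constantCoeff f ≤ ev 1 f := by
  have h := hs.summable.sum_le_tsum {0} fun n _ => mul_nonneg (hf n) (pow_nonneg zero_le_one n)
  rw [Finset.sum_singleton, pow_zero, mul_one, coeff_zero_eq_constantCoeff_apply] at h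
  exact h

theorem explicit {S : ℝ≥0∞ → ℝ≥0∞ → ℝ≥0∞ → ℕ → ℝ≥0∞} (hS : MapIn S) (r0 s0 y t : ℝ)
    (hG : K5N.Good r0 s0 y t) : 0 < K5N.pkap r0 s0 y t ∧ 0 ≤ K5N.pD r0 s0 y t ∧
      0 ≤ K5N.pN r0 s0 y t ∧
      S (.ofReal (K5N.px r0 s0 y t)) (.ofReal (K5N.pY r0 s0 y t)) (.ofReal (K5N.pT r0 s0 y t)) 2 =
        .ofReal (K5N.pD r0 s0 y t) ∧
      1 + 3 * S (.ofReal (K5N.px r0 s0 y t)) (.ofReal (K5N.pY r0 s0 y t))
          (.ofReal (K5N.pT r0 s0 y t)) 2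
        + S (.ofReal (K5N.px r0 s0 y t)) (.ofReal (K5N.pY r0 s0 y t))
          (.ofReal (K5N.pT r0 s0 y t)) 3 = .ofReal (K5N.pN r0 s0 y t) := by
  set x := K5N.px r0 s0 y t with hxdef
  have hx : 0 < x := hG.x_pos
  have hy := hG.y_nonneg
  have ht := hG.t_nonneg
  obtain ⟨r, s, h, hr, hs⟩ := mob_exists hx.le hy ht
  obtain ⟨sr, ss, vr, vs⟩ := mob_value hx hy ht hG.r_pos hG.s_pos
    (MobXAux.mob_of_good hG) (MobXAux.good_of hG) h hr hs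
  obtain ⟨sE, g, gn, hE, hSf⟩ := hS.ex (.ofReal x) ENNReal.ofReal_ne_top
  obtain ⟨F2, F3⟩ := formal hx hy ht h hr hs hE
  set κ := kf x y t r s with hκ
  set Y' := Yf x y t r s with hY'
  set T := Tf x y t r s with hT
  have nκ : Nn κ := nn_kf hx hy ht h hr hs
  have nY : Nn Y' := nn_Yf hx hy ht h hr hs
  have nT : Nn T := nn_Tf hx hy ht h hr hs
  have nYd : Nn (Y' + 2 * T) := nn_add nY (nn_mul MobAux.nn_two nT)
  have n2 : Nn (EE (Y' + 2 * T) T (sE 2)) := nn_EE nYd nT _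
  have n3 : Nn (EE (Y' + 2 * T) T (sE 3)) := nn_EE nYd nT _
  obtain ⟨sw1, sw2⟩ := MobXAux.sm_w (y := y) (t := t) sr ss
  obtain ⟨vw1, vw2⟩ := MobXAux.ev_w (y := y) (t := t) sr ss
  obtain ⟨sw3, vw3⟩ := sm_ev_w3 (y := y) (t := t) sr ss
  rw [vr, vs, mul_one, mul_one] at vw1 vw2 vw3
  -- κ
  have sκ : Sm 1 κ := (sm_C _).mul sw1
  have vκ : ev 1 κ = K5N.pkap r0 s0 y t := by
    rw [hκ, kf, ev_mul (sm_C _) sw1, ev_C, vw1, K5N.pkap, ← hxdef, div_eq_inv_mul]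
    rfl
  set k := K5N.pkap r0 s0 y t with hk
  have hk0 : 0 < k := by
    have := ev_ge_const nκ sκ
    rw [const_kf hx h, vκ] at this
    linarith
  have eκ : evE 1 κ = ENNReal.ofReal k := by rw [nκ.evE_eq zero_le_one sκ, vκ]
  have eT : evE 1 T = ENNReal.ofReal (K5N.pT r0 s0 y t) := by
    rw [hT, Tf, evE_mul zero_le_one (nn_mul (nn_C ht) nn_X) (nn_pow nκ 3), evE_mul zero_le_one
      (nn_C ht) nn_X, evE_pow zero_le_one nκ, evE_C, evE_X, eκ, K5N.pT,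
      ENNReal.ofReal_mul ht, ENNReal.ofReal_pow hk0.le, ENNReal.ofReal_one, mul_one]
  have hTn : 0 ≤ K5N.pT r0 s0 y t := mul_nonneg ht (pow_nonneg hk0.le 3)
  have eY' : evE 1 Y' = ENNReal.ofReal (y * k ^ 2) := by
    rw [hY', Yf, evE_mul zero_le_one (nn_mul (nn_C hy) nn_X) (nn_pow nκ 2), evE_mul zero_le_one
      (nn_C hy) nn_X, evE_pow zero_le_one nκ, evE_C, evE_X, eκ,
      ENNReal.ofReal_mul hy, ENNReal.ofReal_pow hk0.le, ENNReal.ofReal_one, mul_one]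
  have eYd : evE 1 (Y' + 2 * T) = ENNReal.ofReal (K5N.pY r0 s0 y t) := by
    rw [evE_add zero_le_one nY (nn_mul MobAux.nn_two nT), evE_mul zero_le_one MobAux.nn_two nT,
      evE_two, eY', eT, K5N.pY, ENNReal.ofReal_add (by positivity) (by positivity),
      ENNReal.ofReal_mul two_pos.le, ENNReal.ofReal_ofNat]
  have cYd : constantCoeff (Y' + 2 * T) = 0 := by
    rw [map_add, map_mul, const_Yf, const_Tf, mul_zero, add_zero]
  have e2 : S (.ofReal x) (.ofReal (K5N.pY r0 s0 y t)) (.ofReal (K5N.pT r0 s0 y t)) 2 =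
      evE 1 (EE (Y' + 2 * T) T (sE 2)) := by
    rw [hSf 2 le_rfl, evE_EE zero_le_one cYd const_Tf nYd nT (hE.fin 2 le_rfl), eYd, eT]
  have e3 : S (.ofReal x) (.ofReal (K5N.pY r0 s0 y t)) (.ofReal (K5N.pT r0 s0 y t)) 3 =
      evE 1 (EE (Y' + 2 * T) T (sE 3)) := by
    rw [hSf 3 (by norm_num), evE_EE zero_le_one cYd const_Tf nYd nT (hE.fin 3 (by norm_num)),
      eYd, eT]
  rw [e2, e3]
  -- the equations
  have nw2 : Nn (w2 r s (C y * X) (C t * X)) := by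
    rw [F2]; exact nn_mul (nn_pow nκ 2) (nn_t2 hx.le n2)
  have nw3 : Nn (w3 r s (C y * X) (C t * X)) := by
    rw [F3]; exact nn_mul (nn_pow nκ 3) (nn_t3 hx.le n2 n3)
  have q2 : ENNReal.ofReal (w2 r0 s0 y t) = ENNReal.ofReal k ^ 2 * (ENNReal.ofReal x
      + ENNReal.ofReal x ^ 2 * (1 + evE 1 (EE (Y' + 2 * T) T (sE 2)))) := by
    rw [← vw2, ← nw2.evE_eq zero_le_one sw2, F2, evE_mul zero_le_one (nn_pow nκ 2)
      (nn_t2 hx.le n2), evE_pow zero_le_one nκ, evE_t2 zero_le_one hx.le n2, eκ]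
  have q3 : ENNReal.ofReal (w3 r0 s0 y t) = ENNReal.ofReal k ^ 3 * (ENNReal.ofReal x
      + 3 * ENNReal.ofReal x ^ 2 * (1 + evE 1 (EE (Y' + 2 * T) T (sE 2)))
      + ENNReal.ofReal x ^ 3 * (1 + 3 * evE 1 (EE (Y' + 2 * T) T (sE 2))
        + evE 1 (EE (Y' + 2 * T) T (sE 3)))) := by
    rw [← vw3, ← nw3.evE_eq zero_le_one sw3, F3, evE_mul zero_le_one (nn_pow nκ 3)
      (nn_t3 hx.le n2 n3), evE_pow zero_le_one nκ, evE_t3 zero_le_one hx.le n2 n3, eκ]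
  have v2 : 0 ≤ w2 r0 s0 y t := by rw [← vw2]; exact nw2.ev_nonneg zero_le_one
  have v3 : 0 ≤ w3 r0 s0 y t := by rw [← vw3]; exact nw3.ev_nonneg zero_le_one
  generalize evE 1 (EE (Y' + 2 * T) T (sE 2)) = D at q2 q3 ⊢
  generalize evE 1 (EE (Y' + 2 * T) T (sE 3)) = N at q3 ⊢
  have hkE : ENNReal.ofReal k ≠ 0 := (ENNReal.ofReal_pos.2 hk0).ne'
  have hxE : ENNReal.ofReal x ≠ 0 := (ENNReal.ofReal_pos.2 hx).ne'
  have hD : D ≠ ∞ := by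
    intro hD
    rw [hD, add_top, ENNReal.mul_top (pow_ne_zero 2 hxE), add_top,
      ENNReal.mul_top (pow_ne_zero 2 hkE)] at q2
    exact ENNReal.ofReal_ne_top q2
  have hN : N ≠ ∞ := by
    intro hN
    rw [hN, add_top, ENNReal.mul_top (pow_ne_zero 3 hxE), add_top,
      ENNReal.mul_top (pow_ne_zero 3 hkE)] at q3
    exact ENNReal.ofReal_ne_top q3
  obtain ⟨d, hd, rfl⟩ : ∃ d : ℝ, 0 ≤ d ∧ D = ENNReal.ofReal d :=
    ⟨D.toReal, ENNReal.toReal_nonneg, (ENNReal.ofReal_toReal hD).symm⟩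
  obtain ⟨n, hn, rfl⟩ : ∃ n : ℝ, 0 ≤ n ∧ N = ENNReal.ofReal n :=
    ⟨N.toReal, ENNReal.toReal_nonneg, (ENNReal.ofReal_toReal hN).symm⟩
  have o1 : (1 : ℝ≥0∞) = ENNReal.ofReal 1 := ENNReal.ofReal_one.symm
  have o3 : (3 : ℝ≥0∞) = ENNReal.ofReal 3 := by simp
  have r2 : w2 r0 s0 y t = k ^ 2 * (x + x ^ 2 * (1 + d)) := by
    rw [o1, ← ENNReal.ofReal_pow hx.le, ← ENNReal.ofReal_pow hk0.le, ← ENNReal.ofReal_add
      zero_le_one hd, ← ENNReal.ofReal_mul (by positivity), ← ENNReal.ofReal_add hx.le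
      (by positivity), ← ENNReal.ofReal_mul (by positivity)] at q2
    exact (ENNReal.ofReal_eq_ofReal_iff v2 (by positivity)).1 q2
  have r3 : w3 r0 s0 y t = k ^ 3 * (x + 3 * x ^ 2 * (1 + d) + x ^ 3 * (1 + 3 * d + n)) := by
    rw [o1, o3, ← ENNReal.ofReal_pow hx.le, ← ENNReal.ofReal_pow hx.le,
      ← ENNReal.ofReal_pow hk0.le, ← ENNReal.ofReal_add zero_le_one hd,
      ← ENNReal.ofReal_mul (by norm_num), ← ENNReal.ofReal_mul (by positivity),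
      ← ENNReal.ofReal_add hx.le (by positivity), ← ENNReal.ofReal_mul (by norm_num),
      ← ENNReal.ofReal_add zero_le_one (by positivity), ← ENNReal.ofReal_add (by positivity) hn,
      ← ENNReal.ofReal_mul (by positivity), ← ENNReal.ofReal_add (by positivity) (by positivity),
      ← ENNReal.ofReal_mul (by positivity)] at q3
    exact (ENNReal.ofReal_eq_ofReal_iff v3 (by positivity)).1 q3
  have dD : K5N.pD r0 s0 y t = d := by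
    rw [K5N.pD, ← hxdef, ← hk, show K5N.pw2 r0 s0 y t = w2 r0 s0 y t from rfl, r2]
    field_simp
    ring
  have dN : K5N.pN r0 s0 y t = 1 + 3 * d + n := by
    rw [K5N.pN, ← hxdef, ← hk, dD, show K5N.pw3 r0 s0 y t = w3 r0 s0 y t by
      unfold K5N.pw3 w3; ring, r3]
    field_simp
    ring
  refine ⟨hk0, by rw [dD]; exact hd, by rw [dN]; positivity, by rw [dD], ?_⟩
  rw [dN, o1, o3, ← ENNReal.ofReal_mul (by norm_num), ← ENNReal.ofReal_add zero_le_one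
    (by positivity), ← ENNReal.ofReal_add (by positivity) hn]

end K5A
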