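import Pool.Agent.Lib.K5A.Defs

/-!
# K5A.Alg: the recursion of the simple disks is the Tutte equation in another variable

`F = w + ∑_{k ≥ 2} S_k w^k`; the recursion `E8` and its form `E8T`.
-/

set_option autoImplicit false

namespace K5A

open PowerSeries

section

variable {B : Type} [CommRing B]

/-- `∑` over the compositions of 5, grouped (`F` parts of length 1, `G` of length 2, 3, `H` of
length 4, 5). -/
def r5 (x F G H : B) : B :=
  F ^ 5 + 2 * (1 + x) * F ^ 3 * G + 3 * x * F ^ 2 * G + (1 + x + x ^ 2) * F * G ^ 2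
    + (x + x ^ 2) * F * H + (x + x ^ 2) * G ^ 2 + x ^ 2 * H

/-- `∑` over the compositions of 3. -/
def r3 (x F G : B) : B := F ^ 3 + (1 + x) * F * G + x * G

/-- `S̃_2 = x + x^2 (1 + S_2)`. -/
def t2 (x S2 : B) : B := x + x ^ 2 * (1 + S2)

/-- `S̃_3 = x + 3 x^2 (1 + S_2) + x^3 (1 + 3 S_2 + S_3)`. -/
def t3 (x S2 S3 : B) : B := x + 3 * x ^ 2 * (1 + S2) + x ^ 3 * (1 + 3 * S2 + S3)

/-- `κ = 1 + (Y' S̃_2 + T S̃_3) / x`. -/
def kap (x Y T S2 S3 : B) : B :=
  1 + Y * (1 + x * (1 + S2)) + T * (1 + 3 * x * (1 + S2) + x ^ 2 * (1 + 3 * S2 + S3))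

theorem kap_mul (x Y T S2 S3 : B) :
    kap x Y T S2 S3 * x = x + Y * t2 x S2 + T * t3 x S2 S3 := by
  unfold kap t2 t3; ring

/-- The recursion of the simple disks, in the variable `w`; `Y` is `Y' = Y_disk - 2 T`. -/
theorem e8_iff (x Y T S2 S3 F w : B) :
    ((1 + x * (Y + 2 * T + 2 * x * T) * S2 + x ^ 2 * T * S3) * w ^ 2 * F
        = w ^ 3 + (Y + 2 * T + 2 * x * T) * w * r3 x F (F - w) + T * r5 x F (F - w) (F - w - S2 * w ^ 2)) ↔
      (kap x Y T S2 S3 * w ^ 2 * F = w ^ 3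
        + Y * (w * F * ((1 + F) * (x + F)) - x * w ^ 2)
        + T * (F * ((1 + F) * (x + F)) ^ 2 - x * w * ((1 + F) * (x + F)) - t2 x S2 * w ^ 2)) := by
  have h : (1 + x * (Y + 2 * T + 2 * x * T) * S2 + x ^ 2 * T * S3) * w ^ 2 * F
        - (w ^ 3 + (Y + 2 * T + 2 * x * T) * w * r3 x F (F - w)
          + T * r5 x F (F - w) (F - w - S2 * w ^ 2))
      = kap x Y T S2 S3 * w ^ 2 * F - (w ^ 3
        + Y * (w * F * ((1 + F) * (x + F)) - x * w ^ 2)
        + T * (F * ((1 + F) * (x + F)) ^ 2 - x * w * ((1 + F) * (x + F)) - t2 x S2 * w ^ 2)) := by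
    unfold r3 r5 kap t2; ring
  rw [← sub_eq_zero, h, sub_eq_zero]

end

section

variable {A : Type} [CommRing A]

/-- `F(w) = w + ∑_{k ≥ 2} S_k w^k`. -/
noncomputable def FF (S : ℕ → A) : A⟦X⟧ :=
  PowerSeries.mk (fun k => if k = 0 then 0 else if k = 1 then 1 else S k)

/-- The recursion of the simple disks; `Y` is the weight of a quad minus `2 T`. -/
def E8 (x Y T : A) (S : ℕ → A) : Prop :=
  C (1 + x * (Y + 2 * T + 2 * x * T) * S 2 + x ^ 2 * T * S 3) * X ^ 2 * FF S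
    = X ^ 3 + C (Y + 2 * T + 2 * x * T) * X * r3 (C x) (FF S) (FF S - X)
      + C T * r5 (C x) (FF S) (FF S - X) (FF S - X - C (S 2) * X ^ 2)

/-- The recursion as the Tutte equation in the variable `w`. -/
def E8T (x Y T : A) (S : ℕ → A) : Prop :=
  C (kap x Y T (S 2) (S 3)) * X ^ 2 * FF S = X ^ 3
    + C Y * (X * FF S * ((1 + FF S) * (C x + FF S)) - C x * X ^ 2)
    + C T * (FF S * ((1 + FF S) * (C x + FF S)) ^ 2 - C x * X * ((1 + FF S) * (C x + FF S))
      - C (t2 x (S 2)) * X ^ 2)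

theorem E8T_of_E8 {x Y T : A} {S : ℕ → A} (h : E8 x Y T S) : E8T x Y T S := by
  have h1 := (e8_iff (C x) (C Y) (C T) (C (S 2)) (C (S 3)) (FF S) (X : A⟦X⟧)).1
  have e1 : kap (C x) (C Y) (C T) (C (S 2)) (C (S 3)) = (C (kap x Y T (S 2) (S 3)) : A⟦X⟧) := by
    unfold kap; simp only [map_mul, map_add, map_pow, map_one, map_ofNat]
  have e2 : t2 (C x) (C (S 2)) = (C (t2 x (S 2)) : A⟦X⟧) := by
    unfold t2; simp only [map_mul, map_add, map_pow, map_one]
  rw [e1, e2] at h1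
  refine h1 ?_
  have h2 := h
  unfold E8 at h2
  simp only [map_mul, map_add, map_pow, map_one, map_ofNat] at h2
  exact h2

theorem FF_coeff_zero (S : ℕ → A) : coeff 0 (FF S) = 0 := by simp [FF]

theorem FF_coeff_one (S : ℕ → A) : coeff 1 (FF S) = 1 := by simp [FF]

theorem FF_coeff (S : ℕ → A) {k : ℕ} (hk : 2 ≤ k) : coeff k (FF S) = S k := by
  rw [FF, coeff_mk, if_neg (by omega), if_neg (by omega)]

end

end K5A
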