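import Pool.Agent.Lib.K5A.AS

/-!
# K5A.Beyond: nothing is finite beyond a critical point (field `hAX` of `K5N.Sys`)
-/

set_option autoImplicit false

namespace K5A

open PowerSeries
open scoped ENNReal

/-! ### Minimality of the formal solution -/

section

variable {x y t : ℝ} {W : ℕ → ℝ⟦X⟧}

theorem tu_nn (hx : 0 ≤ x) (hy : 0 ≤ y) (ht : 0 ≤ t) (hW : Tu (C x) 1 (C y * X) (C t * X) W)
    (k : ℕ) : Nn (W k) := by
  have key : ∀ n k, ∀ m < n, 0 ≤ coeff m (W k) := by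
    intro n
    induction n with
    | zero => intro k m hm; omega
    | succ n ih =>
      intro k
      induction k using Nat.strong_induction_on with
      | _ k ihk =>
        intro m hm
        rcases Nat.eq_zero_or_pos k with hk | hk
        · rw [hk, hW.zero, map_zero]
        · have h1 := hW.eq k hk
          rw [one_mul] at h1
          rw [h1, map_add, map_add, mul_assoc, mul_assoc, coeff_C_mul, coeff_C_mul]
          have hX : ∀ j, 0 ≤ coeff m (X * W j) := by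
            intro j
            rcases m with _ | m
            · rw [coeff_zero_X_mul]
            · rw [coeff_succ_X_mul]; exact ih j m (by omega)
          refine add_nonneg (add_nonneg ?_ (mul_nonneg hy (hX _))) (mul_nonneg ht (hX _))
          rw [br, map_sum]
          refine Finset.sum_nonneg fun p hp => ?_
          have h3 : p.1 + p.2 = k - 1 := by simpa using Finset.HasAntidiagonal.mem_antidiagonal.1 hp
          rw [coeff_mul]
          refine Finset.sum_nonneg fun q hq => ?_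
          have h4 : q.1 + q.2 = m := by simpa using Finset.HasAntidiagonal.mem_antidiagonal.1 hq
          refine mul_nonneg ?_ ?_
          · rw [map_add]
            refine add_nonneg ?_ (ihk p.1 (by omega) q.1 (by omega))
            split_ifs
            · exact nn_C hx _
            · rw [map_zero]
          · rw [map_add]
            refine add_nonneg ?_ (ihk p.2 (by omega) q.2 (by omega))
            split_ifs
            · exact nn_one _
            · rw [map_zero]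
  intro m
  exact key (m + 1) k m (Nat.lt_succ_self m)

theorem ps_sum {ι : Type} (l : ℝ) (N : ℕ) (s : Finset ι) (f : ι → ℝ⟦X⟧) :
    MobAux.ps l N (∑ i ∈ s, f i) = ∑ i ∈ s, MobAux.ps l N (f i) := by
  unfold MobAux.ps
  rw [Finset.sum_comm]
  refine Finset.sum_congr rfl fun n _ => ?_
  rw [map_sum, Finset.sum_mul]

theorem ps_one (N : ℕ) : MobAux.ps 1 (N + 1) (1 : ℝ⟦X⟧) = 1 := by
  have := MobAux.ps_C 1 N 1
  rwa [map_one] at this

theorem ps_zero (N : ℕ) : MobAux.ps 1 N (0 : ℝ⟦X⟧) = 0 := by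
  unfold MobAux.ps
  simp

theorem tu_min (hx : 0 ≤ x) (hy : 0 ≤ y) (ht : 0 ≤ t) (hW : Tu (C x) 1 (C y * X) (C t * X) W)
    {w : ℕ → ℝ} (hw : Tu x 1 y t w) (hw0 : ∀ k, 0 ≤ w k) (N : ℕ) :
    ∀ k, MobAux.ps 1 N (W k) ≤ w k := by
  induction N with
  | zero => intro k; unfold MobAux.ps; simpa using hw0 k
  | succ N ih =>
    intro k
    induction k using Nat.strong_induction_on with
    | _ k ihk =>
      rcases Nat.eq_zero_or_pos k with hk | hk
      · rw [hk, hW.zero, hw.zero, ps_zero]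
      · have h1 := hW.eq k hk
        have h2 := hw.eq k hk
        rw [one_mul] at h1 h2
        rw [h1, h2, MobAux.ps_add, MobAux.ps_add, mul_assoc, mul_assoc, MobAux.ps_C_mul,
          MobAux.ps_C_mul, MobAux.ps_X_mul, MobAux.ps_X_mul, one_mul, one_mul]
        refine add_le_add (add_le_add ?_ (mul_le_mul_of_nonneg_left (ih _) hy))
          (mul_le_mul_of_nonneg_left (ih _) ht)
        rw [br, br, ps_sum]
        refine Finset.sum_le_sum fun p hp => ?_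
        have h3 : p.1 + p.2 = k - 1 := by simpa using Finset.HasAntidiagonal.mem_antidiagonal.1 hp
        have n1 : Nn ((if p.1 = 0 then C x else 0) + W p.1) := by
          refine nn_add ?_ (tu_nn hx hy ht hW _)
          split_ifs
          · exact nn_C hx
          · exact NnS.zero_mem
        have n2 : Nn ((if p.2 = 0 then 1 else 0) + W p.2) := by
          refine nn_add ?_ (tu_nn hx hy ht hW _)
          split_ifs
          · exact nn_one
          · exact NnS.zero_mem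
        refine MobAux.ps_mul_le zero_le_one n1 n2 ?_ ?_
        · rw [MobAux.ps_add]
          refine add_le_add ?_ (ihk _ (by omega))
          split_ifs
          · rw [MobAux.ps_C]
          · rw [ps_zero]
        · rw [MobAux.ps_add]
          refine add_le_add ?_ (ihk _ (by omega))
          split_ifs
          · rw [ps_one]
          · rw [ps_zero]

end

/-! ### Evaluation of a finite solution -/

theorem Tu.map {A B : Type} [CommRing A] [CommRing B] (φ : A →+* B) {x κ Y T : A} {f : ℕ → A}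
    (h : Tu x κ Y T f) : Tu (φ x) (φ κ) (φ Y) (φ T) (fun k => φ (f k)) := by
  refine ⟨by rw [h.zero, map_zero], fun k hk => ?_⟩
  have h1 := congrArg φ (h.eq k hk)
  rw [map_mul, map_add, map_add, map_mul, map_mul] at h1
  have h2 : φ (br x f k) = br (φ x) (fun k => φ (f k)) k := by
    unfold br
    rw [map_sum]
    refine Finset.sum_congr rfl fun p _ => ?_
    rw [map_mul, map_add, map_add]
    split_ifs <;> simp
  rw [← h2]
  exact h1

theorem sm_of_X_mul {f : ℝ⟦X⟧} (h : Sm 1 (X * f)) : Sm 1 f := by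
  have h1 := (summable_nat_add_iff 1).2 h
  refine h1.congr fun n => ?_
  rw [coeff_succ_X_mul]
  simp

theorem nn_br {x : ℝ} (hx : 0 ≤ x) {f : ℕ → ℝ⟦X⟧} (hf : ∀ k, Nn (f k)) (k : ℕ) :
    Nn (br (C x) f k) := by
  unfold br
  refine NnS.sum_mem fun p _ => ?_
  refine NnS.mul_mem (NnS.add_mem ?_ (hf _)) (NnS.add_mem ?_ (hf _))
  · split_ifs
    · exact nn_C hx
    · exact NnS.zero_mem
  · split_ifs
    · exact NnS.one_mem
    · exact NnS.zero_mem

/-- All terms are finite as soon as the first three are. -/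
theorem sm_all {x T : ℝ} (hx : 0 ≤ x) (hT : 0 < T) {κ Y : ℝ⟦X⟧} (nY : Nn Y) {f : ℕ → ℝ⟦X⟧}
    (h : Tu (C x) κ Y (C T * X) f) (hf : ∀ k, Nn (f k)) (hκ : Sm 1 κ)
    (h1 : Sm 1 (f 1)) (h2 : Sm 1 (f 2)) (k : ℕ) : Sm 1 (f k) := by
  induction k using Nat.strong_induction_on with
  | _ k ih =>
    rcases k with _ | _ | _ | k
    · rw [h.zero]; exact sm_zero
    · exact h1
    · exact h2
    · have e := h.eq (k + 1) (by omega)
      have s1 : Sm 1 (κ * f (k + 1)) := hκ.mul (ih (k + 1) (by omega))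
      have s2 : Sm 1 (C T * X * f (k + 1 + 2)) := by
        refine s1.of_le (nn_mul (nn_mul (nn_C hT.le) nn_X) (hf _)) (fun n => ?_) zero_le_one
        rw [e, map_add, map_add]
        have a1 := nn_br hx hf (k + 1) n
        have a2 := nn_mul nY (hf (k + 1 + 1)) n
        linarith
      rw [mul_assoc] at s2
      exact sm_of_X_mul (MobXAux.sm_const_mul hT.ne' s2)

theorem kap_map {A B : Type} [CommRing A] [CommRing B] (φ : A →+* B) (x Y T a b : A) :
    φ (kap x Y T a b) = kap (φ x) (φ Y) (φ T) (φ a) (φ b) := by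
  unfold kap
  simp only [map_mul, map_add, map_pow, map_ofNat, map_one]

theorem nn_of_kap {x : ℝ} (hx : 0 ≤ x) {Y T a b : ℝ⟦X⟧} (hY : Nn Y) (hT : Nn T) (ha : Nn a)
    (hb : Nn b) : Nn (kap (C x) Y T a b) := by
  have a1 : Nn (C x : ℝ⟦X⟧) := nn_C hx
  unfold kap
  exact nn_add (nn_add nn_one (nn_mul hY (nn_add nn_one (nn_mul a1 (nn_add nn_one ha)))))
    (nn_mul hT (nn_add (nn_add nn_one (nn_mul (nn_mul MobAux.nn_three a1) (nn_add nn_one ha)))
      (nn_mul (nn_pow a1 2) (nn_add (nn_add nn_one (nn_mul MobAux.nn_three ha)) hb))))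

/-- The real solution of the Tutte system. -/
theorem real_tu {x Y T κ : ℝ} (hx : 0 < x) (hY : 0 < Y) (hT : 0 < T) {S2 S3 : ℝ⟦X⟧}
    (s2 : Sm 1 S2) (s3 : Sm 1 S3) {f : ℕ → ℝ⟦X⟧}
    (tf : Tu (C x) (kap (C x) (C Y * X) (C T * X) S2 S3) (C Y * X) (C T * X) f)
    (nf : ∀ k, Nn (f k)) (f1 : f 1 = C x) (f2 : f 2 = t2 (C x) S2)
    (hκ : kap x Y T (ev 1 S2) (ev 1 S3) = κ) : Tu x κ Y T (fun k => ev 1 (f k)) := by
  obtain ⟨Yl, hYl⟩ : ∃ Yl : ℝ⟦X⟧, Yl = C Y * X := ⟨_, rfl⟩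
  obtain ⟨Tl, hTl⟩ : ∃ Tl : ℝ⟦X⟧, Tl = C T * X := ⟨_, rfl⟩
  have nY : Nn Yl := by rw [hYl]; exact nn_mul (nn_C hY.le) nn_X
  have sY : Sm 1 Yl := by rw [hYl]; exact (sm_C _).mul sm_X
  have sT : Sm 1 Tl := by rw [hTl]; exact (sm_C _).mul sm_X
  have vY : ev 1 Yl = Y := by rw [hYl, ev_mul (sm_C _) sm_X, ev_C, ev_X, mul_one]
  have vT : ev 1 Tl = T := by rw [hTl, ev_mul (sm_C _) sm_X, ev_C, ev_X, mul_one]
  have tf' := tf
  rw [← hYl] at tf
  have hks : kap (C x) Yl Tl S2 S3 =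
      (SmR 1).subtype (kap ⟨C x, sm_C x⟩ ⟨Yl, sY⟩ ⟨Tl, sT⟩ ⟨S2, s2⟩ ⟨S3, s3⟩) := by
    rw [kap_map]; rfl
  have sκ : Sm 1 (kap (C x) Yl Tl S2 S3) := by
    rw [hks]
    exact (kap (⟨C x, sm_C x⟩ : SmR 1) ⟨Yl, sY⟩ ⟨Tl, sT⟩ ⟨S2, s2⟩ ⟨S3, s3⟩).2
  have vκ : ev 1 (kap (C x) Yl Tl S2 S3) = κ := by
    have h5 := kap_map (evH 1) ⟨C x, sm_C x⟩ ⟨Yl, sY⟩ ⟨Tl, sT⟩ ⟨S2, s2⟩ ⟨S3, s3⟩
    simp only [evH_apply] at h5
    rw [ev_C, vY, vT, hκ] at h5
    rw [hks]
    exact h5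
  have sf1 : Sm 1 (f 1) := by rw [f1]; exact sm_C x
  have sf2 : Sm 1 (f 2) := by
    rw [f2, t2]
    exact (sm_C x).add (((sm_C x).pow 2).mul (sm_one.add s2))
  have sκ' : Sm 1 (kap (C x) Yl (C T * X) S2 S3) := by rw [← hTl]; exact sκ
  have sf : ∀ k, Sm 1 (f k) := sm_all hx.le hT nY tf nf sκ' sf1 sf2
  rw [← hTl] at tf
  have h6 : Tu (⟨C x, sm_C x⟩ : SmR 1) ⟨_, sκ⟩ ⟨Yl, sY⟩ ⟨Tl, sT⟩ (fun k => ⟨f k, sf k⟩) := by
    refine ⟨Subtype.ext tf.zero, fun k hk => Subtype.ext ?_⟩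
    have h7 := tf.eq k hk
    have h8 : ((br (⟨C x, sm_C x⟩ : SmR 1) (fun k => ⟨f k, sf k⟩) k : SmR 1) : ℝ⟦X⟧)
        = br (C x) f k := by
      have : ((br (⟨C x, sm_C x⟩ : SmR 1) (fun k => ⟨f k, sf k⟩) k : SmR 1) : ℝ⟦X⟧)
        = (SmR 1).subtype (br (⟨C x, sm_C x⟩ : SmR 1) (fun k => ⟨f k, sf k⟩) k) := rfl
      rw [this]
      unfold br
      rw [map_sum]
      refine Finset.sum_congr rfl fun p _ => ?_
      rw [map_mul, map_add, map_add]
      split_ifs <;> simp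
    show kap (C x) Yl Tl S2 S3 * f k = _ + Yl * f (k + 1) + Tl * f (k + 2)
    rw [h8]
    exact h7
  have h9 := h6.map (evH 1)
  simp only [evH_apply] at h9
  rw [ev_C, vκ, vY, vT] at h9
  exact h9

/-- No nonnegative real solution beyond a critical point. -/
theorem no_real {r0 s0 yc tc x κ Y T : ℝ} (hC : K5N.Crit r0 s0 yc tc)
    (hxe : K5N.px r0 s0 yc tc = x) (hκ : 0 < κ) (hY : 0 < Y) (hT : 0 < T)
    (hyc : yc < Y / κ ^ 2) (htc : tc < T / κ ^ 3) {w : ℕ → ℝ} (hw0 : ∀ k, 0 ≤ w k)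
    (tR : Tu x κ Y T w) : False := by
  have hx : 0 < x := by rw [← hxe]; exact hC.x_pos
  have e1 : Y / κ ^ 2 * κ ^ 2 = Y := by field_simp
  have e1' : T / κ ^ 3 * κ ^ 3 = T := by field_simp
  have tR' : Tu x κ (Y / κ ^ 2 * κ ^ 2) (T / κ ^ 3 * κ ^ 3) w := by
    rw [e1, e1']; exact tR
  have tS := tR'.scale
  have hy : 0 ≤ Y / κ ^ 2 := by positivity
  have ht : 0 ≤ T / κ ^ 3 := by positivity
  generalize Y / κ ^ 2 = y at *
  generalize T / κ ^ 3 = t at *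
  obtain ⟨r, s, h, hr, hs⟩ := mob_exists hx.le hy ht
  have hmin := tu_min hx.le hy ht h.tu tS (fun k => mul_nonneg (pow_nonneg hκ.le k) (hw0 k))
  have hw : Sm 1 (w1 r s (C y * X) (C t * X)) := by
    refine (nn_w1 hx.le hy ht h hr hs).sm zero_le_one (B := κ ^ 1 * w 1) fun M => ?_
    have h10 := hmin M 1
    rw [wk_one] at h10
    exact h10
  have hm := MobXAux.mob_of_good hC.toGood
  rw [hxe] at hm
  exact mob_beyond hx hC.y_pos hC.t_pos hC.r_pos hC.s_pos hm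
    (MobXAux.crit_of hC) hyc htc h hr hs hw

/-- Nothing is finite beyond a critical point. -/
theorem beyond {S : ℝ≥0∞ → ℝ≥0∞ → ℝ≥0∞ → ℕ → ℝ≥0∞} (hS : MapIn S) (r0 s0 yc tc : ℝ)
    (hC : K5N.Crit r0 s0 yc tc) (Y T D N : ℝ) (hT : 0 < T) (hY : 2 * T < Y) (hD : 0 ≤ D)
    (hN : 0 ≤ N)
    (h2 : S (.ofReal (K5N.px r0 s0 yc tc)) (.ofReal Y) (.ofReal T) 2 = .ofReal D)
    (h3 : 1 + 3 * S (.ofReal (K5N.px r0 s0 yc tc)) (.ofReal Y) (.ofReal T) 2
      + S (.ofReal (K5N.px r0 s0 yc tc)) (.ofReal Y) (.ofReal T) 3 = .ofReal N)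
    (κ : ℝ) (hκ : κ = 1 + (Y - 2 * T) * (1 + K5N.px r0 s0 yc tc * (1 + D)) +
      T * (1 + 3 * K5N.px r0 s0 yc tc * (1 + D) + K5N.px r0 s0 yc tc ^ 2 * N)) :
    ¬ (yc < (Y - 2 * T) / κ ^ 2 ∧ tc < T / κ ^ 3) := by
  rintro ⟨hyc, htc⟩
  obtain ⟨x, hxe⟩ : ∃ x, K5N.px r0 s0 yc tc = x := ⟨_, rfl⟩
  have hx : 0 < x := by rw [← hxe]; exact hC.x_pos
  rw [hxe] at h2 h3 hκ
  have hY' : 0 < Y - 2 * T := by linarith
  have hκ0 : 0 < κ := by
    rw [hκ]
    have : 0 ≤ (Y - 2 * T) * (1 + x * (1 + D)) := by positivity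
    have : 0 ≤ T * (1 + 3 * x * (1 + D) + x ^ 2 * N) := by positivity
    linarith
  obtain ⟨sE, g, gn, hE, hSf⟩ := hS.ex (.ofReal x) ENNReal.ofReal_ne_top
  -- the formal solution along the ray
  obtain ⟨Yl, hYl⟩ : ∃ Yl : ℝ⟦X⟧, Yl = C (Y - 2 * T) * X := ⟨_, rfl⟩
  obtain ⟨Tl, hTl⟩ : ∃ Tl : ℝ⟦X⟧, Tl = C T * X := ⟨_, rfl⟩
  have nY : Nn Yl := by rw [hYl]; exact nn_mul (nn_C hY'.le) nn_X
  have nT : Nn Tl := by rw [hTl]; exact nn_mul (nn_C hT.le) nn_X
  have cY : constantCoeff Yl = 0 := by rw [hYl]; simp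
  have cT : constantCoeff Tl = 0 := by rw [hTl]; simp
  have nYd : Nn (Yl + 2 * Tl) := nn_add nY (nn_mul MobAux.nn_two nT)
  have cYd : constantCoeff (Yl + 2 * Tl) = 0 := by rw [map_add, map_mul, cY, cT, mul_zero, add_zero]
  have n2 : Nn (EE (Yl + 2 * Tl) Tl (sE 2)) := nn_EE nYd nT _
  have n3 : Nn (EE (Yl + 2 * Tl) Tl (sE 3)) := nn_EE nYd nT _
  have eT : evE 1 Tl = ENNReal.ofReal T := by
    rw [hTl, evE_mul zero_le_one (nn_C hT.le) nn_X, evE_C, evE_X, ENNReal.ofReal_one, mul_one]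
  have eY : evE 1 (Yl + 2 * Tl) = ENNReal.ofReal Y := by
    rw [evE_add zero_le_one nY (nn_mul MobAux.nn_two nT), evE_mul zero_le_one MobAux.nn_two nT,
      evE_two, eT, hYl, evE_mul zero_le_one (nn_C hY'.le) nn_X, evE_C, evE_X, ENNReal.ofReal_one,
      mul_one, show (2 : ℝ≥0∞) = ENNReal.ofReal 2 by simp, ← ENNReal.ofReal_mul two_pos.le,
      ← ENNReal.ofReal_add hY'.le (by positivity)]
    congr 1
    ring
  have e2 : evE 1 (EE (Yl + 2 * Tl) Tl (sE 2)) = ENNReal.ofReal D := by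
    rw [evE_EE zero_le_one cYd cT nYd nT (hE.fin 2 le_rfl), eY, eT, ← hSf 2 le_rfl, h2]
  have e3 : evE 1 (EE (Yl + 2 * Tl) Tl (sE 3)) =
      S (.ofReal x) (.ofReal Y) (.ofReal T) 3 := by
    rw [evE_EE zero_le_one cYd cT nYd nT (hE.fin 3 (by norm_num)), eY, eT, ← hSf 3 (by norm_num)]
  have hS3 : S (.ofReal x) (.ofReal Y) (.ofReal T) 3 ≠ ∞ := by
    intro hh
    rw [hh, add_top] at h3
    exact ENNReal.ofReal_ne_top h3.symm
  have s2 : Sm 1 (EE (Yl + 2 * Tl) Tl (sE 2)) :=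
    (n2.sm_iff zero_le_one).2 (by rw [e2]; exact ENNReal.ofReal_ne_top)
  have s3 : Sm 1 (EE (Yl + 2 * Tl) Tl (sE 3)) := (n3.sm_iff zero_le_one).2 (by rw [e3]; exact hS3)
  have v2 : ev 1 (EE (Yl + 2 * Tl) Tl (sE 2)) = D := by
    rw [n2.evE_eq zero_le_one s2] at e2
    exact (ENNReal.ofReal_eq_ofReal_iff (n2.ev_nonneg zero_le_one) hD).1 e2
  have v3 : 1 + 3 * D + ev 1 (EE (Yl + 2 * Tl) Tl (sE 3)) = N := by
    have h4 := n3.ev_nonneg (l := 1) zero_le_one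
    rw [h2, ← e3, n3.evE_eq zero_le_one s3, show (3 : ℝ≥0∞) = ENNReal.ofReal 3 by simp,
      ← ENNReal.ofReal_mul (by norm_num), ← ENNReal.ofReal_one, ← ENNReal.ofReal_add zero_le_one
      (by positivity), ← ENNReal.ofReal_add (by positivity) h4] at h3
    have h5 : 0 ≤ 1 + 3 * D := by positivity
    exact (ENNReal.ofReal_eq_ofReal_iff (add_nonneg h5 h4) hN).1 h3
  have hxr : (ENNReal.ofReal x).toReal = x := ENNReal.toReal_ofReal hx.le
  have e8 := hE.e8 ENNReal.ofReal_ne_top cYd cT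
  rw [hxr, show Yl + 2 * Tl - 2 * Tl = Yl by ring] at e8
  have hxu : IsUnit (C x : ℝ⟦X⟧) := (isUnit_iff_ne_zero.2 hx.ne').map C
  obtain ⟨f, tf, f1, f2, f3, fP⟩ := transfer NnS (x := C x) (Y := Yl) (T := Tl)
    (S := fun κ => EE (Yl + 2 * Tl) Tl (sE κ)) (mem_NnS.2 (nn_C hx.le)) hxu
    (fun k _ => mem_NnS.2 (nn_EE nYd nT _)) (E8T_of_E8 e8)
  have nf : ∀ k, Nn (f k) := fun k => mem_NnS.1 (fP k)
  generalize EE (Yl + 2 * Tl) Tl (sE 2) = S2 at *
  generalize EE (Yl + 2 * Tl) Tl (sE 3) = S3 at *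
  subst hYl hTl
  have tR := real_tu hx hY' hT s2 s3 tf nf f1 f2 (κ := κ) (by
    rw [kap, hκ, ← v3, v2])
  exact no_real hC hxe hκ0 hY' hT hyc htc (fun k => (nf k).ev_nonneg zero_le_one) tR

end K5A
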