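import Mathlib

/-!
# K5A.Defs: the algebraic side of the enumeration of simple bipartite planar maps

Everything is a sequence `f : ℕ → A` in a commutative ring `A`; `f k` is the generating function of
maps with outer half-degree `k`.

* `Tu x κ Y T f`: the (scaled) Tutte system `κ f_k = [u^(k-1)] (x + f)(1 + f) + Y f_(k+1) + T f_(k+2)`.
-/

set_option autoImplicit false

namespace K5A

open PowerSeries

variable {A : Type} [CommRing A]

/-- `[u^(k-1)] (x + f(u)) (1 + f(u))` where `f(u) = ∑ f_k u^k`. -/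
def br (x : A) (f : ℕ → A) (k : ℕ) : A :=
  ∑ p ∈ Finset.HasAntidiagonal.antidiagonal (k - 1),
    ((if p.1 = 0 then x else 0) + f p.1) * ((if p.2 = 0 then 1 else 0) + f p.2)

/-- The scaled Tutte system. -/
structure Tu (x κ Y T : A) (f : ℕ → A) : Prop where
  zero : f 0 = 0
  eq : ∀ k, 1 ≤ k → κ * f k = br x f k + Y * f (k + 1) + T * f (k + 2)

theorem br_eq_coeff (x : A) (Φ : A⟦X⟧) (k : ℕ) :
    br x (fun k => coeff k Φ) k = coeff (k - 1) ((C x + Φ) * (1 + Φ)) := by
  rw [coeff_mul, br]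
  refine Finset.sum_congr rfl fun p _ => ?_
  rw [map_add, map_add, coeff_C, coeff_one]

/-- The Tutte system as an identity of power series in the catalytic variable. -/
theorem tu_of_gen (x κ Y T : A) (Φ : A⟦X⟧) (h0 : coeff 0 Φ = 0)
    (h : X ^ 2 * (C κ * Φ) = X ^ 3 * ((C x + Φ) * (1 + Φ)) + C Y * (X * (Φ - C (coeff 1 Φ) * X))
      + C T * (Φ - C (coeff 1 Φ) * X - C (coeff 2 Φ) * X ^ 2)) :
    Tu x κ Y T (fun k => coeff k Φ) := by
  refine ⟨h0, fun k hk => ?_⟩
  have h1 := congrArg (coeff (k + 2)) h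
  rw [map_add, map_add] at h1
  obtain ⟨k, rfl⟩ := Nat.exists_eq_succ_of_ne_zero (Nat.one_le_iff_ne_zero.1 hk)
  simp only [Nat.succ_eq_add_one] at *
  have e1 : coeff (k + 1 + 2) (X ^ 2 * (C κ * Φ)) = κ * coeff (k + 1) Φ := by
    rw [coeff_X_pow_mul, coeff_C_mul]
  have e2 : coeff (k + 1 + 2) (X ^ 3 * ((C x + Φ) * (1 + Φ))) = br x (fun k => coeff k Φ) (k + 1) := by
    rw [br_eq_coeff, show k + 1 + 2 = k + 3 by ring, coeff_X_pow_mul]
    rfl
  have e3 : coeff (k + 1 + 2) (C Y * (X * (Φ - C (coeff 1 Φ) * X))) = Y * coeff (k + 2) Φ := by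
    rw [coeff_C_mul, show k + 1 + 2 = (k + 2) + 1 by ring, coeff_succ_X_mul, map_sub, coeff_C_mul,
      coeff_X, if_neg (by omega), mul_zero, sub_zero]
  have e4 : coeff (k + 1 + 2) (C T * (Φ - C (coeff 1 Φ) * X - C (coeff 2 Φ) * X ^ 2))
      = T * coeff (k + 3) Φ := by
    rw [coeff_C_mul, map_sub, map_sub, coeff_C_mul, coeff_C_mul, coeff_X, coeff_X_pow,
      if_neg (by omega), if_neg (by omega), mul_zero, mul_zero, sub_zero, sub_zero]
  rw [e1, e2, e3, e4] at h1
  exact h1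

/-- Scaling: from the scaled system to the plain one. -/
theorem Tu.scale {x κ y t : A} {f : ℕ → A} (h : Tu x κ (y * κ ^ 2) (t * κ ^ 3) f) :
    Tu x 1 y t (fun k => κ ^ k * f k) := by
  refine ⟨by rw [h.zero, mul_zero], fun k hk => ?_⟩
  obtain ⟨k, rfl⟩ := Nat.exists_eq_succ_of_ne_zero (Nat.one_le_iff_ne_zero.1 hk)
  have h1 := h.eq (k + 1) (by omega)
  have h2 : br x (fun k => κ ^ k * f k) (k + 1) = κ ^ k * br x f (k + 1) := by
    unfold br
    rw [Finset.mul_sum]
    refine Finset.sum_congr rfl fun p hp => ?_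
    have h3 : p.1 + p.2 = k := by simpa using Finset.HasAntidiagonal.mem_antidiagonal.1 hp
    rw [← h3, pow_add]
    rcases Nat.eq_zero_or_pos p.1 with h4 | h4
    · rcases Nat.eq_zero_or_pos p.2 with h5 | h5
      · rw [h4, h5]; simp
      · rw [if_neg (show p.2 ≠ 0 by omega), h4]; simp; ring
    · rcases Nat.eq_zero_or_pos p.2 with h5 | h5
      · rw [if_neg (show p.1 ≠ 0 by omega), h5]; simp; ring
      · rw [if_neg (show p.1 ≠ 0 by omega), if_neg (show p.2 ≠ 0 by omega)]; ring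
  simp only [Nat.succ_eq_add_one]
  rw [h2, one_mul]
  calc κ ^ (k + 1) * f (k + 1) = κ ^ k * (κ * f (k + 1)) := by ring
    _ = _ := by rw [h1]; ring

end K5A
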