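import Mathlib

/-!
# K5A.Ev: evaluation of absolutely summable real power series
-/

set_option autoImplicit false

namespace K5A

open PowerSeries

/-- Absolute summability of `f` at `l`. -/
def Sm (l : ℝ) (f : ℝ⟦X⟧) : Prop := Summable fun n => ‖coeff n f * l ^ n‖

/-- Value of `f` at `l`. -/
noncomputable def ev (l : ℝ) (f : ℝ⟦X⟧) : ℝ := ∑' n, coeff n f * l ^ n

variable {l : ℝ} {f g : ℝ⟦X⟧}

theorem Sm.summable (h : Sm l f) : Summable fun n => coeff n f * l ^ n := Summable.of_norm h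

theorem Sm.add (hf : Sm l f) (hg : Sm l g) : Sm l (f + g) := by
  refine Summable.of_nonneg_of_le (fun n => norm_nonneg _) (fun n => ?_) (Summable.add hf hg)
  rw [map_add, add_mul]
  exact norm_add_le _ _

theorem ev_add (hf : Sm l f) (hg : Sm l g) : ev l (f + g) = ev l f + ev l g := by
  unfold ev
  rw [← hf.summable.tsum_add hg.summable]
  exact tsum_congr fun n => by rw [map_add, add_mul]

theorem Sm.neg (hf : Sm l f) : Sm l (-f) := by
  unfold Sm
  simp only [map_neg, neg_mul, norm_neg]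
  exact hf

theorem ev_neg : ev l (-f) = - ev l f := by
  unfold ev
  rw [← tsum_neg]
  exact tsum_congr fun n => by rw [map_neg, neg_mul]

theorem coeff_mul_pow (f g : ℝ⟦X⟧) (l : ℝ) (n : ℕ) : coeff n (f * g) * l ^ n
    = ∑ p ∈ Finset.HasAntidiagonal.antidiagonal n, (coeff p.1 f * l ^ p.1) * (coeff p.2 g * l ^ p.2) := by
  rw [coeff_mul, Finset.sum_mul]
  refine Finset.sum_congr rfl fun p hp => ?_
  have h : p.1 + p.2 = n := by simpa using Finset.HasAntidiagonal.mem_antidiagonal.1 hp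
  rw [← h, pow_add]; ring

theorem Sm.mul (hf : Sm l f) (hg : Sm l g) : Sm l (f * g) := by
  have h := summable_norm_sum_mul_antidiagonal_of_summable_norm hf hg
  unfold Sm
  simp only [coeff_mul_pow]
  exact h

theorem ev_mul (hf : Sm l f) (hg : Sm l g) : ev l (f * g) = ev l f * ev l g := by
  unfold ev
  rw [tsum_mul_tsum_eq_tsum_sum_antidiagonal_of_summable_norm hf hg]
  exact tsum_congr fun n => coeff_mul_pow f g l n

theorem sm_C (a : ℝ) : Sm l (C a) := by
  refine summable_of_ne_finset_zero (s := {0}) fun n hn => ?_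
  rw [coeff_C, if_neg (by simpa using hn), zero_mul, norm_zero]

theorem ev_C (a : ℝ) : ev l (C a) = a := by
  unfold ev
  rw [tsum_eq_single 0 (fun n hn => by rw [coeff_C, if_neg hn, zero_mul])]
  simp

theorem sm_X : Sm l (X : ℝ⟦X⟧) := by
  refine summable_of_ne_finset_zero (s := {1}) fun n hn => ?_
  rw [coeff_X, if_neg (by simpa using hn), zero_mul, norm_zero]

theorem ev_X : ev l (X : ℝ⟦X⟧) = l := by
  unfold ev
  rw [tsum_eq_single 1 (fun n hn => by rw [coeff_X, if_neg hn, zero_mul])]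
  simp

variable (l) in
/-- The ring of absolutely summable series at `l`. -/
def SmR : Subring ℝ⟦X⟧ where
  carrier := {f | Sm l f}
  mul_mem' := Sm.mul
  one_mem' := by
    have := sm_C (l := l) 1
    rwa [map_one] at this
  add_mem' := Sm.add
  zero_mem' := by
    have := sm_C (l := l) 0
    rwa [map_zero] at this
  neg_mem' := Sm.neg

theorem mem_SmR : f ∈ SmR l ↔ Sm l f := Iff.rfl

variable (l) in
/-- Evaluation as a ring homomorphism. -/
noncomputable def evH : SmR l →+* ℝ where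
  toFun f := ev l f.1
  map_one' := by
    show ev l (1 : ℝ⟦X⟧) = 1
    have := ev_C (l := l) 1
    rwa [map_one] at this
  map_zero' := by
    show ev l (0 : ℝ⟦X⟧) = 0
    have := ev_C (l := l) 0
    rwa [map_zero] at this
  map_add' f g := ev_add f.2 g.2
  map_mul' f g := ev_mul f.2 g.2

theorem evH_apply (f : SmR l) : evH l f = ev l f.1 := rfl

theorem Sm.sub (hf : Sm l f) (hg : Sm l g) : Sm l (f - g) := (SmR l).sub_mem hf hg

theorem ev_sub (hf : Sm l f) (hg : Sm l g) : ev l (f - g) = ev l f - ev l g :=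
  map_sub (evH l) ⟨f, hf⟩ ⟨g, hg⟩

theorem sm_one : Sm l (1 : ℝ⟦X⟧) := (SmR l).one_mem

theorem ev_one : ev l (1 : ℝ⟦X⟧) = 1 := map_one (evH l)

theorem sm_zero : Sm l (0 : ℝ⟦X⟧) := (SmR l).zero_mem

theorem ev_zero : ev l (0 : ℝ⟦X⟧) = 0 := map_zero (evH l)

theorem Sm.pow (hf : Sm l f) (n : ℕ) : Sm l (f ^ n) := (SmR l).pow_mem hf n

theorem ev_pow (hf : Sm l f) (n : ℕ) : ev l (f ^ n) = ev l f ^ n := map_pow (evH l) ⟨f, hf⟩ n

/-! ### Nonnegative coefficients -/

/-- All coefficients are nonnegative. -/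
def Nn (f : ℝ⟦X⟧) : Prop := ∀ n, 0 ≤ coeff n f

/-- The semiring of the series with nonnegative coefficients. -/
def NnS : Subsemiring ℝ⟦X⟧ where
  carrier := {f | Nn f}
  mul_mem' := by
    intro a b ha hb n
    rw [coeff_mul]
    exact Finset.sum_nonneg fun p _ => mul_nonneg (ha _) (hb _)
  one_mem' := by
    intro n
    rw [coeff_one]
    split_ifs <;> norm_num
  add_mem' := by
    intro a b ha hb n
    rw [map_add]
    exact add_nonneg (ha n) (hb n)
  zero_mem' := by
    intro n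
    rw [map_zero]

theorem mem_NnS : f ∈ NnS ↔ Nn f := Iff.rfl

theorem nn_C {a : ℝ} (ha : 0 ≤ a) : Nn (C a) := by
  intro n
  rw [coeff_C]
  split_ifs
  · exact ha
  · exact le_refl _

theorem nn_X : Nn (X : ℝ⟦X⟧) := by
  intro n
  rw [coeff_X]
  split_ifs <;> norm_num

theorem Nn.ev_nonneg (h : Nn f) (hl : 0 ≤ l) : 0 ≤ ev l f :=
  tsum_nonneg fun n => mul_nonneg (h n) (pow_nonneg hl n)

/-- Summability from a bound of the partial sums. -/
theorem Nn.sm (h : Nn f) (hl : 0 ≤ l) {B : ℝ} (hB : ∀ N, ∑ n ∈ Finset.range N, coeff n f * l ^ n ≤ B) :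
    Sm l f := by
  refine summable_of_sum_range_le (c := B) (fun n => norm_nonneg _) fun N => ?_
  refine le_trans (le_of_eq (Finset.sum_congr rfl fun n _ => ?_)) (hB N)
  exact Real.norm_of_nonneg (mul_nonneg (h n) (pow_nonneg hl n))

theorem Nn.ev_le (h : Nn f) (hl : 0 ≤ l) {B : ℝ}
    (hB : ∀ N, ∑ n ∈ Finset.range N, coeff n f * l ^ n ≤ B) : ev l f ≤ B :=
  Real.tsum_le_of_sum_range_le (fun n => mul_nonneg (h n) (pow_nonneg hl n)) hB

/-- Smaller coefficients. -/
theorem Sm.of_le (hg : Sm l g) (h : Nn f) (hfg : ∀ n, coeff n f ≤ coeff n g) (hl : 0 ≤ l) : Sm l f := by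
  refine Summable.of_nonneg_of_le (fun n => norm_nonneg _) (fun n => ?_) hg
  rw [Real.norm_of_nonneg (mul_nonneg (h n) (pow_nonneg hl n)),
    Real.norm_of_nonneg (mul_nonneg (le_trans (h n) (hfg n)) (pow_nonneg hl n))]
  exact mul_le_mul_of_nonneg_right (hfg n) (pow_nonneg hl n)

/-- Smaller argument. -/
theorem Sm.mono {l' : ℝ} (hg : Sm l g) (h0 : 0 ≤ l') (hl : l' ≤ l) : Sm l' g := by
  refine Summable.of_nonneg_of_le (fun n => norm_nonneg _) (fun n => ?_) hg
  rw [norm_mul, norm_mul, norm_pow, norm_pow, Real.norm_of_nonneg h0, Real.norm_of_nonneg (le_trans h0 hl)]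
  exact mul_le_mul_of_nonneg_left (pow_le_pow_left₀ h0 hl n) (norm_nonneg _)

/-- Value in `ℝ≥0∞`. -/
noncomputable def evE (l : ℝ) (f : ℝ⟦X⟧) : ENNReal := ∑' n, ENNReal.ofReal (coeff n f * l ^ n)

theorem Nn.evE_eq (h : Nn f) (hl : 0 ≤ l) (hs : Sm l f) : evE l f = ENNReal.ofReal (ev l f) :=
  (ENNReal.ofReal_tsum_of_nonneg (fun n => mul_nonneg (h n) (pow_nonneg hl n)) hs.summable).symm

theorem Nn.sm_iff (h : Nn f) (hl : 0 ≤ l) : Sm l f ↔ evE l f ≠ ⊤ := by
  constructor
  · intro hs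
    rw [h.evE_eq hl hs]
    exact ENNReal.ofReal_ne_top
  · intro ht
    have h1 := ENNReal.summable_toReal ht
    refine h1.congr fun n => ?_
    rw [ENNReal.toReal_ofReal (mul_nonneg (h n) (pow_nonneg hl n)),
      Real.norm_of_nonneg (mul_nonneg (h n) (pow_nonneg hl n))]

end K5A
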