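import Pool.Agent.Lib.K5A.Defs

/-!
# K5A.Fix: formal fixed points and the Lagrange equation
-/

set_option autoImplicit false

namespace K5A

open PowerSeries

section

variable {ι A : Type} [CommRing A]

/-- `Φ` gains one order of precision. -/
def Contr (Φ : (ι → A⟦X⟧) → (ι → A⟦X⟧)) : Prop :=
  ∀ (n : ℕ) (f g : ι → A⟦X⟧), (∀ i, ∀ m < n, coeff m (f i) = coeff m (g i)) →
    ∀ i, ∀ m < n + 1, coeff m (Φ f i) = coeff m (Φ g i)

theorem Contr.unique {Φ : (ι → A⟦X⟧) → (ι → A⟦X⟧)} (h : Contr Φ) {f g : ι → A⟦X⟧}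
    (hf : Φ f = f) (hg : Φ g = g) : f = g := by
  have key : ∀ n i, ∀ m < n, coeff m (f i) = coeff m (g i) := by
    intro n
    induction n with
    | zero => intro i m hm; omega
    | succ n ih =>
      intro i m hm
      have := h n f g ih i m hm
      rwa [hf, hg] at this
  funext i
  ext m
  exact key (m + 1) i m (Nat.lt_succ_self m)

theorem Contr.exists {Φ : (ι → A⟦X⟧) → (ι → A⟦X⟧)} (h : Contr Φ) (P : Set A) (h0 : (0 : A) ∈ P)
    (hP : ∀ f : ι → A⟦X⟧, (∀ i m, coeff m (f i) ∈ P) → ∀ i m, coeff m (Φ f i) ∈ P) :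
    ∃ f : ι → A⟦X⟧, Φ f = f ∧ ∀ i m, coeff m (f i) ∈ P := by
  let s : ℕ → ι → A⟦X⟧ := fun n => Φ^[n] (fun _ => 0)
  have hs : ∀ n, s (n + 1) = Φ (s n) := fun n => Function.iterate_succ_apply' Φ n _
  have hsP : ∀ n i m, coeff m (s n i) ∈ P := by
    intro n
    induction n with
    | zero => intro i m; simpa [s] using h0
    | succ n ih => rw [hs]; exact hP _ ih
  have hstep : ∀ n i, ∀ m < n, coeff m (s n i) = coeff m (s (n + 1) i) := by
    intro n
    induction n with
    | zero => intro i m hm; omega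
    | succ n ih =>
      intro i m hm
      rw [hs n, hs (n + 1)]
      exact h n _ _ ih i m hm
  have hst : ∀ n k i, ∀ m < n, coeff m (s n i) = coeff m (s (n + k) i) := by
    intro n k
    induction k with
    | zero => intro i m _; rfl
    | succ k ih =>
      intro i m hm
      rw [ih i m hm, ← add_assoc]
      exact hstep (n + k) i m (by omega)
  let f : ι → A⟦X⟧ := fun i => PowerSeries.mk fun m => coeff m (s (m + 1) i)
  have hf : ∀ n i, ∀ m < n, coeff m (f i) = coeff m (s n i) := by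
    intro n i m hm
    rw [coeff_mk]
    obtain ⟨k, rfl⟩ := Nat.exists_eq_add_of_le (show m + 1 ≤ n by omega)
    exact hst (m + 1) k i m (Nat.lt_succ_self m)
  refine ⟨f, ?_, fun i m => ?_⟩
  · funext i
    ext m
    have h1 := h (m + 1) f (s (m + 1)) (hf (m + 1)) i m (by omega)
    rw [h1, ← hs, hf (m + 2) i m (by omega)]
  · rw [coeff_mk]; exact hsP _ _ _

end

section

variable {A : Type} [CommRing A]

theorem coeff_mul_congr {n : ℕ} {a b c d : A⟦X⟧} (h1 : ∀ m < n, coeff m a = coeff m b)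
    (h2 : ∀ m < n, coeff m c = coeff m d) : ∀ m < n, coeff m (a * c) = coeff m (b * d) := by
  intro m hm
  rw [coeff_mul, coeff_mul]
  refine Finset.sum_congr rfl fun p hp => ?_
  have h3 : p.1 + p.2 = m := by simpa using Finset.HasAntidiagonal.mem_antidiagonal.1 hp
  rw [h1 p.1 (by omega), h2 p.2 (by omega)]

theorem coeff_pow_congr {n : ℕ} {a b : A⟦X⟧} (h1 : ∀ m < n, coeff m a = coeff m b) (k : ℕ) :
    ∀ m < n, coeff m (a ^ k) = coeff m (b ^ k) := by
  induction k with
  | zero => intro m _; rw [pow_zero, pow_zero]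
  | succ k ih => rw [pow_succ, pow_succ]; exact coeff_mul_congr ih h1

theorem coeff_subst_congr {n : ℕ} (φ : A⟦X⟧) {a b : A⟦X⟧} (ha : constantCoeff a = 0)
    (hb : constantCoeff b = 0) (h : ∀ m < n, coeff m a = coeff m b) :
    ∀ m < n, coeff m (φ.subst a) = coeff m (φ.subst b) := by
  intro m hm
  rw [coeff_subst' (HasSubst.of_constantCoeff_zero' ha), coeff_subst' (HasSubst.of_constantCoeff_zero' hb)]
  refine finsum_congr fun d => ?_
  rw [coeff_pow_congr h d m hm]

/-- The Lagrange equation `ω = u φ(ω)`, with the coefficients in a subsemiring. -/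
theorem lagrange (P : Subsemiring A) (φ : A⟦X⟧) (hφ : ∀ k, coeff k φ ∈ P) :
    ∃ ω : A⟦X⟧, constantCoeff ω = 0 ∧ ω = X * φ.subst ω ∧ ∀ k, coeff k ω ∈ P := by
  have hX : ∀ ψ : A⟦X⟧, constantCoeff (X * ψ) = 0 := fun ψ => by simp
  let Φ : (Unit → A⟦X⟧) → (Unit → A⟦X⟧) := fun ψ _ => φ.subst (X * ψ ())
  have hc : Contr Φ := by
    intro n f g h _ m hm
    refine coeff_subst_congr (n := n + 1) φ (hX _) (hX _) ?_ m hm
    intro m hm
    rcases m with _ | m
    · simp
    · rw [coeff_succ_X_mul, coeff_succ_X_mul]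
      exact h () m (by omega)
  have hpow : ∀ a : A⟦X⟧, (∀ k, coeff k a ∈ P) → ∀ d k, coeff k (a ^ d) ∈ P := by
    intro a ha d
    induction d with
    | zero =>
      intro k
      rw [pow_zero, coeff_one]
      split_ifs
      · exact P.one_mem
      · exact P.zero_mem
    | succ d ih =>
      intro k
      rw [pow_succ, coeff_mul]
      exact P.sum_mem fun p _ => P.mul_mem (ih _) (ha _)
  have hXP : ∀ a : A⟦X⟧, (∀ k, coeff k a ∈ P) → ∀ k, coeff k (X * a) ∈ P := by
    intro a ha k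
    rcases k with _ | k
    · rw [coeff_zero_X_mul]; exact P.zero_mem
    · rw [coeff_succ_X_mul]; exact ha k
  obtain ⟨f, hf, hfP⟩ := hc.exists P P.zero_mem (by
    intro f hf _ m
    show coeff m (φ.subst (X * f ())) ∈ P
    rw [coeff_subst' (HasSubst.of_constantCoeff_zero' (hX _))]
    refine finsum_induction (· ∈ P) P.zero_mem (fun a b => P.add_mem) ?_
    intro d
    rw [smul_eq_mul]
    exact P.mul_mem (hφ d) (hpow _ (hXP _ (hf ())) d m))
  refine ⟨X * f (), hX _, ?_, hXP _ (hfP ())⟩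
  have h1 := congrFun hf ()
  show X * f () = X * φ.subst (X * f ())
  conv_lhs => rw [← h1]

end

end K5A
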