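import Pool.Agent.Lib.K5A.Mob
import Pool.Agent.Lib.K5N.Sys

/-!
# K5A.MobX: beyond a critical point, the ray to a critical point

* `mob_beyond`: if the coefficients of `W_1` are summable at `(y, t)` then `(y, t)` is not beyond a
  critical point with the same `x`;
* `ray`: the field `hAR` of `K5N.Sys` from the explicit solution.
-/

set_option autoImplicit false

namespace K5A

open PowerSeries

open MobAux

namespace MobXAux

theorem coeff_deriv (f : ℝ⟦X⟧) (n : ℕ) :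
    coeff n (derivative ℝ f) = coeff (n + 1) f * ((n : ℝ) + 1) := by
  exact coeff_derivative f n

/-- a series with nonnegative constant term and derivative -/
theorem nn_of_deriv {f : ℝ⟦X⟧} (h0 : 0 ≤ coeff 0 f) (h : Nn (derivative ℝ f)) : Nn f := by
  intro n
  rcases n with _ | n
  · exact h0
  · have h1 := h n
    rw [coeff_deriv] at h1
    have h2 : (0 : ℝ) < (n : ℝ) + 1 := by positivity
    exact nonneg_of_mul_nonneg_left h1 h2

theorem nn_dw1 {y t : ℝ} (hy : 0 ≤ y) (ht : 0 ≤ t) {r s : ℝ⟦X⟧} (hr : Nn r) (hs : Nn s) :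
    Nn (r * s * (C y * (r + s) + C t * ((r + s) ^ 2 + r * s))) :=
  nmul (nmul hr hs) (nadd (nmul (nn_C hy) (nadd hr hs))
    (nmul (nn_C ht) (nadd (npow (nadd hr hs) 2) (nmul hr hs))))

theorem nn_dw2 {y t : ℝ} (hy : 0 ≤ y) (ht : 0 ≤ t) {r s : ℝ⟦X⟧} (hr : Nn r) (hs : Nn s) :
    Nn (r * s * (C y * (2 * (r + s) ^ 2 + r * s)
        + 2 * C t * ((r + s) * ((r + s) ^ 2 + 2 * (r * s))))) :=
  nmul (nmul hr hs) (nadd (nmul (nn_C hy) (nadd (nmul nn_two (npow (nadd hr hs) 2)) (nmul hr hs)))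
    (nmul (nmul nn_two (nn_C ht)) (nmul (nadd hr hs) (nadd (npow (nadd hr hs) 2)
      (nmul nn_two (nmul hr hs))))))

theorem const_r {x y t : ℝ} {r s : ℝ⟦X⟧} (h : Mob (C x) (C y * X) (C t * X) r s) :
    constantCoeff r = x ∧ constantCoeff s = 1 := by
  constructor
  · have h1 := congrArg (constantCoeff (R := ℝ)) h.er
    simpa using h1
  · have h1 := congrArg (constantCoeff (R := ℝ)) h.es
    simpa using h1

theorem coeff_mul_ge {f g : ℝ⟦X⟧} (hf : Nn f) (hg : Nn g) (n : ℕ) :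
    coeff n f * coeff 0 g ≤ coeff n (f * g) := by
  rw [coeff_mul]
  exact Finset.single_le_sum (f := fun p : ℕ × ℕ => coeff p.1 f * coeff p.2 g)
    (fun p _ => mul_nonneg (hf _) (hg _)) (a := (n, 0))
    (Finset.HasAntidiagonal.mem_antidiagonal.2 (by simp))

theorem sm_deriv_of_lt {f : ℝ⟦X⟧} (hf : Nn f) (h : Sm 1 f) {l : ℝ} (hl0 : 0 ≤ l) (hl : l < 1) :
    Sm l (derivative ℝ f) := by
  have h1 : Summable fun n : ℕ => ((n : ℝ) + 1) * l ^ n := by
    have h2 : Summable fun n : ℕ => (n : ℝ) * l ^ n := by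
      have := summable_pow_mul_geometric_of_norm_lt_one 1
        (show ‖l‖ < 1 by rw [Real.norm_of_nonneg hl0]; exact hl)
      simpa using this
    have h3 : Summable fun n : ℕ => l ^ n := summable_geometric_of_lt_one hl0 hl
    exact (h2.add h3).congr fun n => by ring
  have hs : Summable fun n => coeff n f := by
    have := h.summable
    simpa using this
  obtain ⟨B, hB⟩ : ∃ B : ℝ, ∀ n, coeff n f ≤ B := by
    refine ⟨∑' n, coeff n f, fun n => ?_⟩
    exact hs.le_tsum n (fun m _ => hf m)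
  have hB0 : 0 ≤ B := le_trans (hf 0) (hB 0)
  refine Summable.of_nonneg_of_le (fun n => norm_nonneg _) (fun n => ?_) (h1.mul_left B)
  rw [coeff_deriv, Real.norm_of_nonneg (mul_nonneg (mul_nonneg (hf _) (by positivity))
    (pow_nonneg hl0 n))]
  calc coeff (n + 1) f * ((n : ℝ) + 1) * l ^ n = coeff (n + 1) f * (((n : ℝ) + 1) * l ^ n) := by ring
    _ ≤ B * (((n : ℝ) + 1) * l ^ n) :=
      mul_le_mul_of_nonneg_right (hB _) (mul_nonneg (by positivity) (pow_nonneg hl0 n))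

theorem sm_const_mul {f : ℝ⟦X⟧} {l c : ℝ} (hc : c ≠ 0) (h : Sm l (C c * f)) : Sm l f := by
  have h1 : C c⁻¹ * (C c * f) = f := by
    rw [← mul_assoc, ← map_mul, inv_mul_cancel₀ hc, map_one, one_mul]
  rw [← h1]
  exact (sm_C _).mul h

end MobXAux

open MobXAux

/-- The coefficients of `W_1` are nonnegative. -/
theorem nn_w1 {x y t : ℝ} (hx : 0 ≤ x) (hy : 0 ≤ y) (ht : 0 ≤ t) {r s : ℝ⟦X⟧}
    (h : Mob (C x) (C y * X) (C t * X) r s) (hr : Nn r) (hs : Nn s) :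
    Nn (w1 r s (C y * X) (C t * X)) := by
  refine nn_of_deriv ?_ ?_
  · rw [coeff_zero_eq_constantCoeff_apply]
    have h1 : constantCoeff (w1 r s (C y * X) (C t * X)) = x := by
      unfold w1
      simp [(const_r h).1, (const_r h).2]
    rw [h1]
    exact hx
  · rw [deriv_w1 h]
    exact nn_dw1 hy ht hr hs

/-- The coefficients of `W_2` are nonnegative. -/
theorem nn_w2 {x y t : ℝ} (hx : 0 ≤ x) (hy : 0 ≤ y) (ht : 0 ≤ t) {r s : ℝ⟦X⟧}
    (h : Mob (C x) (C y * X) (C t * X) r s) (hr : Nn r) (hs : Nn s) :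
    Nn (w2 r s (C y * X) (C t * X)) := by
  refine nn_of_deriv ?_ ?_
  · rw [coeff_zero_eq_constantCoeff_apply]
    have h1 : constantCoeff (w2 r s (C y * X) (C t * X)) = x * (x + 1) := by
      unfold w2
      simp [(const_r h).1, (const_r h).2]
    rw [h1]
    positivity
  · rw [deriv_w2 h]
    exact nn_dw2 hy ht hr hs

/-- If `W_1` is finite then the mobiles are finite before. -/
theorem sm_of_w1 {x y t : ℝ} (hx : 0 < x) (hy : 0 < y) (ht : 0 ≤ t) {r s : ℝ⟦X⟧}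
    (h : Mob (C x) (C y * X) (C t * X) r s) (hr : Nn r) (hs : Nn s)
    (hw : Sm 1 (w1 r s (C y * X) (C t * X))) {l : ℝ} (hl0 : 0 ≤ l) (hl : l < 1) :
    Sm l r ∧ Sm l s := by
  have h1 := sm_deriv_of_lt (nn_w1 hx.le hy.le ht h hr hs) hw hl0 hl
  rw [deriv_w1 h] at h1
  have hr0 : coeff 0 r = x := by
    rw [coeff_zero_eq_constantCoeff_apply]
    exact (const_r h).1
  have hs0 : coeff 0 s = 1 := by
    rw [coeff_zero_eq_constantCoeff_apply]
    exact (const_r h).2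
  have hrs0 : coeff 0 (r * s) = x := by
    rw [coeff_zero_eq_constantCoeff_apply, map_mul, ← coeff_zero_eq_constantCoeff_apply,
      ← coeff_zero_eq_constantCoeff_apply, hr0, hs0, mul_one]
  have e : r * s * (C y * (r + s) + C t * ((r + s) ^ 2 + r * s)) =
      C y * (r * (r * s)) + (C y * (s * (r * s)) + r * s * (C t * ((r + s) ^ 2 + r * s))) := by ring
  have n1 : Nn (C y * (r * (r * s))) := nmul (nn_C hy.le) (nmul hr (nmul hr hs))
  have n2 : Nn (C y * (s * (r * s))) := nmul (nn_C hy.le) (nmul hs (nmul hr hs))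
  have n3 : Nn (r * s * (C t * ((r + s) ^ 2 + r * s))) :=
    nmul (nmul hr hs) (nmul (nn_C ht) (nadd (npow (nadd hr hs) 2) (nmul hr hs)))
  have hxy : y * x ≠ 0 := (mul_pos hy hx).ne'
  constructor
  · refine sm_const_mul hxy (h1.of_le (nmul (nn_C (mul_pos hy hx).le) hr) (fun n => ?_) hl0)
    rw [e, map_add, map_add]
    have h2 := coeff_mul_ge hr (nmul hr hs) n
    rw [hrs0] at h2
    have h3 : coeff n (C (y * x) * r) ≤ coeff n (C y * (r * (r * s))) := by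
      rw [coeff_C_mul, coeff_C_mul, mul_assoc, mul_comm x]
      exact mul_le_mul_of_nonneg_left h2 hy.le
    have h4 := n2 n
    have h5 := n3 n
    linarith
  · refine sm_const_mul hxy (h1.of_le (nmul (nn_C (mul_pos hy hx).le) hs) (fun n => ?_) hl0)
    rw [e, map_add, map_add]
    have h2 := coeff_mul_ge hs (nmul hr hs) n
    rw [hrs0] at h2
    have h3 : coeff n (C (y * x) * s) ≤ coeff n (C y * (s * (r * s))) := by
      rw [coeff_C_mul, coeff_C_mul, mul_assoc, mul_comm x]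
      exact mul_le_mul_of_nonneg_left h2 hy.le
    have h4 := n1 n
    have h5 := n3 n
    linarith

/-- Nothing is finite beyond a critical point. -/
theorem mob_beyond {x yc tc rc sc y t : ℝ} (hx : 0 < x) (hyc : 0 < yc) (htc : 0 < tc)
    (hrc : 0 < rc) (hsc : 0 < sc) (hc : Mob x yc tc rc sc) (hk : Crit rc sc yc tc)
    (hy : yc < y) (ht : tc < t) {r s : ℝ⟦X⟧} (h : Mob (C x) (C y * X) (C t * X) r s)
    (hr : Nn r) (hs : Nn s) (hw : Sm 1 (w1 r s (C y * X) (C t * X))) : False := by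
  have hy0 : 0 < y := hyc.trans hy
  have ht0 : 0 < t := htc.trans ht
  obtain ⟨l, hl1, hl2⟩ : ∃ l : ℝ, max (yc / y) (tc / t) < l ∧ l < 1 := by
    refine exists_between (max_lt ?_ ?_)
    · rw [div_lt_one hy0]
      exact hy
    · rw [div_lt_one ht0]
      exact ht
  have hl0 : 0 < l := lt_of_lt_of_le (lt_of_lt_of_le (div_pos hyc hy0) (le_max_left _ _)) hl1.le
  have h1 : yc < y * l := by
    have := lt_of_le_of_lt (le_max_left _ _) hl1
    rw [div_lt_iff₀ hy0] at this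
    linarith
  have h2 : tc < t * l := by
    have := lt_of_le_of_lt (le_max_right _ _) hl1
    rw [div_lt_iff₀ ht0] at this
    linarith
  obtain ⟨h3, h4⟩ := sm_of_w1 hx hy0 ht0.le h hr hs hw hl0.le hl2
  exact mob_crit_no hx hyc htc hrc hsc hc hk h1 h2 (hr.ev_nonneg hl0.le) (hs.ev_nonneg hl0.le)
    (mob_ev h h3 h4)

/-! ### The ray -/

namespace MobXAux

theorem mob_of_good {r s y t : ℝ} (h : K5N.Good r s y t) : Mob (K5N.px r s y t) y t r s := by
  refine ⟨?_, ?_⟩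
  · unfold K5N.px
    ring
  · have := h.b_eq
    unfold K5N.pb at this
    linear_combination this

theorem good_of {r s y t : ℝ} (h : K5N.Good r s y t) : Good r s y t :=
  ⟨h.j_nonneg, h.sub⟩

theorem crit_of {r s y t : ℝ} (h : K5N.Crit r s y t) : Crit r s y t := by
  have h1 := h.crit
  have h2 := h.j_nonneg
  have h3 : 0 ≤ 2 * Real.sqrt (r * s) * (y + 3 * t * (r + s)) := by
    have := h.y_nonneg
    have := h.t_nonneg
    have := h.r_pos.le
    have := h.s_pos.le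
    positivity
  have h4 := Real.sq_sqrt (mul_nonneg h.r_pos.le h.s_pos.le)
  have h5 : (K5N.pj r s y t) ^ 2 = (2 * Real.sqrt (r * s) * (y + 3 * t * (r + s))) ^ 2 := by
    rw [← h1]
    calc 4 * r * s * (y + 3 * t * (r + s)) ^ 2 = 4 * (r * s) * (y + 3 * t * (r + s)) ^ 2 := by ring
      _ = 4 * (Real.sqrt (r * s) ^ 2) * (y + 3 * t * (r + s)) ^ 2 := by rw [h4]
      _ = _ := by ring
  exact (pow_left_inj₀ h2 h3 two_ne_zero).1 h5

theorem ev_map {A : Type} [CommRing A] (φ : A →+* ℝ) (r s Y T : A) :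
    φ (w1 r s Y T) = w1 (φ r) (φ s) (φ Y) (φ T) ∧ φ (w2 r s Y T) = w2 (φ r) (φ s) (φ Y) (φ T) := by
  unfold w1 w2
  simp only [map_mul, map_sub, map_add, map_pow, map_ofNat, map_one, and_self]

theorem w_mem {A : Type} [CommRing A] (S : Subring A) {r s Y T : A} (hr : r ∈ S) (hs : s ∈ S)
    (hY : Y ∈ S) (hT : T ∈ S) : w1 r s Y T ∈ S ∧ w2 r s Y T ∈ S := by
  have h1 : (w1 r s Y T) = S.subtype (w1 ⟨r, hr⟩ ⟨s, hs⟩ ⟨Y, hY⟩ ⟨T, hT⟩) := by
    unfold w1
    simp only [map_mul, map_sub, map_add, map_pow, map_ofNat, map_one, Subring.subtype_apply]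
  have h2 : (w2 r s Y T) = S.subtype (w2 ⟨r, hr⟩ ⟨s, hs⟩ ⟨Y, hY⟩ ⟨T, hT⟩) := by
    unfold w2
    simp only [map_mul, map_sub, map_add, map_pow, map_ofNat, map_one, Subring.subtype_apply]
  constructor
  · rw [h1]
    exact (w1 (⟨r, hr⟩ : S) ⟨s, hs⟩ ⟨Y, hY⟩ ⟨T, hT⟩).2
  · rw [h2]
    exact (w2 (⟨r, hr⟩ : S) ⟨s, hs⟩ ⟨Y, hY⟩ ⟨T, hT⟩).2

theorem sm_w {l y t : ℝ} {r s : ℝ⟦X⟧} (hr : Sm l r) (hs : Sm l s) :
    Sm l (w1 r s (C y * X) (C t * X)) ∧ Sm l (w2 r s (C y * X) (C t * X)) :=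
  w_mem (SmR l) hr hs ((sm_C y).mul sm_X) ((sm_C t).mul sm_X)

theorem ev_w {l y t : ℝ} {r s : ℝ⟦X⟧} (hr : Sm l r) (hs : Sm l s) :
    ev l (w1 r s (C y * X) (C t * X)) = w1 (ev l r) (ev l s) (y * l) (t * l) ∧
    ev l (w2 r s (C y * X) (C t * X)) = w2 (ev l r) (ev l s) (y * l) (t * l) := by
  have hY : Sm l (C y * X : ℝ⟦X⟧) := (sm_C y).mul sm_X
  have hT : Sm l (C t * X : ℝ⟦X⟧) := (sm_C t).mul sm_X
  obtain ⟨h1, h2⟩ := ev_map (evH l) ⟨r, hr⟩ ⟨s, hs⟩ ⟨_, hY⟩ ⟨_, hT⟩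
  have e1 : w1 r s (C y * X) (C t * X) =
      (SmR l).subtype (w1 ⟨r, hr⟩ ⟨s, hs⟩ ⟨_, hY⟩ ⟨_, hT⟩) := by
    unfold w1
    simp only [map_mul, map_sub, map_add, map_pow, map_ofNat, map_one, Subring.subtype_apply]
  have e2 : w2 r s (C y * X) (C t * X) =
      (SmR l).subtype (w2 ⟨r, hr⟩ ⟨s, hs⟩ ⟨_, hY⟩ ⟨_, hT⟩) := by
    unfold w2
    simp only [map_mul, map_sub, map_add, map_pow, map_ofNat, map_one, Subring.subtype_apply]
  simp only [evH_apply] at h1 h2
  rw [ev_mul (sm_C y) sm_X, ev_mul (sm_C t) sm_X, ev_C, ev_C, ev_X] at h1 h2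
  exact ⟨by rw [← h1, e1]; rfl, by rw [← h2, e2]; rfl⟩

theorem ev_mono {l l' : ℝ} {f : ℝ⟦X⟧} (hf : Nn f) (h : Sm l f) (h0 : 0 ≤ l') (hl : l' ≤ l) :
    ev l' f ≤ ev l f := by
  unfold ev
  exact (h.mono h0 hl).summable.tsum_le_tsum (fun n => mul_le_mul_of_nonneg_left
    (pow_le_pow_left₀ h0 hl n) (hf n)) h.summable

theorem ev_hasDeriv {f : ℝ⟦X⟧} (hf : Nn f) (h : Sm 1 (derivative ℝ f)) :
    ∃ d, HasDerivWithinAt (fun l => ev l f) d (Set.Iic 1) 1 := by
  refine ⟨_, hasDeriv_series (a := fun n => coeff n f) hf ?_⟩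
  refine (summable_nat_add_iff 1).1 ?_
  have h1 := h.summable
  simp only [one_pow, mul_one] at h1
  refine h1.congr fun n => ?_
  rw [coeff_deriv]
  push_cast
  ring

/-- the first Tutte equation -/
theorem first_eq (r s y t : ℝ) : K5N.pw1 r s y t =
    K5N.px r s y t * K5N.pb r s y t + y * K5N.pw2 r s y t + t * K5N.pw3 r s y t := by
  unfold K5N.pw1 K5N.px K5N.pb K5N.pw2 K5N.pw3
  ring

theorem kap_eq {x k y t a b w1 w2 w3 : ℝ} (hx : x ≠ 0) (hk : k ≠ 0)
    (h : w1 = x + y * w2 + t * w3) (hkx : k = w1 / x) (ha : a = (w2 / k ^ 2 - x) / x ^ 2 - 1)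
    (hb : b = (w3 / k ^ 3 - 3 * x ^ 2 * (1 + a) - x) / x ^ 3) :
    k = 1 + y * k ^ 2 * (1 + x * (1 + a)) + t * k ^ 3 * (1 + 3 * x * (1 + a) + x ^ 2 * b) := by
  have h1 : x ^ 2 * (1 + a) * k ^ 2 = w2 - x * k ^ 2 := by
    rw [ha]
    field_simp
    ring
  have h2 : x ^ 3 * b * k ^ 3 = w3 - 3 * x ^ 2 * (1 + a) * k ^ 3 - x * k ^ 3 := by
    rw [hb]
    field_simp
  have h3 : k * x = w1 := by
    rw [hkx]
    field_simp
  have h4 : k * x = (1 + y * k ^ 2 * (1 + x * (1 + a)) +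
      t * k ^ 3 * (1 + 3 * x * (1 + a) + x ^ 2 * b)) * x := by
    rw [h3, h]
    linear_combination (-y) * h1 + (-t) * h2
  exact mul_right_cancel₀ hx h4

end MobXAux

/-- The field `hAR` of `K5N.Sys` from the explicit solution. -/
theorem ray {Dm N3 : ENNReal → ENNReal → ENNReal → ENNReal}
    (hAS : ∀ r s y t : ℝ, K5N.Good r s y t → 0 < K5N.pkap r s y t ∧ 0 ≤ K5N.pD r s y t ∧
      0 ≤ K5N.pN r s y t ∧
      Dm (.ofReal (K5N.px r s y t)) (.ofReal (K5N.pY r s y t)) (.ofReal (K5N.pT r s y t)) =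
        .ofReal (K5N.pD r s y t) ∧
      N3 (.ofReal (K5N.px r s y t)) (.ofReal (K5N.pY r s y t)) (.ofReal (K5N.pT r s y t)) =
        .ofReal (K5N.pN r s y t)) :
    ∀ r s y t : ℝ, K5N.Crit r s y t → ∃ (z n κ : ℝ → ℝ) (dz dκ : ℝ),
    HasDerivWithinAt z dz (Set.Iic 1) 1 ∧ HasDerivWithinAt κ dκ (Set.Iic 1) 1 ∧
    z 1 = K5N.pD r s y t ∧ κ 1 = K5N.pkap r s y t ∧
    ∀ l : ℝ, 0 < l → l ≤ 1 → 0 < κ l ∧ 0 ≤ z l ∧ 0 ≤ n l ∧
      Dm (.ofReal (K5N.px r s y t)) (.ofReal (l * y * κ l ^ 2 + 2 * (l * t * κ l ^ 3)))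
        (.ofReal (l * t * κ l ^ 3)) = .ofReal (z l) ∧
      N3 (.ofReal (K5N.px r s y t)) (.ofReal (l * y * κ l ^ 2 + 2 * (l * t * κ l ^ 3)))
        (.ofReal (l * t * κ l ^ 3)) = .ofReal (n l) ∧
      κ l = 1 + l * y * κ l ^ 2 * (1 + K5N.px r s y t * (1 + z l)) +
        l * t * κ l ^ 3 * (1 + 3 * K5N.px r s y t * (1 + z l) + K5N.px r s y t ^ 2 * n l) := by
  intro r0 s0 y t hC
  have hG := hC.toGood
  set x := K5N.px r0 s0 y t with hxdef
  have hx : 0 < x := hG.x_pos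
  obtain ⟨r, s, h, hr, hs⟩ := mob_exists hx.le hG.y_nonneg hG.t_nonneg
  obtain ⟨sr, ss, vr, vs⟩ := mob_value hx hG.y_nonneg hG.t_nonneg hG.r_pos hG.s_pos
    (mob_of_good hG) (good_of hG) h hr hs
  have hr0 : coeff 0 r = x := by
    rw [coeff_zero_eq_constantCoeff_apply]
    exact (const_r h).1
  have hs0 : coeff 0 s = 1 := by
    rw [coeff_zero_eq_constantCoeff_apply]
    exact (const_r h).2
  have srl : ∀ l : ℝ, 0 ≤ l → l ≤ 1 → Sm l r := fun l h0 h1 => sr.mono h0 h1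
  have ssl : ∀ l : ℝ, 0 ≤ l → l ≤ 1 → Sm l s := fun l h0 h1 => ss.mono h0 h1
  -- the points on the ray are admissible
  have hgood : ∀ l : ℝ, 0 < l → l ≤ 1 → K5N.Good (ev l r) (ev l s) (l * y) (l * t) ∧
      K5N.px (ev l r) (ev l s) (l * y) (l * t) = x := by
    intro l hl0 hl1
    have hm := mob_ev h (srl l hl0.le hl1) (ssl l hl0.le hl1)
    have hR0 : 0 ≤ ev l r := hr.ev_nonneg hl0.le
    have hS0 : 0 ≤ ev l s := hs.ev_nonneg hl0.le
    have hy := hG.y_nonneg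
    have ht := hG.t_nonneg
    have e1 : K5N.px (ev l r) (ev l s) (l * y) (l * t) = x := by
      unfold K5N.px
      linear_combination hm.er
    have e2 : K5N.pb (ev l r) (ev l s) (l * y) (l * t) = 1 := by
      unfold K5N.pb
      linear_combination hm.es
    have hRp : 0 < ev l r := by
      have h1 := hm.er
      have h2 : 0 ≤ y * l * (ev l r * (ev l r + 2 * ev l s)) := by positivity
      have h3 : 0 ≤ t * l * (ev l r * (ev l r ^ 2 + 6 * ev l r * ev l s + 3 * ev l s ^ 2)) := by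
        positivity
      linarith
    have hSp : 0 < ev l s := by
      have h1 := hm.es
      have h2 : 0 ≤ y * l * (ev l s * (ev l s + 2 * ev l r)) := by positivity
      have h3 : 0 ≤ t * l * (ev l s * (ev l s ^ 2 + 6 * ev l s * ev l r + 3 * ev l r ^ 2)) := by
        positivity
      linarith
    have hR1 : ev l r ≤ r0 := by
      rw [← vr]
      exact ev_mono hr sr hl0.le hl1
    have hS1 : ev l s ≤ s0 := by
      rw [← vs]
      exact ev_mono hs ss hl0.le hl1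
    have hly : l * y ≤ y := mul_le_of_le_one_left hy hl1
    have hlt : l * t ≤ t := mul_le_of_le_one_left ht hl1
    have hly0 : 0 ≤ l * y := mul_nonneg hl0.le hy
    have hlt0 : 0 ≤ l * t := mul_nonneg hl0.le ht
    have hr0' := hG.r_pos.le
    have hs0' := hG.s_pos.le
    have f1 : 2 * (l * y) * (ev l r + ev l s) ≤ 2 * y * (r0 + s0) := by
      have : 2 * (l * y) ≤ 2 * y := by linarith
      exact mul_le_mul this (by linarith) (by linarith) (by linarith)
    have f2 : 3 * (l * t) * (ev l r ^ 2 + 4 * ev l r * ev l s + ev l s ^ 2) ≤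
        3 * t * (r0 ^ 2 + 4 * r0 * s0 + s0 ^ 2) := by
      refine mul_le_mul (by linarith) ?_ (by positivity) (by linarith)
      have g1 : ev l r ^ 2 ≤ r0 ^ 2 := pow_le_pow_left₀ hR0 hR1 2
      have g2 : ev l s ^ 2 ≤ s0 ^ 2 := pow_le_pow_left₀ hS0 hS1 2
      have g3 : ev l r * ev l s ≤ r0 * s0 := mul_le_mul hR1 hS1 hS0 hr0'
      linarith
    have f3 : K5N.pj r0 s0 y t ≤ K5N.pj (ev l r) (ev l s) (l * y) (l * t) := by
      unfold K5N.pj
      linarith
    have f4 : 4 * ev l r * ev l s * (l * y + 3 * (l * t) * (ev l r + ev l s)) ^ 2 ≤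
        4 * r0 * s0 * (y + 3 * t * (r0 + s0)) ^ 2 := by
      have g3 : 4 * ev l r * ev l s ≤ 4 * r0 * s0 := by
        have := mul_le_mul hR1 hS1 hS0 hr0'
        linarith
      have g4 : 3 * (l * t) * (ev l r + ev l s) ≤ 3 * t * (r0 + s0) :=
        mul_le_mul (by linarith) (by linarith) (by linarith) (by linarith)
      have g5 : l * y + 3 * (l * t) * (ev l r + ev l s) ≤ y + 3 * t * (r0 + s0) := by linarith
      exact mul_le_mul g3 (pow_le_pow_left₀ (by positivity) g5 2) (by positivity) (by positivity)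
    refine ⟨⟨hRp, hSp, hly0, hlt0, ?_, e2, ?_, ?_⟩, e1⟩
    · rw [e1]
      exact hx
    · exact le_trans hG.j_nonneg f3
    · exact le_trans f4 (le_trans hG.sub (pow_le_pow_left₀ hG.j_nonneg f3 2))
  -- the values of `W_1`, `W_2`
  have hW1 : ∀ l : ℝ, 0 < l → l ≤ 1 → ev l (w1 r s (C y * X) (C t * X)) =
      K5N.pw1 (ev l r) (ev l s) (l * y) (l * t) := by
    intro l h0 h1
    rw [(ev_w (srl l h0.le h1) (ssl l h0.le h1)).1]
    unfold w1 K5N.pw1
    ring
  have hW2 : ∀ l : ℝ, 0 < l → l ≤ 1 → ev l (w2 r s (C y * X) (C t * X)) =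
      K5N.pw2 (ev l r) (ev l s) (l * y) (l * t) := by
    intro l h0 h1
    rw [(ev_w (srl l h0.le h1) (ssl l h0.le h1)).2]
    unfold w2 K5N.pw2
    ring
  obtain ⟨d1, hd1⟩ := ev_hasDeriv (nn_w1 hx.le hG.y_nonneg hG.t_nonneg h hr hs) (by
    rw [deriv_w1 h]
    exact (sr.mul ss).mul (((sm_C y).mul (sr.add ss)).add ((sm_C t).mul
      (((sr.add ss).pow 2).add (sr.mul ss)))))
  obtain ⟨d2, hd2⟩ := ev_hasDeriv (nn_w2 hx.le hG.y_nonneg hG.t_nonneg h hr hs) (by
    rw [deriv_w2 h]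
    exact (sr.mul ss).mul (((sm_C y).mul ((sm_two.mul ((sr.add ss).pow 2)).add (sr.mul ss))).add
      ((sm_two.mul (sm_C t)).mul ((sr.add ss).mul (((sr.add ss).pow 2).add
        (sm_two.mul (sr.mul ss)))))))
  have hkapl : ∀ l : ℝ, 0 < l → l ≤ 1 → ev l (w1 r s (C y * X) (C t * X)) / x =
      K5N.pkap (ev l r) (ev l s) (l * y) (l * t) := by
    intro l h0 h1
    rw [hW1 l h0 h1]
    unfold K5N.pkap
    rw [(hgood l h0 h1).2]
  have hzl : ∀ l : ℝ, 0 < l → l ≤ 1 →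
      (ev l (w2 r s (C y * X) (C t * X)) / (ev l (w1 r s (C y * X) (C t * X)) / x) ^ 2 - x) / x ^ 2
        - 1 = K5N.pD (ev l r) (ev l s) (l * y) (l * t) := by
    intro l h0 h1
    rw [hW2 l h0 h1, hkapl l h0 h1]
    unfold K5N.pD
    rw [(hgood l h0 h1).2]
  have hk1 : ev 1 (w1 r s (C y * X) (C t * X)) / x ≠ 0 := by
    rw [hkapl 1 one_pos le_rfl]
    exact (hAS _ _ _ _ (hgood 1 one_pos le_rfl).1).1.ne'
  have hdk : HasDerivWithinAt (fun l => ev l (w1 r s (C y * X) (C t * X)) / x) (d1 / x)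
      (Set.Iic 1) 1 := hd1.div_const x
  have hdz := (((hd2.div (hdk.pow 2) (pow_ne_zero 2 hk1)).sub_const x).div_const (x ^ 2)).sub_const 1
  refine ⟨_, fun l => K5N.pN (ev l r) (ev l s) (l * y) (l * t), _, _, _, hdz, hdk, ?_, ?_, ?_⟩
  · have h1 := hzl 1 one_pos le_rfl
    rw [vr, vs, one_mul, one_mul] at h1
    exact h1
  · have h1 := hkapl 1 one_pos le_rfl
    rw [vr, vs, one_mul, one_mul] at h1
    exact h1
  · intro l hl0 hl1
    obtain ⟨hg, hpx⟩ := hgood l hl0 hl1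
    obtain ⟨a1, a2, a3, a4, a5⟩ := hAS _ _ _ _ hg
    have hk := hkapl l hl0 hl1
    have hz := hzl l hl0 hl1
    have hY : K5N.pY (ev l r) (ev l s) (l * y) (l * t) =
        l * y * (ev l (w1 r s (C y * X) (C t * X)) / x) ^ 2 +
          2 * (l * t * (ev l (w1 r s (C y * X) (C t * X)) / x) ^ 3) := by
      rw [hk]
      unfold K5N.pY K5N.pT
      ring
    have hT : K5N.pT (ev l r) (ev l s) (l * y) (l * t) =
        l * t * (ev l (w1 r s (C y * X) (C t * X)) / x) ^ 3 := by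
      rw [hk]
      unfold K5N.pT
      ring
    rw [hpx, hY, hT] at a4 a5
    refine ⟨?_, ?_, a3, ?_, ?_, ?_⟩
    · show 0 < ev l (w1 r s (C y * X) (C t * X)) / x
      rw [hk]
      exact a1
    · show 0 ≤ (ev l (w2 r s (C y * X) (C t * X)) /
        (ev l (w1 r s (C y * X) (C t * X)) / x) ^ 2 - x) / x ^ 2 - 1
      rw [hz]
      exact a2
    · rw [← hz] at a4
      exact a4
    · exact a5
    · refine kap_eq (w1 := K5N.pw1 (ev l r) (ev l s) (l * y) (l * t))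
        (w2 := K5N.pw2 (ev l r) (ev l s) (l * y) (l * t))
        (w3 := K5N.pw3 (ev l r) (ev l s) (l * y) (l * t)) hx.ne' ?_ ?_ ?_ ?_ ?_
      · show ev l (w1 r s (C y * X) (C t * X)) / x ≠ 0
        rw [hk]
        exact a1.ne'
      · have h1 := first_eq (ev l r) (ev l s) (l * y) (l * t)
        rw [hg.b_eq, hpx, mul_one] at h1
        exact h1
      · rw [← hW1 l hl0 hl1]
      · rw [← hW2 l hl0 hl1]
        rfl
      · show K5N.pN (ev l r) (ev l s) (l * y) (l * t) = _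
        unfold K5N.pN
        rw [hpx, ← hk, ← hz]
        rfl

end K5A
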