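import Pool.Agent.Lib.K5A.Alg
import Pool.Agent.Lib.K5A.Fix

/-!
# K5A.Transfer: from the simple disks to the simple maps with an arbitrary outer walk

`ω(u) = u (1 + F(ω)) (x + F(ω))`, `S̃(u) = F(ω(u))` solves the scaled Tutte system.
-/

set_option autoImplicit false

namespace K5A

open PowerSeries

variable {A : Type} [CommRing A]

theorem FF_decomp (S : ℕ → A) : ∃ R : A⟦X⟧, FF S = X + C (S 2) * X ^ 2 + C (S 3) * X ^ 3 + X ^ 4 * R := by
  refine ⟨PowerSeries.mk fun k => S (k + 4), ?_⟩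
  ext k
  rw [FF, coeff_mk, map_add, map_add, map_add, coeff_C_mul, coeff_C_mul, coeff_X, coeff_X_pow,
    coeff_X_pow, coeff_X_pow_mul']
  rcases k with _ | _ | _ | _ | k
  · simp
  · simp
  · simp
  · simp
  · rw [if_neg (by omega), if_neg (by omega), if_neg (by omega), if_neg (by omega),
      if_neg (by omega), if_pos (by omega), coeff_mk]
    simp

theorem coeff_low (M R : A⟦X⟧) (a b : A) :
    coeff 1 (X * M + C a * (X * M) ^ 2 + C b * (X * M) ^ 3 + (X * M) ^ 4 * R) = coeff 0 M ∧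
    coeff 2 (X * M + C a * (X * M) ^ 2 + C b * (X * M) ^ 3 + (X * M) ^ 4 * R)
      = coeff 1 M + a * coeff 0 M ^ 2 ∧
    coeff 3 (X * M + C a * (X * M) ^ 2 + C b * (X * M) ^ 3 + (X * M) ^ 4 * R)
      = coeff 2 M + a * (2 * coeff 0 M * coeff 1 M) + b * coeff 0 M ^ 3 := by
  have h : X * M + C a * (X * M) ^ 2 + C b * (X * M) ^ 3 + (X * M) ^ 4 * R
      = X ^ 1 * M + C a * (X ^ 2 * M ^ 2) + C b * (X ^ 3 * M ^ 3) + X ^ 4 * (M ^ 4 * R) := by ring
  have z2 : coeff 0 (M ^ 2) = coeff 0 M ^ 2 := by simp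
  have z3 : coeff 0 (M ^ 3) = coeff 0 M ^ 3 := by simp
  have o2 : coeff 1 (M ^ 2) = 2 * coeff 0 M * coeff 1 M := by
    rw [pow_two, coeff_mul]
    simp [Finset.Nat.antidiagonal_succ]
    ring
  rw [h]
  refine ⟨?_, ?_, ?_⟩
  · rw [map_add, map_add, map_add, coeff_C_mul, coeff_C_mul, coeff_X_pow_mul', coeff_X_pow_mul',
      coeff_X_pow_mul', coeff_X_pow_mul', if_pos (by omega), if_neg (by omega), if_neg (by omega),
      if_neg (by omega)]
    simp
  · rw [map_add, map_add, map_add, coeff_C_mul, coeff_C_mul, coeff_X_pow_mul', coeff_X_pow_mul',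
      coeff_X_pow_mul', coeff_X_pow_mul', if_pos (by omega), if_pos (by omega), if_neg (by omega),
      if_neg (by omega), show 2 - 1 = 1 from rfl, show 2 - 2 = 0 from rfl, z2]
    ring
  · rw [map_add, map_add, map_add, coeff_C_mul, coeff_C_mul, coeff_X_pow_mul', coeff_X_pow_mul',
      coeff_X_pow_mul', coeff_X_pow_mul', if_pos (by omega), if_pos (by omega), if_pos (by omega),
      if_neg (by omega), show 3 - 1 = 2 from rfl, show 3 - 2 = 1 from rfl, show 3 - 3 = 0 from rfl,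
      z3, o2]
    ring

theorem transfer (P : Subsemiring A) {x Y T : A} {S : ℕ → A} (hx : x ∈ P) (hu : IsUnit x)
    (hS : ∀ k, 2 ≤ k → S k ∈ P) (h : E8T x Y T S) :
    ∃ f : ℕ → A, Tu x (kap x Y T (S 2) (S 3)) Y T f ∧ f 1 = x ∧ f 2 = t2 x (S 2) ∧
      f 3 = t3 x (S 2) (S 3) ∧ ∀ k, f k ∈ P := by
  have hFP : ∀ k, coeff k (FF S) ∈ P := by
    intro k
    rcases k with _ | _ | k
    · rw [FF_coeff_zero]; exact P.zero_mem
    · rw [FF_coeff_one]; exact P.one_mem
    · rw [FF_coeff S (by omega)]; exact hS _ (by omega)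
  have hmulP : ∀ a b : A⟦X⟧, (∀ k, coeff k a ∈ P) → (∀ k, coeff k b ∈ P) → ∀ k, coeff k (a * b) ∈ P := by
    intro a b ha hb k
    rw [coeff_mul]
    exact P.sum_mem fun p _ => P.mul_mem (ha _) (hb _)
  have hCP : ∀ c : A, c ∈ P → ∀ a : A⟦X⟧, (∀ k, coeff k a ∈ P) → ∀ k, coeff k (C c + a) ∈ P := by
    intro c hc a ha k
    rw [map_add, coeff_C]
    refine P.add_mem ?_ (ha k)
    split_ifs
    · exact hc
    · exact P.zero_mem
  have hφP : ∀ k, coeff k ((1 + FF S) * (C x + FF S)) ∈ P := by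
    refine hmulP _ _ ?_ (hCP x hx _ hFP)
    have := hCP 1 P.one_mem _ hFP
    rwa [map_one] at this
  obtain ⟨ω, hω0, hω, hωP⟩ := lagrange P ((1 + FF S) * (C x + FF S)) hφP
  have hs : HasSubst ω := HasSubst.of_constantCoeff_zero' hω0
  obtain ⟨R, hR⟩ := FF_decomp S
  set F : A⟦X⟧ → A⟦X⟧ := fun g => (substAlgHom (R := A) hs) g with hF
  have hFs : ∀ g : A⟦X⟧, F g = g.subst ω := fun g => by rw [hF]; simp only [coe_substAlgHom]
  have hFC : ∀ c : A, F (C c) = C c := by
    intro c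
    rw [hFs]
    exact subst_C c
  have hFX : F X = ω := by rw [hFs]; exact subst_X hs
  have hFadd : ∀ a b, F (a + b) = F a + F b := fun a b => map_add _ a b
  have hFmul : ∀ a b, F (a * b) = F a * F b := fun a b => map_mul _ a b
  have hFpow : ∀ a n, F (a ^ n) = F a ^ n := fun a n => map_pow _ a n
  have hFone : F 1 = 1 := map_one (substAlgHom (R := A) hs)
  have hFsub : ∀ a b, F (a - b) = F a - F b := fun a b => map_sub _ a b
  set σ : A⟦X⟧ := F (FF S) with hσ
  set M : A⟦X⟧ := (1 + σ) * (C x + σ) with hM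
  have hωM : ω = X * M := by
    have h1 : F ((1 + FF S) * (C x + FF S)) = M := by
      rw [hFmul, hFadd, hFadd, hFone, hFC]
    rw [← h1, hFs]
    exact hω
  have hσexp : σ = X * M + C (S 2) * (X * M) ^ 2 + C (S 3) * (X * M) ^ 3 + (X * M) ^ 4 * F R := by
    rw [hσ]
    conv_lhs => rw [hR]
    rw [hFadd, hFadd, hFadd, hFmul, hFmul, hFmul, hFpow, hFpow, hFpow, hFC, hFC, hFX, hωM]
  obtain ⟨c1, c2, c3⟩ := coeff_low M (F R) (S 2) (S 3)
  rw [← hσexp] at c1 c2 c3
  have c0 : coeff 0 σ = 0 := by rw [hσexp]; simp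
  have hMexp : M = C x + (C (1 + x) * σ + σ ^ 2) := by rw [hM, map_add, map_one]; ring
  have m0 : coeff 0 M = x := by
    rw [hMexp, map_add, map_add, coeff_C_mul, c0, pow_two, coeff_mul]
    simp [c0]
  have m1 : coeff 1 M = (1 + x) * coeff 1 σ := by
    rw [hMexp, map_add, map_add, coeff_C_mul, pow_two, coeff_mul, coeff_C, if_neg one_ne_zero]
    simp [Finset.Nat.antidiagonal_succ, c0]
  have m2 : coeff 2 M = (1 + x) * coeff 2 σ + coeff 1 σ ^ 2 := by
    rw [hMexp, map_add, map_add, coeff_C_mul, pow_two, coeff_mul, coeff_C, if_neg two_ne_zero]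
    simp [Finset.Nat.antidiagonal_succ, c0]
    ring
  rw [m0] at c1
  rw [m1, m0, c1] at c2
  rw [m2, m1, m0, c1, c2] at c3
  have f2 : coeff 2 σ = t2 x (S 2) := by rw [c2]; unfold t2; ring
  have f3 : coeff 3 σ = t3 x (S 2) (S 3) := by rw [c3]; unfold t3; ring
  have hMu : IsUnit M := by
    rw [PowerSeries.isUnit_iff_constantCoeff, ← coeff_zero_eq_constantCoeff_apply, m0]
    exact hu
  have h2 := congrArg F h
  simp only [hFadd, hFsub, hFmul, hFpow, hFC, hFX, hFone] at h2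
  rw [← hσ] at h2
  have h3 : M ^ 2 * (X ^ 2 * (C (kap x Y T (S 2) (S 3)) * σ)) =
      M ^ 2 * (X ^ 3 * ((C x + σ) * (1 + σ)) + C Y * (X * (σ - C x * X))
        + C T * (σ - C x * X - C (t2 x (S 2)) * X ^ 2)) := by
    rw [← hM, hωM] at h2
    have h4 : (C x + σ) * (1 + σ) = M := by rw [hM]; ring
    rw [h4]
    linear_combination h2
  have h4 := (hMu.pow 2).mul_left_cancel h3
  refine ⟨fun k => coeff k σ, ?_, c1, f2, f3, fun k => ?_⟩
  · refine tu_of_gen x _ Y T σ c0 ?_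
    rw [c1, f2]
    exact h4
  · show coeff k σ ∈ P
    rw [hσ, hFs, coeff_subst' hs]
    refine finsum_induction (· ∈ P) P.zero_mem (fun a b => P.add_mem) ?_
    intro d
    rw [smul_eq_mul]
    refine P.mul_mem (hFP d) ?_
    have hpow : ∀ d k, coeff k (ω ^ d) ∈ P := by
      intro d
      induction d with
      | zero =>
        intro k
        rw [pow_zero, coeff_one]
        split_ifs
        · exact P.one_mem
        · exact P.zero_mem
      | succ d ih => intro k; rw [pow_succ]; exact hmulP _ _ ih hωP k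
    exact hpow d k

end K5A
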