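import Pool.Agent.Lib.K5A.Fix

/-!
# K5A.Uniq: uniqueness of the formal solution of the scaled Tutte system
-/

set_option autoImplicit false

namespace K5A

open PowerSeries

/-- Equality of the coefficients of order `< n`. -/
def Cg {A : Type} [CommRing A] (n : ℕ) (a b : A⟦X⟧) : Prop := ∀ m < n, coeff m a = coeff m b

section

variable {A : Type} [CommRing A] {n : ℕ} {a b c d : A⟦X⟧}

theorem Cg.refl (n : ℕ) (a : A⟦X⟧) : Cg n a a := fun _ _ => rfl

theorem Cg.mono {n' : ℕ} (h : Cg n a b) (hn : n' ≤ n) : Cg n' a b := fun m hm => h m (by omega)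

theorem Cg.add (h : Cg n a b) (h' : Cg n c d) : Cg n (a + c) (b + d) := fun m hm => by
  rw [map_add, map_add, h m hm, h' m hm]

theorem Cg.sub (h : Cg n a b) (h' : Cg n c d) : Cg n (a - c) (b - d) := fun m hm => by
  rw [map_sub, map_sub, h m hm, h' m hm]

theorem Cg.mul (h : Cg n a b) (h' : Cg n c d) : Cg n (a * c) (b * d) := coeff_mul_congr h h'

/-- The first factor has no constant term: one order is gained in the second. -/
theorem Cg.mulS (h : Cg (n + 1) a b) (ha : constantCoeff a = 0) (hb : constantCoeff b = 0)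
    (h' : Cg n c d) : Cg (n + 1) (a * c) (b * d) := by
  intro m hm
  rw [coeff_mul, coeff_mul]
  refine Finset.sum_congr rfl fun p hp => ?_
  have h3 : p.1 + p.2 = m := by simpa using Finset.HasAntidiagonal.mem_antidiagonal.1 hp
  rcases Nat.eq_zero_or_pos p.1 with h4 | h4
  · rw [h4, coeff_zero_eq_constantCoeff_apply, coeff_zero_eq_constantCoeff_apply, ha, hb, zero_mul,
      zero_mul]
  · rw [h p.1 (by omega), h' p.2 (by omega)]

theorem Cg.sum {ι : Type} {s : Finset ι} {f g : ι → A⟦X⟧} (h : ∀ i ∈ s, Cg n (f i) (g i)) :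
    Cg n (∑ i ∈ s, f i) (∑ i ∈ s, g i) := fun m hm => by
  rw [map_sum, map_sum]
  exact Finset.sum_congr rfl fun i hi => h i hi m hm

theorem Cg.eq (h : ∀ n, Cg n a b) : a = b := by
  ext m
  exact h (m + 1) m (Nat.lt_succ_self m)

theorem Cg.br (x : A⟦X⟧) {f g : ℕ → A⟦X⟧} {k : ℕ} (h : ∀ j < k, Cg n (f j) (g j)) (hk : 1 ≤ k) :
    Cg n (br x f k) (br x g k) := by
  refine Cg.sum fun p hp => ?_
  have h3 : p.1 + p.2 = k - 1 := by simpa using Finset.HasAntidiagonal.mem_antidiagonal.1 hp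
  exact ((Cg.refl n _).add (h _ (by omega))).mul ((Cg.refl n _).add (h _ (by omega)))

end

theorem br_one {A : Type} [CommRing A] (x : A) {f : ℕ → A} (h : f 0 = 0) : br x f 1 = x := by
  simp [br, h]

/-- Uniqueness of the solution of the scaled Tutte system with `f_1 = x`. -/
theorem tu_unique {x : ℝ} (hx : x ≠ 0) {Y T κ κ' : ℝ⟦X⟧} (hY : constantCoeff Y = 0)
    (hT : constantCoeff T = 0) {f g : ℕ → ℝ⟦X⟧} (hf : Tu (C x) κ Y T f) (hg : Tu (C x) κ' Y T g)
    (hf1 : f 1 = C x) (hg1 : g 1 = C x) : κ = κ' ∧ ∀ k, f k = g k := by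
  have hk1 : ∀ {κ : ℝ⟦X⟧} {f : ℕ → ℝ⟦X⟧}, Tu (C x) κ Y T f → f 1 = C x →
      κ = 1 + C x⁻¹ * (Y * f 2 + T * f 3) := by
    intro κ f h h1
    have h2 := h.eq 1 le_rfl
    rw [h1, br_one _ h.zero] at h2
    have h3 : C x⁻¹ * C x = (1 : ℝ⟦X⟧) := by rw [← map_mul, inv_mul_cancel₀ hx, map_one]
    calc κ = κ * C x * C x⁻¹ := by rw [mul_assoc, mul_comm (C x) (C x⁻¹), h3, mul_one]
      _ = C x⁻¹ * C x + C x⁻¹ * (Y * f 2 + T * f 3) := by rw [h2]; ring
      _ = _ := by rw [h3]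
  have hz : ∀ {κ : ℝ⟦X⟧} {f : ℕ → ℝ⟦X⟧}, Tu (C x) κ Y T f → f 1 = C x →
      constantCoeff (κ - 1) = 0 := by
    intro κ f h h1
    rw [hk1 h h1]
    simp [hY, hT]
  have key : ∀ n, (∀ k, Cg n (f k) (g k)) ∧ Cg (n + 1) κ κ' := by
    intro n
    have hstep : ∀ n, (∀ k, Cg n (f k) (g k)) → Cg (n + 1) κ κ' := by
      intro n h
      rw [hk1 hf hf1, hk1 hg hg1]
      exact (Cg.refl _ _).add ((Cg.refl _ _).mul (((Cg.refl _ _).mulS hY hY (h 2)).add
        ((Cg.refl _ _).mulS hT hT (h 3))))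
    induction n with
    | zero =>
      have h0 : ∀ k, Cg 0 (f k) (g k) := fun k m hm => by omega
      exact ⟨h0, hstep 0 h0⟩
    | succ n ih =>
      obtain ⟨ih1, ih2⟩ := ih
      have h1 : ∀ k, Cg (n + 1) (f k) (g k) := by
        intro k
        induction k using Nat.strong_induction_on with
        | _ k ihk =>
          rcases Nat.eq_zero_or_pos k with hk | hk
          · rw [hk, hf.zero, hg.zero]; exact Cg.refl _ _
          · have e : ∀ {κ : ℝ⟦X⟧} {f : ℕ → ℝ⟦X⟧}, Tu (C x) κ Y T f →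
                f k = br (C x) f k + Y * f (k + 1) + T * f (k + 2) - (κ - 1) * f k := by
              intro κ f h
              rw [← h.eq k hk]; ring
            rw [e hf, e hg]
            exact (((Cg.br (C x) ihk hk).add ((Cg.refl _ _).mulS hY hY (ih1 _))).add
              ((Cg.refl _ _).mulS hT hT (ih1 _))).sub
              ((ih2.sub (Cg.refl _ _)).mulS (hz hf hf1) (hz hg hg1) (ih1 k))
      exact ⟨h1, hstep (n + 1) h1⟩
  exact ⟨Cg.eq fun n => (key n).2.mono (by omega), fun k => Cg.eq fun n => (key n).1 k⟩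

end K5A
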