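import Pool.Agent.Lib.K5A.Val
import Pool.Agent.Lib.K5A.Uniq
import Pool.Agent.Lib.K5A.Transfer
import Pool.Agent.Lib.K5A.MobX

/-!
# K5A.Formal: the explicit solution as an identity of formal power series
-/

set_option autoImplicit false

namespace K5A

open PowerSeries
open scoped ENNReal

theorem br_scale {A : Type} [CommRing A] (x c : A) (f : ℕ → A) (k : ℕ) :
    br x (fun k => c ^ k * f k) (k + 1) = c ^ k * br x f (k + 1) := by
  unfold br
  rw [Finset.mul_sum]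
  refine Finset.sum_congr rfl fun p hp => ?_
  have h3 : p.1 + p.2 = k := by simpa using Finset.HasAntidiagonal.mem_antidiagonal.1 hp
  rw [← h3, pow_add]
  rcases Nat.eq_zero_or_pos p.1 with h4 | h4
  · rcases Nat.eq_zero_or_pos p.2 with h5 | h5
    · rw [h4, h5]; simp
    · rw [if_neg (show p.2 ≠ 0 by omega), h4]; simp; ring
  · rcases Nat.eq_zero_or_pos p.2 with h5 | h5
    · rw [if_neg (show p.1 ≠ 0 by omega), h5]; simp; ring
    · rw [if_neg (show p.1 ≠ 0 by omega), if_neg (show p.2 ≠ 0 by omega)]; ring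

/-- From the plain system to the scaled one. -/
theorem tu_unscale {A : Type} [CommRing A] {x κ κi y t : A} (hk : κ * κi = 1) {W : ℕ → A}
    (h : Tu x 1 y t W) : Tu x κ (y * κ ^ 2) (t * κ ^ 3) (fun k => κi ^ k * W k) := by
  refine ⟨by rw [h.zero, mul_zero], fun k hk1 => ?_⟩
  obtain ⟨k, rfl⟩ := Nat.exists_eq_succ_of_ne_zero (Nat.one_le_iff_ne_zero.1 hk1)
  have h1 := h.eq (k + 1) (by omega)
  simp only [Nat.succ_eq_add_one] at *
  rw [br_scale]
  have e2 : κ ^ 2 * κi ^ 2 = 1 := by rw [← mul_pow, hk, one_pow]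
  have e3 : κ ^ 3 * κi ^ 3 = 1 := by rw [← mul_pow, hk, one_pow]
  calc κ * (κi ^ (k + 1) * W (k + 1)) = (κ * κi) * (κi ^ k * (1 * W (k + 1))) := by ring
    _ = κi ^ k * (br x W (k + 1) + y * W (k + 1 + 1) + t * W (k + 1 + 2)) := by rw [hk, h1, one_mul]
    _ = κi ^ k * br x W (k + 1) + (κ ^ 2 * κi ^ 2) * (y * κi ^ k * W (k + 1 + 1))
        + (κ ^ 3 * κi ^ 3) * (t * κi ^ k * W (k + 1 + 2)) * (1 : A) := by rw [e2, e3]; ring
    _ = κi ^ k * br x W (k + 1) + y * κ ^ 2 * (κi ^ (k + 1 + 1) * W (k + 1 + 1))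
        + t * κ ^ 3 * (κi ^ (k + 1 + 2) * W (k + 1 + 2)) := by
      rw [mul_one]
      have : κ ^ 2 * κi ^ 2 * (y * κi ^ k * W (k + 1 + 1))
        = y * κ ^ 2 * (κi ^ (k + 1 + 1) * W (k + 1 + 1)) := by ring
      rw [this]
      have : κ ^ 3 * κi ^ 3 * (t * κi ^ k * W (k + 1 + 2))
        = t * κ ^ 3 * (κi ^ (k + 1 + 2) * W (k + 1 + 2)) := by ring
      rw [this]

/-- `κ = W_1 / x` as a formal power series. -/
noncomputable def kf (x y t : ℝ) (r s : ℝ⟦X⟧) : ℝ⟦X⟧ := C x⁻¹ * w1 r s (C y * X) (C t * X)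

/-- The weight `Y'` as a power series. -/
noncomputable def Yf (x y t : ℝ) (r s : ℝ⟦X⟧) : ℝ⟦X⟧ := C y * X * kf x y t r s ^ 2

/-- The weight `T` as a power series. -/
noncomputable def Tf (x y t : ℝ) (r s : ℝ⟦X⟧) : ℝ⟦X⟧ := C t * X * kf x y t r s ^ 3

section

variable {x y t : ℝ} {r s : ℝ⟦X⟧}

theorem kf_mul (hx : 0 < x) : kf x y t r s * C x = w1 r s (C y * X) (C t * X) := by
  have : C x⁻¹ * C x = (1 : ℝ⟦X⟧) := by rw [← map_mul, inv_mul_cancel₀ hx.ne', map_one]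
  rw [kf, mul_comm, ← mul_assoc, mul_comm (C x), this, one_mul]

theorem nn_kf (hx : 0 < x) (hy : 0 ≤ y) (ht : 0 ≤ t) (h : Mob (C x) (C y * X) (C t * X) r s)
    (hr : Nn r) (hs : Nn s) : Nn (kf x y t r s) :=
  nn_mul (nn_C (inv_nonneg.2 hx.le)) (nn_w1 hx.le hy ht h hr hs)

theorem const_kf (hx : 0 < x) (h : Mob (C x) (C y * X) (C t * X) r s) :
    constantCoeff (kf x y t r s) = 1 := by
  obtain ⟨h1, h2⟩ := MobXAux.const_r h
  have : constantCoeff (w1 r s (C y * X) (C t * X)) = x := by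
    unfold w1
    simp [h1, h2]
  rw [kf, map_mul, this]
  simp [hx.ne']

theorem const_Yf : constantCoeff (Yf x y t r s) = 0 := by simp [Yf]

theorem const_Tf : constantCoeff (Tf x y t r s) = 0 := by simp [Tf]

theorem nn_Yf (hx : 0 < x) (hy : 0 ≤ y) (ht : 0 ≤ t) (h : Mob (C x) (C y * X) (C t * X) r s)
    (hr : Nn r) (hs : Nn s) : Nn (Yf x y t r s) :=
  nn_mul (nn_mul (nn_C hy) nn_X) (nn_pow (nn_kf hx hy ht h hr hs) 2)

theorem nn_Tf (hx : 0 < x) (hy : 0 ≤ y) (ht : 0 ≤ t) (h : Mob (C x) (C y * X) (C t * X) r s)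
    (hr : Nn r) (hs : Nn s) : Nn (Tf x y t r s) :=
  nn_mul (nn_mul (nn_C ht) nn_X) (nn_pow (nn_kf hx hy ht h hr hs) 3)

/-- The explicit solution of the Tutte system from the mobiles. -/
theorem Mob.tu (h : Mob (C x) (C y * X) (C t * X) r s) :
    Tu (C x) 1 (C y * X) (C t * X) (wk r s (C y * X) (C t * X)) := by
  have h1 := tu_wk r s (C y * X) (C t * X) h.mx_eq_one
  rwa [h.mx_eq] at h1

/-- The values `S_2`, `S_3` at `(x, Y' + 2 T, T)`, `Y' = y κ^2`, `T = t κ^3`. -/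
theorem formal (hx : 0 < x) (hy : 0 ≤ y) (ht : 0 ≤ t) (h : Mob (C x) (C y * X) (C t * X) r s)
    (hr : Nn r) (hs : Nn s) {sE : ℕ → ℕ → ℕ → ℝ≥0∞} {g gn : Bool → ℕ → ℕ → ℕ → ℕ → ℝ≥0∞}
    (hE : RecIn (.ofReal x) sE g gn) :
    w2 r s (C y * X) (C t * X) = kf x y t r s ^ 2 *
      t2 (C x) (EE (Yf x y t r s + 2 * Tf x y t r s) (Tf x y t r s) (sE 2)) ∧
    w3 r s (C y * X) (C t * X) = kf x y t r s ^ 3 *
      t3 (C x) (EE (Yf x y t r s + 2 * Tf x y t r s) (Tf x y t r s) (sE 2))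
        (EE (Yf x y t r s + 2 * Tf x y t r s) (Tf x y t r s) (sE 3)) := by
  set κ := kf x y t r s with hκ
  set Y' := Yf x y t r s with hY'
  set T := Tf x y t r s with hT
  have hxu : IsUnit (C x : ℝ⟦X⟧) := (isUnit_iff_ne_zero.2 hx.ne').map C
  have hκu : IsUnit κ := by
    rw [PowerSeries.isUnit_iff_constantCoeff, const_kf hx h]
    exact isUnit_one
  obtain ⟨κi, hκi⟩ := hκu.exists_right_inv
  have c0 : constantCoeff (Y' + 2 * T) = 0 := by
    rw [map_add, map_mul, const_Yf, const_Tf, mul_zero, add_zero]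
  have cT : constantCoeff T = 0 := const_Tf
  have cY : constantCoeff Y' = 0 := const_Yf
  -- the first solution
  have t1 : Tu (C x) κ Y' T (fun k => κi ^ k * wk r s (C y * X) (C t * X) k) :=
    tu_unscale hκi h.tu
  have hxr : (ENNReal.ofReal x).toReal = x := ENNReal.toReal_ofReal hx.le
  have e8 := hE.e8 ENNReal.ofReal_ne_top c0 cT
  rw [hxr, show Y' + 2 * T - 2 * T = Y' by ring] at e8
  obtain ⟨f, tf, f1, f2, f3, -⟩ := transfer NnS (x := C x) (Y := Y') (T := T)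
    (S := fun κ => EE (Y' + 2 * T) T (sE κ)) (mem_NnS.2 (nn_C hx.le)) hxu
    (fun k _ => mem_NnS.2 (nn_EE (nn_add (nn_Yf hx hy ht h hr hs)
      (nn_mul MobAux.nn_two (nn_Tf hx hy ht h hr hs))) (nn_Tf hx hy ht h hr hs) _)) (E8T_of_E8 e8)
  have g1 : κi ^ 1 * wk r s (C y * X) (C t * X) 1 = C x := by
    rw [wk_one, pow_one, ← kf_mul hx, ← hκ]
    calc κi * (κ * C x) = (κ * κi) * C x := by ring
      _ = C x := by rw [hκi, one_mul]
  obtain ⟨-, hf⟩ := tu_unique hx.ne' cY cT tf t1 f1 g1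
  have e2 : κ ^ 2 * κi ^ 2 = 1 := by rw [← mul_pow, hκi, one_pow]
  have e3 : κ ^ 3 * κi ^ 3 = 1 := by rw [← mul_pow, hκi, one_pow]
  constructor
  · have h2 := hf 2
    rw [f2, wk_two] at h2
    rw [h2]
    calc w2 r s (C y * X) (C t * X) = (κ ^ 2 * κi ^ 2) * w2 r s (C y * X) (C t * X) := by
          rw [e2, one_mul]
      _ = _ := by ring
  · have h3 := hf 3
    rw [f3, wk_three] at h3
    rw [h3]
    calc w3 r s (C y * X) (C t * X) = (κ ^ 3 * κi ^ 3) * w3 r s (C y * X) (C t * X) := by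
          rw [e3, one_mul]
      _ = _ := by ring

end

end K5A
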