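import Pool.Agent.Lib.K5A.MobDefs
import Pool.Agent.Lib.K5A.Fix

/-!
# K5A.Mob: the mobile system (formal solution, bounds, value at a critical point)
-/

set_option autoImplicit false

namespace K5A

open PowerSeries

namespace MobAux

/-- the two right hand sides -/
noncomputable def Ph (x y t : ℝ) (f : Bool → ℝ⟦X⟧) : Bool → ℝ⟦X⟧
  | false => C x + C y * X * (f false * (f false + 2 * f true))
      + C t * X * (f false * (f false ^ 2 + 6 * f false * f true + 3 * f true ^ 2))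
  | true => 1 + C y * X * (f true * (f true + 2 * f false))
      + C t * X * (f true * (f true ^ 2 + 6 * f true * f false + 3 * f false ^ 2))

theorem step_congr (c a b : ℝ) {n : ℕ} {F G F' G' : ℝ⟦X⟧} (h : ∀ m < n, coeff m F = coeff m F')
    (h' : ∀ m < n, coeff m G = coeff m G') :
    ∀ m < n + 1, coeff m (C c + C a * X * F + C b * X * G) =
      coeff m (C c + C a * X * F' + C b * X * G') := by
  intro m hm
  have e : ∀ F G : ℝ⟦X⟧, C c + C a * X * F + C b * X * G = C c + X * (C a * F) + X * (C b * G) :=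
    fun F G => by ring
  rw [e, e, map_add, map_add, map_add, map_add]
  rcases m with _ | m
  · simp
  · rw [coeff_succ_X_mul, coeff_succ_X_mul, coeff_succ_X_mul, coeff_succ_X_mul, coeff_C_mul,
      coeff_C_mul, coeff_C_mul, coeff_C_mul, h m (by omega), h' m (by omega)]

theorem add_congr {n : ℕ} {a b c d : ℝ⟦X⟧} (h1 : ∀ m < n, coeff m a = coeff m b)
    (h2 : ∀ m < n, coeff m c = coeff m d) : ∀ m < n, coeff m (a + c) = coeff m (b + d) := by
  intro m hm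
  rw [map_add, map_add, h1 m hm, h2 m hm]

theorem rhs_congr {n : ℕ} {r s r' s' : ℝ⟦X⟧} (h1 : ∀ m < n, coeff m r = coeff m r')
    (h2 : ∀ m < n, coeff m s = coeff m s') :
    (∀ m < n, coeff m (r * (r + 2 * s)) = coeff m (r' * (r' + 2 * s'))) ∧
    (∀ m < n, coeff m (r * (r ^ 2 + 6 * r * s + 3 * s ^ 2)) =
      coeff m (r' * (r' ^ 2 + 6 * r' * s' + 3 * s' ^ 2))) := by
  constructor
  · exact coeff_mul_congr h1 (add_congr h1 (coeff_mul_congr (fun _ _ => rfl) h2))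
  · exact coeff_mul_congr h1 (add_congr (add_congr (coeff_pow_congr h1 2)
      (coeff_mul_congr (coeff_mul_congr (fun _ _ => rfl) h1) h2))
      (coeff_mul_congr (fun _ _ => rfl) (coeff_pow_congr h2 2)))

theorem contr_Ph (x y t : ℝ) : Contr (Ph x y t) := by
  intro n f g h i
  rcases i with _ | _
  · obtain ⟨h1, h2⟩ := rhs_congr (h false) (h true)
    exact step_congr x y t h1 h2
  · obtain ⟨h1, h2⟩ := rhs_congr (h true) (h false)
    have h3 := step_congr 1 y t h1 h2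
    rw [map_one] at h3
    exact h3

theorem mob_iff {x y t : ℝ} {r s : ℝ⟦X⟧} : Mob (C x) (C y * X) (C t * X) r s ↔
    Ph x y t (fun i => if i = true then s else r) = fun i => if i = true then s else r := by
  constructor
  · intro h
    funext i
    rcases i with _ | _
    · simpa [Ph] using h.er.symm
    · simpa [Ph] using h.es.symm
  · intro h
    have h1 := congrFun h false
    have h2 := congrFun h true
    simp only [Ph, if_true, Bool.false_eq_true, if_false] at h1 h2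
    exact ⟨h1.symm, h2.symm⟩

theorem nn_two : Nn (2 : ℝ⟦X⟧) := by
  have := nn_C (a := 2) (by norm_num)
  rwa [map_ofNat] at this

theorem nn_three : Nn (3 : ℝ⟦X⟧) := by
  have := nn_C (a := 3) (by norm_num)
  rwa [map_ofNat] at this

theorem nn_six : Nn (6 : ℝ⟦X⟧) := by
  have := nn_C (a := 6) (by norm_num)
  rwa [map_ofNat] at this

theorem nmul {f g : ℝ⟦X⟧} (hf : Nn f) (hg : Nn g) : Nn (f * g) := NnS.mul_mem hf hg
theorem nadd {f g : ℝ⟦X⟧} (hf : Nn f) (hg : Nn g) : Nn (f + g) := NnS.add_mem hf hg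
theorem npow {f : ℝ⟦X⟧} (hf : Nn f) (n : ℕ) : Nn (f ^ n) := NnS.pow_mem hf n

theorem nn_q {r s : ℝ⟦X⟧} (hr : Nn r) (hs : Nn s) : Nn (r * (r + 2 * s)) :=
  nmul hr (nadd hr (nmul nn_two hs))

theorem nn_c {r s : ℝ⟦X⟧} (hr : Nn r) (hs : Nn s) :
    Nn (r * (r ^ 2 + 6 * r * s + 3 * s ^ 2)) :=
  nmul hr (nadd (nadd (npow hr 2) (nmul (nmul nn_six hr) hs)) (nmul nn_three (npow hs 2)))

/-! ### partial sums -/

/-- partial sums of the series at `l` -/
noncomputable def ps (l : ℝ) (N : ℕ) (f : ℝ⟦X⟧) : ℝ :=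
  ∑ n ∈ Finset.range N, coeff n f * l ^ n

theorem ps_nonneg {l : ℝ} (hl : 0 ≤ l) {f : ℝ⟦X⟧} (hf : Nn f) (N : ℕ) : 0 ≤ ps l N f :=
  Finset.sum_nonneg fun n _ => mul_nonneg (hf n) (pow_nonneg hl n)

theorem ps_add (l : ℝ) (N : ℕ) (f g : ℝ⟦X⟧) : ps l N (f + g) = ps l N f + ps l N g := by
  unfold ps
  rw [← Finset.sum_add_distrib]
  exact Finset.sum_congr rfl fun n _ => by rw [map_add, add_mul]

theorem ps_C_mul (l : ℝ) (N : ℕ) (a : ℝ) (f : ℝ⟦X⟧) : ps l N (C a * f) = a * ps l N f := by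
  unfold ps
  rw [Finset.mul_sum]
  exact Finset.sum_congr rfl fun n _ => by rw [coeff_C_mul, mul_assoc]

theorem ps_X_mul (l : ℝ) (N : ℕ) (f : ℝ⟦X⟧) : ps l (N + 1) (X * f) = l * ps l N f := by
  unfold ps
  rw [Finset.sum_range_succ', Finset.mul_sum]
  have h0 : coeff 0 (X * f) * l ^ 0 = 0 := by simp
  rw [h0, add_zero]
  exact Finset.sum_congr rfl fun n _ => by rw [coeff_succ_X_mul, pow_succ]; ring

theorem ps_C (l : ℝ) (N : ℕ) (a : ℝ) : ps l (N + 1) (C a) = a := by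
  unfold ps
  rw [Finset.sum_range_succ']
  have h0 : ∑ k ∈ Finset.range N, coeff (k + 1) (C a : ℝ⟦X⟧) * l ^ (k + 1) = 0 :=
    Finset.sum_eq_zero fun n _ => by rw [coeff_C, if_neg (by omega), zero_mul]
  rw [h0, zero_add]
  simp

theorem ps_mul {l : ℝ} (hl : 0 ≤ l) {f g : ℝ⟦X⟧} (hf : Nn f) (hg : Nn g) (N : ℕ) :
    ps l N (f * g) ≤ ps l N f * ps l N g := by
  unfold ps
  simp only [coeff_mul_pow]
  rw [Finset.sum_mul_sum, ← Finset.sum_product', ← Finset.sum_biUnion]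
  · refine Finset.sum_le_sum_of_subset_of_nonneg ?_ ?_
    · intro p hp
      rw [Finset.mem_biUnion] at hp
      obtain ⟨n, hn, hp⟩ := hp
      have h : p.1 + p.2 = n := by simpa using Finset.HasAntidiagonal.mem_antidiagonal.1 hp
      rw [Finset.mem_range] at hn
      rw [Finset.mem_product, Finset.mem_range, Finset.mem_range]
      constructor <;> omega
    · intro p _ _
      exact mul_nonneg (mul_nonneg (hf _) (pow_nonneg hl _)) (mul_nonneg (hg _) (pow_nonneg hl _))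
  · intro n _ m _ hnm
    rw [Function.onFun, Finset.disjoint_left]
    intro p hp hp'
    have h : p.1 + p.2 = n := by simpa using Finset.HasAntidiagonal.mem_antidiagonal.1 hp
    have h' : p.1 + p.2 = m := by simpa using Finset.HasAntidiagonal.mem_antidiagonal.1 hp'
    exact hnm (by rw [← h, ← h'])

theorem ps_mul_le {l : ℝ} (hl : 0 ≤ l) {f g : ℝ⟦X⟧} (hf : Nn f) (hg : Nn g) {N : ℕ} {a b : ℝ}
    (ha : ps l N f ≤ a) (hb : ps l N g ≤ b) : ps l N (f * g) ≤ a * b :=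
  le_trans (ps_mul hl hf hg N) (mul_le_mul ha hb (ps_nonneg hl hg N)
    (le_trans (ps_nonneg hl hf N) ha))

theorem ps_q {l : ℝ} (hl : 0 ≤ l) {r s : ℝ⟦X⟧} (hr : Nn r) (hs : Nn s) {N : ℕ} {a b : ℝ}
    (ha : ps l N r ≤ a) (hb : ps l N s ≤ b) : ps l N (r * (r + 2 * s)) ≤ a * (a + 2 * b) := by
  refine ps_mul_le hl hr (nadd hr (nmul nn_two hs)) ha ?_
  have e : (2 : ℝ⟦X⟧) = C 2 := by rw [map_ofNat]
  rw [ps_add, e, ps_C_mul]
  linarith

theorem ps_c {l : ℝ} (hl : 0 ≤ l) {r s : ℝ⟦X⟧} (hr : Nn r) (hs : Nn s) {N : ℕ} {a b : ℝ}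
    (ha : ps l N r ≤ a) (hb : ps l N s ≤ b) :
    ps l N (r * (r ^ 2 + 6 * r * s + 3 * s ^ 2)) ≤ a * (a ^ 2 + 6 * a * b + 3 * b ^ 2) := by
  refine ps_mul_le hl hr (nadd (nadd (npow hr 2) (nmul (nmul nn_six hr) hs))
    (nmul nn_three (npow hs 2))) ha ?_
  have e6 : (6 : ℝ⟦X⟧) = C 6 := by rw [map_ofNat]
  have e3 : (3 : ℝ⟦X⟧) = C 3 := by rw [map_ofNat]
  have h1 : ps l N (r ^ 2) ≤ a ^ 2 := by
    rw [pow_two, pow_two]
    exact ps_mul_le hl hr hr ha ha
  have h2 : ps l N (s ^ 2) ≤ b ^ 2 := by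
    rw [pow_two, pow_two]
    exact ps_mul_le hl hs hs hb hb
  have h3 : ps l N (r * s) ≤ a * b := ps_mul_le hl hr hs ha hb
  rw [ps_add, ps_add, mul_assoc, e6, e3, ps_C_mul, ps_C_mul]
  nlinarith [h1, h2, h3]

theorem ps_step {l : ℝ} {c y t : ℝ} (hy : 0 ≤ y) (ht : 0 ≤ t) (hl : 0 ≤ l)
    {F G : ℝ⟦X⟧} {N : ℕ} {a b : ℝ} (hF : ps l N F ≤ a) (hG : ps l N G ≤ b) :
    ps l (N + 1) (C c + C y * X * F + C t * X * G) ≤ c + l * y * a + l * t * b := by
  have e : C c + C y * X * F + C t * X * G = C c + X * (C y * F) + X * (C t * G) := by ring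
  rw [e, ps_add, ps_add, ps_C, ps_X_mul, ps_X_mul, ps_C_mul, ps_C_mul]
  have h1 : l * (y * ps l N F) ≤ l * (y * a) :=
    mul_le_mul_of_nonneg_left (mul_le_mul_of_nonneg_left hF hy) hl
  have h2 : l * (t * ps l N G) ≤ l * (t * b) :=
    mul_le_mul_of_nonneg_left (mul_le_mul_of_nonneg_left hG ht) hl
  linarith

end MobAux

open MobAux

/-- (M1) The formal mobiles. -/
theorem mob_exists {x y t : ℝ} (hx : 0 ≤ x) (hy : 0 ≤ y) (ht : 0 ≤ t) :
    ∃ r s : ℝ⟦X⟧, Mob (C x) (C y * X) (C t * X) r s ∧ Nn r ∧ Nn s := by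
  obtain ⟨f, hf, hfn⟩ := (contr_Ph x y t).exists {a : ℝ | 0 ≤ a} (le_refl (0 : ℝ)) (by
    intro f h i
    have h0 : Nn (f false) := h false
    have h1 : Nn (f true) := h true
    have hyX : Nn (C y * X) := nmul (nn_C hy) nn_X
    have htX : Nn (C t * X) := nmul (nn_C ht) nn_X
    rcases i with _ | _
    · exact nadd (nadd (nn_C hx) (nmul hyX (nn_q h0 h1))) (nmul htX (nn_c h0 h1))
    · exact nadd (nadd (NnS.one_mem) (nmul hyX (nn_q h1 h0))) (nmul htX (nn_c h1 h0)))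
  refine ⟨f false, f true, ?_, hfn false, hfn true⟩
  rw [mob_iff]
  have e : (fun i : Bool => if i = true then f true else f false) = f := by
    funext i
    rcases i with _ | _ <;> simp
  rw [e, hf]

/-- uniqueness (for use with a fixed pair) -/
theorem mob_unique {x y t : ℝ} {r s r' s' : ℝ⟦X⟧} (h : Mob (C x) (C y * X) (C t * X) r s)
    (h' : Mob (C x) (C y * X) (C t * X) r' s') : r = r' ∧ s = s' := by
  have h1 := (contr_Ph x y t).unique (mob_iff.1 h) (mob_iff.1 h')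
  have h2 := congrFun h1 false
  have h3 := congrFun h1 true
  simp only [if_true, Bool.false_eq_true, if_false] at h2 h3
  exact ⟨h2, h3⟩

/-- (M2) Bound by a supersolution. -/
theorem mob_bound {x y t l : ℝ} (hx : 0 ≤ x) (hy : 0 ≤ y) (ht : 0 ≤ t) (hl : 0 ≤ l) {r0 s0 : ℝ}
    (hr0 : 0 ≤ r0) (hs0 : 0 ≤ s0)
    (h1 : x + l * y * (r0 * (r0 + 2 * s0)) + l * t * (r0 * (r0 ^ 2 + 6 * r0 * s0 + 3 * s0 ^ 2)) ≤ r0)
    (h2 : 1 + l * y * (s0 * (s0 + 2 * r0)) + l * t * (s0 * (s0 ^ 2 + 6 * s0 * r0 + 3 * r0 ^ 2)) ≤ s0)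
    {r s : ℝ⟦X⟧} (h : Mob (C x) (C y * X) (C t * X) r s) (hr : Nn r) (hs : Nn s) :
    Sm l r ∧ Sm l s ∧ ev l r ≤ r0 ∧ ev l s ≤ s0 := by
  have _ := hx
  have key : ∀ N, ps l N r ≤ r0 ∧ ps l N s ≤ s0 := by
    intro N
    induction N with
    | zero => simpa [ps] using And.intro hr0 hs0
    | succ N ih =>
      constructor
      · rw [h.er]
        exact le_trans (ps_step hy ht hl (ps_q hl hr hs ih.1 ih.2) (ps_c hl hr hs ih.1 ih.2)) h1
      · rw [h.es, ← map_one (C : ℝ →+* ℝ⟦X⟧)]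
        exact le_trans (ps_step hy ht hl (ps_q hl hs hr ih.2 ih.1) (ps_c hl hs hr ih.2 ih.1)) h2
  exact ⟨hr.sm hl (fun N => (key N).1), hs.sm hl (fun N => (key N).2),
    hr.ev_le hl (fun N => (key N).1), hs.ev_le hl (fun N => (key N).2)⟩

namespace MobAux

theorem sm_two {l : ℝ} : Sm l (2 : ℝ⟦X⟧) := by
  have := sm_C (l := l) 2
  rwa [map_ofNat] at this

theorem sm_three {l : ℝ} : Sm l (3 : ℝ⟦X⟧) := by
  have := sm_C (l := l) 3
  rwa [map_ofNat] at this

theorem sm_six {l : ℝ} : Sm l (6 : ℝ⟦X⟧) := by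
  have := sm_C (l := l) 6
  rwa [map_ofNat] at this

/-- transport of the system along evaluation -/
theorem mob_map {A B : Type} [CommRing A] [CommRing B] (φ : A →+* B) {x Y T r s : A}
    (h : Mob x Y T r s) : Mob (φ x) (φ Y) (φ T) (φ r) (φ s) := by
  refine ⟨?_, ?_⟩
  · have := congrArg φ h.er
    simpa only [map_add, map_mul, map_pow, map_ofNat] using this
  · have := congrArg φ h.es
    simpa only [map_add, map_mul, map_pow, map_ofNat, map_one] using this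

end MobAux

/-- Evaluation of the system. -/
theorem mob_ev {x y t l : ℝ} {r s : ℝ⟦X⟧} (h : Mob (C x) (C y * X) (C t * X) r s)
    (hr : Sm l r) (hs : Sm l s) : Mob x (y * l) (t * l) (ev l r) (ev l s) := by
  have hx : Sm l (C x : ℝ⟦X⟧) := sm_C x
  have hy : Sm l (C y * X : ℝ⟦X⟧) := (sm_C y).mul sm_X
  have ht : Sm l (C t * X : ℝ⟦X⟧) := (sm_C t).mul sm_X
  have h1 : Mob (⟨_, hx⟩ : SmR l) ⟨_, hy⟩ ⟨_, ht⟩ ⟨r, hr⟩ ⟨s, hs⟩ := by
    refine ⟨Subtype.ext ?_, Subtype.ext ?_⟩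
    · have e : ∀ a b : SmR l, (SmR l).subtype a = (SmR l).subtype b → a.1 = b.1 := fun _ _ h => h
      refine e _ _ ?_
      simp only [map_add, map_mul, map_pow, map_ofNat]
      exact h.er
    · have e : ∀ a b : SmR l, (SmR l).subtype a = (SmR l).subtype b → a.1 = b.1 := fun _ _ h => h
      refine e _ _ ?_
      simp only [map_add, map_mul, map_pow, map_ofNat, map_one]
      exact h.es
  have h2 := mob_map (evH l) h1
  simp only [evH_apply] at h2
  rw [ev_C, ev_mul (sm_C y) sm_X, ev_mul (sm_C t) sm_X, ev_C, ev_C, ev_X] at h2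
  exact h2

namespace MobAux

theorem good_sqrt {r s y t : ℝ} (hr : 0 ≤ r) (hs : 0 ≤ s) (hg : Good r s y t) :
    2 * (Real.sqrt r * Real.sqrt s) * (y + 3 * t * (r + s)) ≤
      1 - 2 * y * (r + s) - 3 * t * (r ^ 2 + 4 * r * s + s ^ 2) := by
  refine le_of_sq_le_sq ?_ hg.1
  refine le_trans (le_of_eq ?_) hg.2
  have h1 := Real.sq_sqrt hr
  have h2 := Real.sq_sqrt hs
  calc (2 * (Real.sqrt r * Real.sqrt s) * (y + 3 * t * (r + s))) ^ 2
      = 4 * (Real.sqrt r ^ 2) * (Real.sqrt s ^ 2) * (y + 3 * t * (r + s)) ^ 2 := by ring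
    _ = _ := by rw [h1, h2]

theorem zero_of_sq {a y : ℝ} (hy : 0 < y) (h : y * a ^ 2 = 0) : a = 0 := by
  rcases mul_eq_zero.1 h with h' | h'
  · exact absurd h' hy.ne'
  · exact pow_eq_zero_iff (two_ne_zero) |>.1 h'

theorem zero_of_cube {a y : ℝ} (hy : 0 < y) (h : y * a ^ 3 = 0) : a = 0 := by
  rcases mul_eq_zero.1 h with h' | h'
  · exact absurd h' hy.ne'
  · exact pow_eq_zero_iff (three_ne_zero) |>.1 h'

/-- the critical or subcritical solution is minimal -/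
theorem min_unique {x y t r0 s0 r1 s1 : ℝ} (hy : 0 ≤ y) (ht : 0 ≤ t)
    (hr0 : 0 < r0) (hs0 : 0 < s0) (h0 : Mob x y t r0 s0) (h1 : Mob x y t r1 s1)
    (hg : Good r0 s0 y t) (hr1 : 0 ≤ r1) (hs1 : 0 ≤ s1) (hr : r1 ≤ r0) (hs : s1 ≤ s0) :
    r1 = r0 ∧ s1 = s0 := by
  obtain ⟨a, rfl⟩ : ∃ a, r0 = r1 + a := ⟨r0 - r1, by ring⟩
  obtain ⟨b, rfl⟩ : ∃ b, s0 = s1 + b := ⟨s0 - s1, by ring⟩
  have ha : 0 ≤ a := by linarith
  have hb : 0 ≤ b := by linarith
  have hk := good_sqrt hr0.le hs0.le hg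
  set al := Real.sqrt (r1 + a) with hal
  set be := Real.sqrt (s1 + b) with hbe
  have hal0 : 0 < al := Real.sqrt_pos.2 hr0
  have hbe0 : 0 < be := Real.sqrt_pos.2 hs0
  have hal2 : al ^ 2 = r1 + a := Real.sq_sqrt hr0.le
  have hbe2 : be ^ 2 = s1 + b := Real.sq_sqrt hs0.le
  set A0 := 1 - 2 * y * (r1 + a + (s1 + b)) -
    3 * t * ((r1 + a) ^ 2 + 4 * (r1 + a) * (s1 + b) + (s1 + b) ^ 2) with hA0
  set c := y + 3 * t * (r1 + a + (s1 + b)) with hc
  set R1 := y * (a ^ 2 + 2 * a * b) + t * (3 * r1 * a ^ 2 + 6 * s1 * a ^ 2 + 12 * r1 * a * b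
    + 6 * s1 * a * b + 3 * r1 * b ^ 2 + 2 * a ^ 3 + 12 * a ^ 2 * b + 6 * a * b ^ 2) with hR1
  set R2 := y * (b ^ 2 + 2 * a * b) + t * (3 * s1 * b ^ 2 + 6 * r1 * b ^ 2 + 12 * s1 * a * b
    + 6 * r1 * a * b + 3 * s1 * a ^ 2 + 2 * b ^ 3 + 12 * b ^ 2 * a + 6 * b * a ^ 2) with hR2
  have e1 : A0 * a - 2 * (r1 + a) * c * b = - R1 := by
    rw [hA0, hc, hR1]
    linear_combination h0.er - h1.er
  have e2 : A0 * b - 2 * (s1 + b) * c * a = - R2 := by
    rw [hA0, hc, hR2]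
    linear_combination h0.es - h1.es
  have f1 : y * a ^ 2 + 2 * (t * a ^ 3) ≤ R1 := by
    have : R1 - (y * a ^ 2 + 2 * (t * a ^ 3)) = y * (2 * a * b) + t * (3 * r1 * a ^ 2
      + 6 * s1 * a ^ 2 + 12 * r1 * a * b + 6 * s1 * a * b + 3 * r1 * b ^ 2 + 12 * a ^ 2 * b
      + 6 * a * b ^ 2) := by rw [hR1]; ring
    have h2 : 0 ≤ R1 - (y * a ^ 2 + 2 * (t * a ^ 3)) := by
      rw [this]
      positivity
    linarith
  have f2 : y * b ^ 2 + 2 * (t * b ^ 3) ≤ R2 := by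
    have : R2 - (y * b ^ 2 + 2 * (t * b ^ 3)) = y * (2 * a * b) + t * (3 * s1 * b ^ 2
      + 6 * r1 * b ^ 2 + 12 * s1 * a * b + 6 * r1 * a * b + 3 * s1 * a ^ 2 + 12 * b ^ 2 * a
      + 6 * b * a ^ 2) := by rw [hR2]; ring
    have h2 : 0 ≤ R2 - (y * b ^ 2 + 2 * (t * b ^ 3)) := by
      rw [this]
      positivity
    linarith
  have g1 : 0 ≤ y * a ^ 2 := by positivity
  have g2 : 0 ≤ t * a ^ 3 := by positivity
  have g3 : 0 ≤ y * b ^ 2 := by positivity
  have g4 : 0 ≤ t * b ^ 3 := by positivity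
  have e3 : (A0 - 2 * (al * be) * c) * (be * a + al * b) = -(be * R1 + al * R2) := by
    linear_combination be * e1 + al * e2 - (2 * c * b * be) * hal2 - (2 * c * a * al) * hbe2
  have g5 : 0 ≤ (A0 - 2 * (al * be) * c) * (be * a + al * b) :=
    mul_nonneg (by linarith) (by positivity)
  have g6 : 0 ≤ be * R1 := mul_nonneg hbe0.le (by linarith)
  have g7 : 0 ≤ al * R2 := mul_nonneg hal0.le (by linarith)
  have g8 : be * R1 = 0 := by linarith
  have g9 : al * R2 = 0 := by linarith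
  have hR10 : R1 = 0 := by
    rcases mul_eq_zero.1 g8 with h' | h'
    · exact absurd h' hbe0.ne'
    · exact h'
  have hR20 : R2 = 0 := by
    rcases mul_eq_zero.1 g9 with h' | h'
    · exact absurd h' hal0.ne'
    · exact h'
  have k1 : y * a ^ 2 = 0 := by linarith
  have k2 : t * a ^ 3 = 0 := by linarith
  have k3 : y * b ^ 2 = 0 := by linarith
  have k4 : t * b ^ 3 = 0 := by linarith
  have hab : a = 0 ∧ b = 0 := by
    rcases hy.lt_or_eq with hy' | hy'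
    · exact ⟨zero_of_sq hy' k1, zero_of_sq hy' k3⟩
    · rcases ht.lt_or_eq with ht' | ht'
      · exact ⟨zero_of_cube ht' k2, zero_of_cube ht' k4⟩
      · have hA1 : A0 = 1 := by rw [hA0, ← hy', ← ht']; ring
        have hc1 : c = 0 := by rw [hc, ← hy', ← ht']; ring
        rw [hA1, hc1, hR10] at e1
        rw [hA1, hc1, hR20] at e2
        constructor <;> linarith
  rw [hab.1, hab.2]
  constructor <;> ring

end MobAux

/-- (M3) At a critical or subcritical point the value of the series is the given solution. -/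
theorem mob_value {x y t r0 s0 : ℝ} (hx : 0 < x) (hy : 0 ≤ y) (ht : 0 ≤ t)
    (hr0 : 0 < r0) (hs0 : 0 < s0) (h0 : Mob x y t r0 s0) (hg : Good r0 s0 y t)
    {r s : ℝ⟦X⟧} (h : Mob (C x) (C y * X) (C t * X) r s) (hr : Nn r) (hs : Nn s) :
    Sm 1 r ∧ Sm 1 s ∧ ev 1 r = r0 ∧ ev 1 s = s0 := by
  obtain ⟨h1, h2, h3, h4⟩ := mob_bound hx.le hy ht zero_le_one hr0.le hs0.le
    (by rw [one_mul, one_mul]; exact h0.er.symm.le) (by rw [one_mul, one_mul]; exact h0.es.symm.le)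
    h hr hs
  have h5 := mob_ev h h1 h2
  rw [mul_one, mul_one] at h5
  obtain ⟨h6, h7⟩ := min_unique hy ht hr0 hs0 h0 h5 hg (hr.ev_nonneg zero_le_one)
    (hs.ev_nonneg zero_le_one) h3 h4
  exact ⟨h1, h2, h6, h7⟩

/-- Critical points are admissible. -/
theorem Crit.good {r s y t : ℝ} (hr : 0 ≤ r) (hs : 0 ≤ s) (hy : 0 ≤ y) (ht : 0 ≤ t)
    (h : Crit r s y t) : Good r s y t := by
  unfold Crit at h
  unfold Good
  rw [h]
  refine ⟨by positivity, le_of_eq ?_⟩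
  have h2 := Real.sq_sqrt (mul_nonneg hr hs)
  calc 4 * r * s * (y + 3 * t * (r + s)) ^ 2 = 4 * (r * s) * (y + 3 * t * (r + s)) ^ 2 := by ring
    _ = 4 * (Real.sqrt (r * s) ^ 2) * (y + 3 * t * (r + s)) ^ 2 := by rw [h2]
    _ = _ := by ring

/-- (M4) No solution beyond a critical point. -/
theorem mob_crit_no {x yc tc rc sc y t r s : ℝ} (hx : 0 < x) (hyc : 0 < yc) (htc : 0 < tc)
    (hrc : 0 < rc) (hsc : 0 < sc) (hc : Mob x yc tc rc sc) (hk : Crit rc sc yc tc)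
    (hy : yc < y) (ht : tc < t) (hr : 0 ≤ r) (hs : 0 ≤ s) (h : Mob x y t r s) : False := by
  have hr' : 0 < r := by
    have h1 := h.er
    have h2 : 0 ≤ y * (r * (r + 2 * s)) := by have := hyc.le.trans hy.le; positivity
    have h3 : 0 ≤ t * (r * (r ^ 2 + 6 * r * s + 3 * s ^ 2)) := by
      have := htc.le.trans ht.le; positivity
    linarith
  have hs' : 0 < s := by
    have h1 := h.es
    have h2 : 0 ≤ y * (s * (s + 2 * r)) := by have := hyc.le.trans hy.le; positivity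
    have h3 : 0 ≤ t * (s * (s ^ 2 + 6 * s * r + 3 * r ^ 2)) := by
      have := htc.le.trans ht.le; positivity
    linarith
  have q1 : yc * (r * (r + 2 * s)) < y * (r * (r + 2 * s)) :=
    mul_lt_mul_of_pos_right hy (by positivity)
  have q2 : tc * (r * (r ^ 2 + 6 * r * s + 3 * s ^ 2)) < t * (r * (r ^ 2 + 6 * r * s + 3 * s ^ 2)) :=
    mul_lt_mul_of_pos_right ht (by positivity)
  have q3 : yc * (s * (s + 2 * r)) < y * (s * (s + 2 * r)) :=
    mul_lt_mul_of_pos_right hy (by positivity)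
  have q4 : tc * (s * (s ^ 2 + 6 * s * r + 3 * r ^ 2)) < t * (s * (s ^ 2 + 6 * s * r + 3 * r ^ 2)) :=
    mul_lt_mul_of_pos_right ht (by positivity)
  obtain ⟨fr, fs, hf, hfr, hfs⟩ := mob_exists hx.le hyc.le htc.le
  obtain ⟨_, _, v3, v4⟩ := mob_value hx hyc.le htc.le hrc hsc hc
    (hk.good hrc.le hsc.le hyc.le htc.le) hf hfr hfs
  obtain ⟨_, _, b3, b4⟩ := mob_bound hx.le hyc.le htc.le zero_le_one hr hs
    (by rw [one_mul, one_mul]; have := h.er; linarith)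
    (by rw [one_mul, one_mul]; have := h.es; linarith) hf hfr hfs
  rw [v3] at b3
  rw [v4] at b4
  obtain ⟨a, rfl⟩ : ∃ a, r = rc + a := ⟨r - rc, by ring⟩
  obtain ⟨b, rfl⟩ : ∃ b, s = sc + b := ⟨s - sc, by ring⟩
  have ha : 0 ≤ a := by linarith
  have hb : 0 ≤ b := by linarith
  have hal0 : 0 < Real.sqrt rc := Real.sqrt_pos.2 hrc
  have hbe0 : 0 < Real.sqrt sc := Real.sqrt_pos.2 hsc
  have hal2 : Real.sqrt rc ^ 2 = rc := Real.sq_sqrt hrc.le
  have hbe2 : Real.sqrt sc ^ 2 = sc := Real.sq_sqrt hsc.le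
  have hk' : 1 - 2 * yc * (rc + sc) - 3 * tc * (rc ^ 2 + 4 * rc * sc + sc ^ 2) =
      2 * (Real.sqrt rc * Real.sqrt sc) * (yc + 3 * tc * (rc + sc)) := by
    rw [← Real.sqrt_mul hrc.le]
    exact hk
  set al := Real.sqrt rc with hal
  set be := Real.sqrt sc with hbe
  set A0 := 1 - 2 * yc * (rc + sc) - 3 * tc * (rc ^ 2 + 4 * rc * sc + sc ^ 2) with hA0
  set c := yc + 3 * tc * (rc + sc) with hcc
  have p1 : 0 ≤ yc * (a ^ 2 + 2 * a * b) + tc * (3 * rc * a ^ 2 + 6 * sc * a ^ 2 + 12 * rc * a * b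
    + 6 * sc * a * b + 3 * rc * b ^ 2 + a ^ 3 + 6 * a ^ 2 * b + 3 * a * b ^ 2) := by positivity
  have p2 : 0 ≤ yc * (b ^ 2 + 2 * a * b) + tc * (3 * sc * b ^ 2 + 6 * rc * b ^ 2 + 12 * sc * a * b
    + 6 * rc * a * b + 3 * sc * a ^ 2 + b ^ 3 + 6 * b ^ 2 * a + 3 * b * a ^ 2) := by positivity
  have e1 : 0 < A0 * a - 2 * rc * c * b := by
    have h1 : A0 * a - 2 * rc * c * b
        = (yc * (a ^ 2 + 2 * a * b) + tc * (3 * rc * a ^ 2 + 6 * sc * a ^ 2 + 12 * rc * a * b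
          + 6 * sc * a * b + 3 * rc * b ^ 2 + a ^ 3 + 6 * a ^ 2 * b + 3 * a * b ^ 2))
        + (y * ((rc + a) * (rc + a + 2 * (sc + b))) - yc * ((rc + a) * (rc + a + 2 * (sc + b))))
        + (t * ((rc + a) * ((rc + a) ^ 2 + 6 * (rc + a) * (sc + b) + 3 * (sc + b) ^ 2))
          - tc * ((rc + a) * ((rc + a) ^ 2 + 6 * (rc + a) * (sc + b) + 3 * (sc + b) ^ 2))) := by
      rw [hA0, hcc]
      linear_combination h.er - hc.er
    rw [h1]
    linarith
  have e2 : 0 < A0 * b - 2 * sc * c * a := by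
    have h1 : A0 * b - 2 * sc * c * a
        = (yc * (b ^ 2 + 2 * a * b) + tc * (3 * sc * b ^ 2 + 6 * rc * b ^ 2 + 12 * sc * a * b
          + 6 * rc * a * b + 3 * sc * a ^ 2 + b ^ 3 + 6 * b ^ 2 * a + 3 * b * a ^ 2))
        + (y * ((sc + b) * (sc + b + 2 * (rc + a))) - yc * ((sc + b) * (sc + b + 2 * (rc + a))))
        + (t * ((sc + b) * ((sc + b) ^ 2 + 6 * (sc + b) * (rc + a) + 3 * (rc + a) ^ 2))
          - tc * ((sc + b) * ((sc + b) ^ 2 + 6 * (sc + b) * (rc + a) + 3 * (rc + a) ^ 2))) := by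
      rw [hA0, hcc]
      linear_combination h.es - hc.es
    rw [h1]
    linarith
  have e3 : 0 < be * (A0 * a - 2 * rc * c * b) + al * (A0 * b - 2 * sc * c * a) :=
    add_pos (mul_pos hbe0 e1) (mul_pos hal0 e2)
  have e4 : be * (A0 * a - 2 * rc * c * b) + al * (A0 * b - 2 * sc * c * a) = 0 := by
    linear_combination (be * a + al * b) * hk' + (2 * c * b * be) * hal2 + (2 * c * a * al) * hbe2
  rw [e4] at e3
  exact lt_irrefl _ e3

/-! ### (M5) -/

namespace MobAux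

/-- `d(W_1)` in a commutative ring with the data of a derivation -/
theorem alg_w1 {A : Type} [CommRing A] {r s Y T dr ds y t : A}
    (h1 : dr = y * (r * (r + 2 * s)) + Y * (dr * (r + 2 * s) + r * (dr + 2 * ds))
      + (t * (r * (r ^ 2 + 6 * r * s + 3 * s ^ 2)) + T * (dr * (r ^ 2 + 6 * r * s + 3 * s ^ 2)
        + r * (2 * r * dr + 6 * (dr * s + r * ds) + 6 * s * ds))))
    (h2 : ds = y * (s * (s + 2 * r)) + Y * (ds * (s + 2 * r) + s * (ds + 2 * dr))
      + (t * (s * (s ^ 2 + 6 * s * r + 3 * r ^ 2)) + T * (ds * (s ^ 2 + 6 * s * r + 3 * r ^ 2)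
        + s * (2 * s * ds + 6 * (ds * r + s * dr) + 6 * r * dr)))) :
    (dr * s + r * ds) * (1 - 2 * Y * (r + s) - 3 * T * ((r + s) ^ 2 + r * s))
      + r * s * (0 - 2 * (y * (r + s) + Y * (dr + ds))
        - 3 * (t * ((r + s) ^ 2 + r * s) + T * (2 * (r + s) * (dr + ds) + (dr * s + r * ds))))
      = r * s * (y * (r + s) + t * ((r + s) ^ 2 + r * s)) := by
  linear_combination s * h1 + r * h2

theorem alg_w2 {A : Type} [CommRing A] {r s Y T dr ds y t : A}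
    (h1 : dr = y * (r * (r + 2 * s)) + Y * (dr * (r + 2 * s) + r * (dr + 2 * ds))
      + (t * (r * (r ^ 2 + 6 * r * s + 3 * s ^ 2)) + T * (dr * (r ^ 2 + 6 * r * s + 3 * s ^ 2)
        + r * (2 * r * dr + 6 * (dr * s + r * ds) + 6 * s * ds))))
    (h2 : ds = y * (s * (s + 2 * r)) + Y * (ds * (s + 2 * r) + s * (ds + 2 * dr))
      + (t * (s * (s ^ 2 + 6 * s * r + 3 * r ^ 2)) + T * (ds * (s ^ 2 + 6 * s * r + 3 * r ^ 2)
        + s * (2 * s * ds + 6 * (ds * r + s * dr) + 6 * r * dr)))) :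
    (dr * s + r * ds) * ((r + s) - Y * (2 * (r + s) ^ 2 + r * s)
        - 3 * T * ((r + s) * ((r + s) ^ 2 + 2 * (r * s))))
      + r * s * ((dr + ds) - (y * (2 * (r + s) ^ 2 + r * s)
          + Y * (4 * (r + s) * (dr + ds) + (dr * s + r * ds)))
        - 3 * (t * ((r + s) * ((r + s) ^ 2 + 2 * (r * s)))
          + T * ((dr + ds) * ((r + s) ^ 2 + 2 * (r * s))
            + (r + s) * (2 * (r + s) * (dr + ds) + 2 * (dr * s + r * ds)))))
      = r * s * (y * (2 * (r + s) ^ 2 + r * s)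
        + 2 * t * ((r + s) * ((r + s) ^ 2 + 2 * (r * s)))) := by
  linear_combination s * (2 * r + s) * h1 + r * (r + 2 * s) * h2

end MobAux

namespace MobAux

theorem dmul (a b : ℝ⟦X⟧) : derivative ℝ (a * b) = derivative ℝ a * b + a * derivative ℝ b := by
  rw [Derivation.leibniz, smul_eq_mul, smul_eq_mul]
  ring

theorem dC (a : ℝ) : derivative ℝ (C a) = 0 := by
  exact derivative_C

theorem dX : derivative ℝ (X : ℝ⟦X⟧) = 1 := by
  exact derivative_X

theorem d1 : derivative ℝ (1 : ℝ⟦X⟧) = 0 := by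
  have := dC 1
  rwa [map_one] at this

theorem d2 : derivative ℝ (2 : ℝ⟦X⟧) = 0 := by
  have := dC 2
  rwa [map_ofNat] at this

theorem d3 : derivative ℝ (3 : ℝ⟦X⟧) = 0 := by
  have := dC 3
  rwa [map_ofNat] at this

theorem d6 : derivative ℝ (6 : ℝ⟦X⟧) = 0 := by
  have := dC 6
  rwa [map_ofNat] at this

theorem dsq (a : ℝ⟦X⟧) : derivative ℝ (a ^ 2) = 2 * a * derivative ℝ a := by
  rw [pow_two, dmul]
  ring

theorem dq {c y t : ℝ} {r s : ℝ⟦X⟧} (h : r = C c + C y * X * (r * (r + 2 * s))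
      + C t * X * (r * (r ^ 2 + 6 * r * s + 3 * s ^ 2))) :
    derivative ℝ r = C y * (r * (r + 2 * s)) + C y * X * (derivative ℝ r * (r + 2 * s)
        + r * (derivative ℝ r + 2 * derivative ℝ s))
      + (C t * (r * (r ^ 2 + 6 * r * s + 3 * s ^ 2)) + C t * X *
        (derivative ℝ r * (r ^ 2 + 6 * r * s + 3 * s ^ 2)
        + r * (2 * r * derivative ℝ r + 6 * (derivative ℝ r * s + r * derivative ℝ s)
          + 6 * s * derivative ℝ s))) := by
  have h1 := congrArg (derivative ℝ) h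
  simp only [map_add, dmul, dC, dX, d2, d3, d6, dsq] at h1
  linear_combination h1

end MobAux

open MobAux

/-- (M5) Formal derivative of `W_1`. -/
theorem deriv_w1 {x y t : ℝ} {r s : ℝ⟦X⟧} (h : Mob (C x) (C y * X) (C t * X) r s) :
    derivative ℝ (w1 r s (C y * X) (C t * X)) =
      r * s * (C y * (r + s) + C t * ((r + s) ^ 2 + r * s)) := by
  have h2 := h.es
  rw [← map_one (C : ℝ →+* ℝ⟦X⟧)] at h2
  rw [← alg_w1 (dq h.er) (dq h2)]
  unfold w1
  simp only [map_add, map_sub, dmul, dC, dX, d1, d2, d3, dsq]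
  ring

/-- (M5) Formal derivative of `W_2`. -/
theorem deriv_w2 {x y t : ℝ} {r s : ℝ⟦X⟧} (h : Mob (C x) (C y * X) (C t * X) r s) :
    derivative ℝ (w2 r s (C y * X) (C t * X)) =
      r * s * (C y * (2 * (r + s) ^ 2 + r * s)
        + 2 * C t * ((r + s) * ((r + s) ^ 2 + 2 * (r * s)))) := by
  have h2 := h.es
  rw [← map_one (C : ℝ →+* ℝ⟦X⟧)] at h2
  rw [← alg_w2 (dq h.er) (dq h2)]
  unfold w2
  simp only [map_add, map_sub, dmul, dC, dX, d2, d3, dsq]
  ring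

/-- (M6) One-sided derivative of a nonnegative series. -/
theorem hasDeriv_series {a : ℕ → ℝ} (ha : ∀ n, 0 ≤ a n) (hs : Summable fun n : ℕ => (n : ℝ) * a n) :
    HasDerivWithinAt (fun l : ℝ => ∑' n : ℕ, a n * l ^ n) (∑' n : ℕ, (n : ℝ) * a n) (Set.Iic 1) 1 := by
  have hsum : Summable a := by
    refine (summable_nat_add_iff 1).1 ?_
    refine Summable.of_nonneg_of_le (fun n => ha _) (fun n => ?_) ((summable_nat_add_iff 1).2 hs)
    have h1 : (1 : ℝ) ≤ ((n + 1 : ℕ) : ℝ) := by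
      push_cast
      have : (0 : ℝ) ≤ n := Nat.cast_nonneg n
      linarith
    exact le_mul_of_one_le_left (ha _) h1
  have hsl : ∀ l : ℝ, 0 ≤ l → l ≤ 1 → Summable (fun n => a n * l ^ n) := by
    intro l h0 h1
    refine Summable.of_nonneg_of_le (fun n => mul_nonneg (ha n) (pow_nonneg h0 n)) (fun n => ?_) hsum
    exact mul_le_of_le_one_right (ha n) (pow_le_one₀ h0 h1)
  rw [hasDerivWithinAt_iff_tendsto_slope, Set.Iic_sdiff_right]
  have hmain : Filter.Tendsto (fun l : ℝ => ∑' n : ℕ, a n * ∑ i ∈ Finset.range n, l ^ i)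
      (nhdsWithin 1 (Set.Iio 1)) (nhds (∑' n : ℕ, (n : ℝ) * a n)) := by
    refine tendsto_tsum_of_dominated_convergence (bound := fun n : ℕ => (n : ℝ) * a n) hs ?_ ?_
    · intro n
      have h1 : Filter.Tendsto (fun l : ℝ => a n * ∑ i ∈ Finset.range n, l ^ i) (nhds 1)
          (nhds (a n * ∑ i ∈ Finset.range n, (1 : ℝ) ^ i)) := by
        refine Continuous.tendsto ?_ 1
        fun_prop
      have h2 : a n * ∑ i ∈ Finset.range n, (1 : ℝ) ^ i = (n : ℝ) * a n := by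
        simp [mul_comm]
      rw [h2] at h1
      exact h1.mono_left nhdsWithin_le_nhds
    · have h3 : ∀ᶠ l : ℝ in nhdsWithin 1 (Set.Iio 1), l ∈ Set.Ioo (0 : ℝ) 1 :=
        Ioo_mem_nhdsLT (by norm_num)
      filter_upwards [h3] with l hl n
      rw [Real.norm_of_nonneg (mul_nonneg (ha n) (Finset.sum_nonneg fun i _ =>
        pow_nonneg hl.1.le i)), mul_comm]
      refine mul_le_mul_of_nonneg_right ?_ (ha n)
      calc ∑ i ∈ Finset.range n, l ^ i ≤ ∑ _i ∈ Finset.range n, (1 : ℝ) :=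
            Finset.sum_le_sum fun i _ => pow_le_one₀ hl.1.le hl.2.le
        _ = n := by simp
  refine hmain.congr' ?_
  have h3 : ∀ᶠ l : ℝ in nhdsWithin 1 (Set.Iio 1), l ∈ Set.Ioo (0 : ℝ) 1 :=
    Ioo_mem_nhdsLT (by norm_num)
  filter_upwards [h3] with l hl
  have hne : l - 1 ≠ 0 := by
    have := hl.2
    intro h
    linarith
  rw [slope_def_field]
  simp only [one_pow, mul_one]
  rw [eq_div_iff hne, ← Summable.tsum_sub (hsl l hl.1.le hl.2.le) hsum, ← tsum_mul_right]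
  refine tsum_congr fun n => ?_
  rw [mul_assoc, mul_comm (∑ i ∈ Finset.range n, l ^ i), mul_geom_sum]
  ring

end K5A
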