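import Pool.Agent.Lib.K5A.Motz
import Pool.Agent.Lib.K5A.Ev

/-!
# K5A.MobDefs: the mobile system
-/

set_option autoImplicit false

namespace K5A

open PowerSeries

/-- The mobile system: `r` and `s` are the generating functions of the two kinds of mobiles. -/
structure Mob {A : Type} [CommRing A] (x Y T r s : A) : Prop where
  er : r = x + Y * (r * (r + 2 * s)) + T * (r * (r ^ 2 + 6 * r * s + 3 * s ^ 2))
  es : s = 1 + Y * (s * (s + 2 * r)) + T * (s * (s ^ 2 + 6 * s * r + 3 * r ^ 2))

theorem Mob.mx_eq {A : Type} [CommRing A] {x Y T r s : A} (h : Mob x Y T r s) : mx r s Y T = x := by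
  unfold mx; linear_combination h.er

theorem Mob.mx_eq_one {A : Type} [CommRing A] {x Y T r s : A} (h : Mob x Y T r s) :
    mx s r Y T = 1 := by
  unfold mx; linear_combination h.es

/-- Critical or subcritical: the matrix `1 - J` has nonnegative diagonal `a0` and nonnegative
determinant. -/
def Good (r s y t : ℝ) : Prop :=
  0 ≤ 1 - 2 * y * (r + s) - 3 * t * (r ^ 2 + 4 * r * s + s ^ 2) ∧
    4 * r * s * (y + 3 * t * (r + s)) ^ 2 ≤
      (1 - 2 * y * (r + s) - 3 * t * (r ^ 2 + 4 * r * s + s ^ 2)) ^ 2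

/-- Critical. -/
def Crit (r s y t : ℝ) : Prop :=
  1 - 2 * y * (r + s) - 3 * t * (r ^ 2 + 4 * r * s + s ^ 2)
    = 2 * Real.sqrt (r * s) * (y + 3 * t * (r + s))

end K5A
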