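import Pool.Agent.Lib.K5A.Defs

/-!
# K5A.Motz: the explicit solution of the Tutte system

With `p = r + s`, `q = r s`, `N = 1 + p u N + q u^2 N^2` the series
`W(u) = q u N (1 - 2 y p - 3 t p^2 - 2 t q - t q N - (y q + 2 t p q) u N)` solves the Tutte system
(`κ = 1`) as soon as `x = r (1 - y (r + 2 s) - t (r^2 + 6 r s + 3 s^2))` and
`1 = s (1 - y (s + 2 r) - t (s^2 + 6 r s + 3 r^2))`.
-/

set_option autoImplicit false

namespace K5A

open PowerSeries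

/-- The right hand side of the mobile equations, solved for the white weight. -/
def mx {A : Type} [CommRing A] (r s y t : A) : A :=
  r * (1 - y * (r + 2 * s) - t * (r ^ 2 + 6 * r * s + 3 * s ^ 2))

def w1 {A : Type} [CommRing A] (r s y t : A) : A :=
  r * s * (1 - 2 * y * (r + s) - 3 * t * ((r + s) ^ 2 + r * s))

def w2 {A : Type} [CommRing A] (r s y t : A) : A :=
  r * s * ((r + s) - y * (2 * (r + s) ^ 2 + r * s) - 3 * t * (r + s) * ((r + s) ^ 2 + 2 * (r * s)))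

def w3 {A : Type} [CommRing A] (r s y t : A) : A :=
  r * s * ((r + s) ^ 2 + r * s - y * (2 * (r + s) ^ 3 + 4 * (r + s) * (r * s))
    - t * (3 * (r + s) ^ 4 + 12 * (r + s) ^ 2 * (r * s) + 4 * (r * s) ^ 2))

/-- `W` as a polynomial in `u` and `N`. -/
def WN {A : Type} [CommRing A] (r s y t u N : A) : A :=
  r * s * (u * (N * (1 - 2 * y * (r + s) - 3 * t * (r + s) ^ 2 - 2 * t * (r * s) - t * (r * s) * N
    - (y * (r * s) + 2 * t * (r + s) * (r * s)) * (u * N))))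

theorem motz_alg {B : Type} [CommRing B] (r s y t u N : B)
    (hN : N = 1 + (r + s) * (u * N) + r * s * (u ^ 2 * N ^ 2)) :
    u ^ 2 * WN r s y t u N = u ^ 3 * ((mx r s y t + WN r s y t u N) * (mx s r y t + WN r s y t u N))
      + y * (u * (WN r s y t u N - w1 r s y t * u))
      + t * (WN r s y t u N - w1 r s y t * u - w2 r s y t * u ^ 2) := by
  unfold WN mx w1 w2
  linear_combination (-(-4*u^5*N^2*r^5*s^3*t^2 - 8*u^5*N^2*r^4*s^4*t^2 - 4*u^5*N^2*r^4*s^3*y*t -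
      4*u^5*N^2*r^3*s^5*t^2 - 4*u^5*N^2*r^3*s^4*y*t - u^5*N^2*r^3*s^3*y^2 -
      4*u^4*N^2*r^4*s^3*t^2 - 4*u^4*N^2*r^3*s^4*t^2 - 2*u^4*N^2*r^3*s^3*y*t -
      8*u^4*N*r^5*s^2*t^2 - 32*u^4*N*r^4*s^3*t^2 - 10*u^4*N*r^4*s^2*y*t - 32*u^4*N*r^3*s^4*t^2 -
      24*u^4*N*r^3*s^3*y*t - 3*u^4*N*r^3*s^2*y^2 + 4*u^4*N*r^3*s^2*t - 8*u^4*N*r^2*s^5*t^2 -
      10*u^4*N*r^2*s^4*y*t - 3*u^4*N*r^2*s^3*y^2 + 4*u^4*N*r^2*s^3*t + 2*u^4*N*r^2*s^2*y -
      u^3*N^2*r^3*s^3*t^2 - 6*u^3*N*r^4*s^2*t^2 - 16*u^3*N*r^3*s^3*t^2 - 6*u^3*N*r^3*s^2*y*t -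
      6*u^3*N*r^2*s^4*t^2 - 6*u^3*N*r^2*s^3*y*t - u^3*N*r^2*s^2*y^2 + 2*u^3*N*r^2*s^2*t -
      3*u^3*r^5*s*t^2 - 24*u^3*r^4*s^2*t^2 - 5*u^3*r^4*s*y*t - 46*u^3*r^3*s^3*t^2 -
      25*u^3*r^3*s^2*y*t - 2*u^3*r^3*s*y^2 + 4*u^3*r^3*s*t - 24*u^3*r^2*s^4*t^2 -
      25*u^3*r^2*s^3*y*t - 5*u^3*r^2*s^2*y^2 + 12*u^3*r^2*s^2*t + 3*u^3*r^2*s*y -
      3*u^3*r*s^5*t^2 - 5*u^3*r*s^4*y*t - 2*u^3*r*s^3*y^2 + 4*u^3*r*s^3*t + 3*u^3*r*s^2*y -
      u^3*r*s - 3*u^2*N*r^3*s^2*t^2 - 3*u^2*N*r^2*s^3*t^2 - 2*u^2*N*r^2*s^2*y*t -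
      3*u^2*r^4*s*t^2 - 15*u^2*r^3*s^2*t^2 - 5*u^2*r^3*s*y*t - 15*u^2*r^2*s^3*t^2 -
      14*u^2*r^2*s^2*y*t - 2*u^2*r^2*s*y^2 + u^2*r^2*s*t - 3*u^2*r*s^4*t^2 - 5*u^2*r*s^3*y*t -
      2*u^2*r*s^2*y^2 + u^2*r*s^2*t + u^2*r*s*y - u*N*r^2*s^2*t^2 - 3*u*r^3*s*t^2 -
      9*u*r^2*s^2*t^2 - 2*u*r^2*s*y*t - 3*u*r*s^3*t^2 - 2*u*r*s^2*y*t + u*r*s*t)) * hN

/-- The coefficients of the Motzkin series. -/
def mN {A : Type} [CommRing A] (p q : A) : ℕ → A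
  | 0 => 1
  | n + 1 => p * mN p q n + q * ∑ i : Fin n, mN p q i * mN p q (n - 1 - i)
termination_by n => n

/-- The Motzkin series `N = 1 + p u N + q u^2 N^2`. -/
def NN {A : Type} [CommRing A] (p q : A) : A⟦X⟧ := PowerSeries.mk (mN p q)

theorem NN_eq {A : Type} [CommRing A] (p q : A) :
    NN p q = 1 + C p * (X * NN p q) + C q * (X ^ 2 * NN p q ^ 2) := by
  ext n
  rcases n with _ | n
  · simp [NN, mN]
  · rw [map_add, map_add, coeff_one, if_neg (by omega), coeff_C_mul, coeff_C_mul, coeff_succ_X_mul,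
      zero_add, NN, coeff_mk, coeff_mk, mN]
    congr 1
    congr 1
    rcases n with _ | n
    · rw [Finset.univ_eq_empty, Finset.sum_empty, coeff_X_pow_mul', if_neg (by omega)]
    · rw [show n + 1 + 1 = n + 2 by ring, coeff_X_pow_mul, pow_two, coeff_mul,
        Finset.Nat.sum_antidiagonal_eq_sum_range_succ (fun i j => coeff i (PowerSeries.mk (mN p q)) *
          coeff j (PowerSeries.mk (mN p q))), Finset.sum_range]
      refine Finset.sum_congr rfl fun i _ => ?_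
      rw [coeff_mk, coeff_mk, Nat.add_sub_cancel]

section

variable {A : Type} [CommRing A] (r s y t : A)

/-- `W(u)` as a power series. -/
noncomputable def WS : A⟦X⟧ := WN (C r) (C s) (C y) (C t) X (NN (r + s) (r * s))

/-- The explicit solution of the Tutte system. -/
noncomputable def wk (k : ℕ) : A := coeff k (WS r s y t)

theorem mN_zero (p q : A) : mN p q 0 = 1 := by rw [mN]

theorem mN_one (p q : A) : mN p q 1 = p := by
  rw [mN, mN_zero]; simp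

theorem mN_two (p q : A) : mN p q 2 = p ^ 2 + q := by
  rw [mN, mN_one, Fin.sum_univ_one]
  have h : mN p q ((0 : Fin 1) : ℕ) * mN p q (1 - 1 - ((0 : Fin 1) : ℕ)) = 1 := by
    rw [show ((0 : Fin 1) : ℕ) = 0 from rfl, show (1 - 1 - 0 : ℕ) = 0 from rfl, mN_zero, one_mul]
  rw [h]
  ring

theorem cx1 (f : A⟦X⟧) : coeff 1 (X * f) = coeff 0 f := coeff_succ_X_mul 0 f
theorem cx2 (f : A⟦X⟧) : coeff 2 (X * f) = coeff 1 f := coeff_succ_X_mul 1 f
theorem cx3 (f : A⟦X⟧) : coeff 3 (X * f) = coeff 2 f := coeff_succ_X_mul 2 f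

theorem NN_sq (p q : A) : coeff 0 (NN p q ^ 2) = 1 ∧ coeff 1 (NN p q ^ 2) = 2 * p ∧
    coeff 2 (NN p q ^ 2) = 3 * p ^ 2 + 2 * q := by
  refine ⟨?_, ?_, ?_⟩
  · rw [pow_two, coeff_mul]; simp [NN, mN_zero]
  · rw [pow_two, coeff_mul]
    simp [NN, mN_zero, mN_one, Finset.Nat.antidiagonal_succ]
    ring
  · rw [pow_two, coeff_mul]
    simp [NN, mN_zero, mN_one, mN_two, Finset.Nat.antidiagonal_succ]
    ring

theorem WS_eq : WS r s y t = C (r * s) * (X * (C (1 - 2 * y * (r + s) - 3 * t * (r + s) ^ 2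
      - 2 * t * (r * s)) * NN (r + s) (r * s) - C (t * (r * s)) * NN (r + s) (r * s) ^ 2
      - C (y * (r * s) + 2 * t * (r + s) * (r * s)) * (X * NN (r + s) (r * s) ^ 2))) := by
  unfold WS WN
  simp only [map_mul, map_sub, map_add, map_pow, map_one, map_ofNat]
  ring

theorem wk_zero : wk r s y t 0 = 0 := by
  rw [wk, WS_eq, coeff_C_mul, coeff_zero_X_mul, mul_zero]

theorem wk_one : wk r s y t 1 = w1 r s y t := by
  obtain ⟨h0, -, -⟩ := NN_sq (r + s) (r * s)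
  rw [wk, WS_eq, coeff_C_mul, cx1, map_sub, map_sub,
    coeff_C_mul, coeff_C_mul, coeff_C_mul, h0, coeff_zero_X_mul, NN, coeff_mk, mN_zero, w1]
  ring

theorem wk_two : wk r s y t 2 = w2 r s y t := by
  obtain ⟨h0, h1, -⟩ := NN_sq (r + s) (r * s)
  rw [wk, WS_eq, coeff_C_mul, cx2, map_sub, map_sub,
    coeff_C_mul, coeff_C_mul, coeff_C_mul, h1, cx1, h0, NN, coeff_mk, mN_one, w2]
  ring

theorem wk_three : wk r s y t 3 = w3 r s y t := by
  obtain ⟨h0, h1, h2⟩ := NN_sq (r + s) (r * s)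
  rw [wk, WS_eq, coeff_C_mul, cx3, map_sub, map_sub,
    coeff_C_mul, coeff_C_mul, coeff_C_mul, h2, cx2, h1, NN, coeff_mk, mN_two, w3]
  ring

/-- The explicit solution solves the Tutte system. -/
theorem tu_wk (h : mx s r y t = 1) : Tu (mx r s y t) 1 y t (wk r s y t) := by
  have hN : NN (r + s) (r * s) = 1 + (C r + C s) * (X * NN (r + s) (r * s))
      + C r * C s * (X ^ 2 * NN (r + s) (r * s) ^ 2) := by
    conv_lhs => rw [NN_eq]
    rw [map_add, map_mul]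
  have h1 := motz_alg (C r) (C s) (C y) (C t) (X : A⟦X⟧) (NN (r + s) (r * s)) hN
  have e1 : mx (C r) (C s) (C y) (C t) = (C (mx r s y t) : A⟦X⟧) := by
    unfold mx; simp only [map_mul, map_sub, map_add, map_pow, map_one, map_ofNat]
  have e2 : mx (C s) (C r) (C y) (C t) = (1 : A⟦X⟧) := by
    rw [← map_one (C (R := A)), ← h]
    unfold mx; simp only [map_mul, map_sub, map_add, map_pow, map_one, map_ofNat]
  have e3 : w1 (C r) (C s) (C y) (C t) = (C (w1 r s y t) : A⟦X⟧) := by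
    unfold w1; simp only [map_mul, map_sub, map_add, map_pow, map_one, map_ofNat]
  have e4 : w2 (C r) (C s) (C y) (C t) = (C (w2 r s y t) : A⟦X⟧) := by
    unfold w2; simp only [map_mul, map_sub, map_add, map_pow, map_one, map_ofNat]
  rw [e1, e2, e3, e4] at h1
  refine tu_of_gen (mx r s y t) 1 y t (WS r s y t) (wk_zero r s y t) ?_
  have f1 : coeff 1 (WS r s y t) = w1 r s y t := wk_one r s y t
  have f2 : coeff 2 (WS r s y t) = w2 r s y t := wk_two r s y t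
  rw [f1, f2, map_one, one_mul]
  exact h1

end

end K5A
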