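import Mathlib

/-!
# K5A.RecIn: the input of the algebra from the map side (graded recursion)

`s κ a b`: simple disks with a boundary of length `2 κ`, `a` quads without a mark and `b` marks
(exponential in the inner vertices, `x` per inner white vertex), used for `κ ≥ 2`.
`g k ℓ m a b`: pairs (path with `ℓ` edges, marked filling between the path and a given path with `m`
edges with the same ends; the first vertex is white iff `k`).
-/

set_option autoImplicit false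

namespace K5A

open Finset
open scoped ENNReal

/-- Bigraded convolution. -/
noncomputable def cv (u v : ℕ → ℕ → ℝ≥0∞) (a b : ℕ) : ℝ≥0∞ :=
  ∑ p ∈ HasAntidiagonal.antidiagonal a, ∑ q ∈ HasAntidiagonal.antidiagonal b, u p.1 q.1 * v p.2 q.2

/-- The unit of the convolution. -/
noncomputable def dl (a b : ℕ) : ℝ≥0∞ := if a = 0 ∧ b = 0 then 1 else 0

/-- Shift of the first grade. -/
noncomputable def shA (u : ℕ → ℕ → ℝ≥0∞) (a b : ℕ) : ℝ≥0∞ := if a = 0 then 0 else u (a - 1) b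

/-- Shift of the second grade. -/
noncomputable def shB (u : ℕ → ℕ → ℝ≥0∞) (a b : ℕ) : ℝ≥0∞ := if b = 0 then 0 else u a (b - 1)

/-- The number of white vertices strictly inside a path of `i` edges whose first vertex is white
iff `k`. -/
def wct (k : Bool) (i : ℕ) : ℕ := if k then (i - 1) / 2 else i / 2

/-- Is the vertex number `i` white? -/
def kat (k : Bool) (i : ℕ) : Bool := if i % 2 = 0 then k else !k

/-- A part with `i` edges above and `j` edges below: a single edge, or a disk. -/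
noncomputable def prt (s : ℕ → ℕ → ℕ → ℝ≥0∞) (i j : ℕ) : ℕ → ℕ → ℝ≥0∞ :=
  if i % 2 = j % 2 then (if i = 1 ∧ j = 1 then dl else s ((i + j) / 2)) else fun _ _ => 0

/-- The graded recursion. -/
structure RecIn (x : ℝ≥0∞) (s : ℕ → ℕ → ℕ → ℝ≥0∞) (g gn : Bool → ℕ → ℕ → ℕ → ℕ → ℝ≥0∞) :
    Prop where
  fin : ∀ κ, 2 ≤ κ → ∀ a b, s κ a b ≠ ∞
  g00 : ∀ k, g k 0 0 = dl
  g0 : ∀ k m, 1 ≤ m → g k 0 m = fun _ _ => 0
  g1 : ∀ k ℓ, 1 ≤ ℓ → g k ℓ 0 = fun _ _ => 0
  step : ∀ k ℓ m, 1 ≤ ℓ → ℓ ≤ 5 → 1 ≤ m → ∀ a b, g k ℓ m a b =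
    ∑ i ∈ Icc 1 ℓ, ∑ j ∈ Icc 1 m, x ^ wct k i * cv (prt s i j) (g (kat k i) (ℓ - i) (m - j)) a b
  ch3 : ∀ κ, 2 ≤ κ → ∀ a b,
    g true 3 (2 * κ - 1) a b = gn true 3 (2 * κ - 1) a b + x * cv (s 2) (s κ) a b
  ch5 : ∀ κ, 2 ≤ κ → ∀ a b,
    g true 5 (2 * κ - 1) a b = gn true 5 (2 * κ - 1) a b + x ^ 2 * cv (s 3) (s κ) a b
  root : ∀ κ, 2 ≤ κ → ∀ a b, s κ a b = shA (gn true 3 (2 * κ - 1)) a b
    + 2 * x * shB (gn true 3 (2 * κ - 1)) a b + shB (gn true 5 (2 * κ - 1)) a b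

end K5A
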