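import Pool.Agent.Lib.K5A.Alg
import Pool.Agent.Lib.K5A.RecIn

/-!
# K5A.Rec: from the recursion by compositions to the equation `E8`
-/

set_option autoImplicit false

namespace K5A

open PowerSeries

variable {R : Type} [CommRing R]

/-- A part, in a ring. -/
def prR (s : ℕ → R) (i j : ℕ) : R :=
  if i % 2 = j % 2 then (if i = 1 ∧ j = 1 then 1 else s ((i + j) / 2)) else 0

/-- The recursion in a ring; `Y` is the weight of a quad without a mark. -/
structure RecR (x Y T : R) (s : ℕ → R) (g : Bool → ℕ → ℕ → R) : Prop where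
  g00 : ∀ k, g k 0 0 = 1
  g0 : ∀ k m, 1 ≤ m → g k 0 m = 0
  g1 : ∀ k ℓ, 1 ≤ ℓ → g k ℓ 0 = 0
  step : ∀ k ℓ m, 1 ≤ ℓ → ℓ ≤ 5 → 1 ≤ m → g k ℓ m =
    ∑ i ∈ Finset.Icc 1 ℓ, ∑ j ∈ Finset.Icc 1 m,
      x ^ wct k i * (prR s i j * g (kat k i) (ℓ - i) (m - j))
  root : ∀ κ, 2 ≤ κ → s κ + (Y + 2 * x * T) * (x * (s 2 * s κ)) + T * (x ^ 2 * (s 3 * s κ)) =
    (Y + 2 * x * T) * g true 3 (2 * κ - 1) + T * g true 5 (2 * κ - 1)

/-- The parts with `i` upper edges, as a power series in the number of lower edges. -/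
noncomputable def PP (s : ℕ → R) (i : ℕ) : R⟦X⟧ :=
  PowerSeries.mk fun j => if j = 0 then 0 else prR s i j

noncomputable def GG (g : Bool → ℕ → ℕ → R) (k : Bool) (ℓ : ℕ) : R⟦X⟧ :=
  PowerSeries.mk fun m => g k ℓ m

/-- `w = v^2`. -/
noncomputable def ex (f : R⟦X⟧) : R⟦X⟧ := PowerSeries.expand 2 two_ne_zero f

theorem ex_even (f : R⟦X⟧) (m : ℕ) : coeff (2 * m) (ex f) = coeff m f := coeff_expand_mul 2 two_ne_zero f m

theorem ex_odd (f : R⟦X⟧) {m : ℕ} (h : m % 2 = 1) : coeff m (ex f) = 0 :=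
  coeff_expand_of_not_dvd 2 two_ne_zero f (by omega)

theorem coeff_ex_eq (f g : R⟦X⟧) (h : ∀ n, coeff (2 * n) (ex f) = coeff n g)
    (h' : ∀ n, n % 2 = 1 → coeff n (ex f) = 0) : ex f = ex g := by
  ext n
  rcases Nat.mod_two_eq_zero_or_one n with h1 | h1
  · obtain ⟨m, rfl⟩ : ∃ m, n = 2 * m := ⟨n / 2, by omega⟩
    rw [h, ex_even]
  · rw [h' n h1, ex_odd g h1]

theorem coeff_X_pow_mul_le (f : R⟦X⟧) {i n : ℕ} (h : i ≤ n) :
    coeff n (X ^ i * f) = coeff (n - i) f := by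
  rw [coeff_X_pow_mul', if_pos h]

theorem coeff_X_pow_mul_lt (f : R⟦X⟧) {i n : ℕ} (h : n < i) : coeff n (X ^ i * f) = 0 := by
  rw [coeff_X_pow_mul', if_neg (by omega)]

theorem pp_low (s : ℕ → R) (i n : ℕ) (h : n ≤ i) : coeff n (X ^ i * PP s i) = 0 := by
  rcases Nat.lt_or_ge n i with h1 | h1
  · exact coeff_X_pow_mul_lt _ h1
  · rw [coeff_X_pow_mul_le _ h1, PP, coeff_mk, if_pos (by omega)]

theorem pp_high (s : ℕ → R) (i n : ℕ) (h : i < n) : coeff n (X ^ i * PP s i) = prR s i (n - i) := by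
  rw [coeff_X_pow_mul_le _ h.le, PP, coeff_mk, if_neg (by omega)]

/-- `v P_1 = F(v^2)`. -/
theorem pp1 (s : ℕ → R) : X ^ 1 * PP s 1 = ex (FF s) := by
  ext n
  rcases Nat.mod_two_eq_zero_or_one n with h1 | h1
  · obtain ⟨m, rfl⟩ : ∃ m, n = 2 * m := ⟨n / 2, by omega⟩
    rw [ex_even]
    rcases m with _ | _ | m
    · rw [pp_low s 1 _ (by omega), FF_coeff_zero]
    · rw [pp_high s 1 _ (by omega), FF_coeff_one, prR, if_pos (by omega), if_pos (by omega)]
    · rw [pp_high s 1 _ (by omega), FF_coeff s (by omega), prR, if_pos (by omega), if_neg (by omega)]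
      congr 1
      omega
  · rw [ex_odd _ h1]
    rcases Nat.lt_or_ge 1 n with h2 | h2
    · rw [pp_high s 1 n h2, prR, if_neg (by omega)]
    · exact pp_low s 1 n h2

theorem coeff_G (s : ℕ → R) (m : ℕ) : coeff m (FF s - X) = if 2 ≤ m then s m else 0 := by
  rw [map_sub, coeff_X]
  rcases m with _ | _ | m
  · rw [FF_coeff_zero]; simp
  · rw [FF_coeff_one]; simp
  · rw [FF_coeff s (by omega), if_neg (by omega), if_pos (by omega), sub_zero]

theorem coeff_H (s : ℕ → R) (m : ℕ) :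
    coeff m (FF s - X - C (s 2) * X ^ 2) = if 3 ≤ m then s m else 0 := by
  rw [map_sub, coeff_G, coeff_C_mul, coeff_X_pow]
  rcases m with _ | _ | _ | m
  · simp
  · simp
  · simp
  · rw [if_pos (by omega), if_neg (by omega), if_pos (by omega), mul_zero, sub_zero]

/-- The general form of the other four parts. -/
theorem ppG (s : ℕ → R) (i : ℕ) (K : R⟦X⟧) (hi : 2 ≤ i)
    (hK : ∀ m, coeff m K = if i < 2 * m then s m else 0) : X ^ i * PP s i = ex K := by
  ext n
  rcases Nat.mod_two_eq_zero_or_one n with h1 | h1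
  · obtain ⟨m, rfl⟩ : ∃ m, n = 2 * m := ⟨n / 2, by omega⟩
    rw [ex_even, hK]
    rcases Nat.lt_or_ge i (2 * m) with h2 | h2
    · rw [pp_high s i _ h2, if_pos h2, prR, if_pos (by omega), if_neg (by omega)]
      congr 1
      omega
    · rw [pp_low s i _ h2, if_neg (by omega)]
  · rw [ex_odd _ h1]
    rcases Nat.lt_or_ge i n with h2 | h2
    · rw [pp_high s i n h2, prR, if_neg (by omega)]
    · exact pp_low s i n h2

theorem pp2 (s : ℕ → R) : X ^ 2 * PP s 2 = ex (FF s - X) :=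
  ppG s 2 _ (by omega) fun m => by
    rw [coeff_G]
    by_cases h : 2 ≤ m
    · rw [if_pos h, if_pos (by omega)]
    · rw [if_neg h, if_neg (by omega)]

theorem pp3 (s : ℕ → R) : X ^ 3 * PP s 3 = ex (FF s - X) :=
  ppG s 3 _ (by omega) fun m => by
    rw [coeff_G]
    by_cases h : 2 ≤ m
    · rw [if_pos h, if_pos (by omega)]
    · rw [if_neg h, if_neg (by omega)]

theorem pp4 (s : ℕ → R) : X ^ 4 * PP s 4 = ex (FF s - X - C (s 2) * X ^ 2) :=
  ppG s 4 _ (by omega) fun m => by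
    rw [coeff_H]
    by_cases h : 3 ≤ m
    · rw [if_pos h, if_pos (by omega)]
    · rw [if_neg h, if_neg (by omega)]

theorem pp5 (s : ℕ → R) : X ^ 5 * PP s 5 = ex (FF s - X - C (s 2) * X ^ 2) :=
  ppG s 5 _ (by omega) fun m => by
    rw [coeff_H]
    by_cases h : 3 ≤ m
    · rw [if_pos h, if_pos (by omega)]
    · rw [if_neg h, if_neg (by omega)]

variable {x Y T : R} {s : ℕ → R} {g : Bool → ℕ → ℕ → R}

theorem RecR.GG_zero (h : RecR x Y T s g) (k : Bool) : GG g k 0 = 1 := by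
  ext m
  rw [GG, coeff_mk, coeff_one]
  rcases m with _ | m
  · rw [h.g00]; simp
  · rw [h.g0 k _ (by omega), if_neg (by omega)]

theorem RecR.GG_step (h : RecR x Y T s g) (k : Bool) {ℓ : ℕ} (h1 : 1 ≤ ℓ) (h2 : ℓ ≤ 5) :
    GG g k ℓ = ∑ i ∈ Finset.Icc 1 ℓ, C (x ^ wct k i) * (PP s i * GG g (kat k i) (ℓ - i)) := by
  ext m
  rw [map_sum, GG, coeff_mk]
  rcases Nat.eq_zero_or_pos m with hm | hm
  · rw [hm, h.g1 k ℓ h1]
    symm
    refine Finset.sum_eq_zero fun i _ => ?_
    rw [coeff_C_mul, coeff_mul]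
    simp [PP]
  · rw [h.step k ℓ m h1 h2 hm]
    refine Finset.sum_congr rfl fun i _ => ?_
    rw [coeff_C_mul, coeff_mul, ← Finset.mul_sum, Finset.Nat.sum_antidiagonal_eq_sum_range_succ
      (fun j j' => coeff j (PP s i) * coeff j' (GG g (kat k i) (ℓ - i)))]
    congr 1
    rw [Finset.sum_range_succ']
    have e0 : coeff 0 (PP s i) = 0 := by rw [PP, coeff_mk, if_pos rfl]
    rw [e0, zero_mul, add_zero, ← Finset.sum_image (s := Finset.range m) (g := fun j => j + 1)
      (f := fun j => coeff j (PP s i) * coeff (m - j) (GG g (kat k i) (ℓ - i))) (by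
        intro a _ b _ hab; exact Nat.succ_injective hab)]
    have e1 : (Finset.range m).image (fun j => j + 1) = Finset.Icc 1 m := by
      ext j
      simp only [Finset.mem_image, Finset.mem_range, Finset.mem_Icc]
      constructor
      · rintro ⟨a, ha, rfl⟩; omega
      · rintro ⟨ha, hb⟩; exact ⟨j - 1, by omega, by omega⟩
    rw [e1]
    refine Finset.sum_congr rfl fun j hj => ?_
    rw [PP, coeff_mk, if_neg (by rw [Finset.mem_Icc] at hj; omega), GG, coeff_mk]

/-- `v^ℓ 𝒢_ℓ`. -/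
noncomputable def qq (g : Bool → ℕ → ℕ → R) (k : Bool) (ℓ : ℕ) : R⟦X⟧ := X ^ ℓ * GG g k ℓ

theorem RecR.q0 (h : RecR x Y T s g) (k : Bool) : qq g k 0 = 1 := by
  rw [qq, h.GG_zero, pow_zero, one_mul]

theorem RecR.qstep (h : RecR x Y T s g) (k : Bool) {ℓ : ℕ} (h1 : 1 ≤ ℓ) (h2 : ℓ ≤ 5) :
    qq g k ℓ = ∑ i ∈ Finset.Icc 1 ℓ,
      C (x ^ wct k i) * ((X ^ i * PP s i) * qq g (kat k i) (ℓ - i)) := by
  rw [qq, h.GG_step k h1 h2, Finset.mul_sum]
  refine Finset.sum_congr rfl fun i hi => ?_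
  rw [Finset.mem_Icc] at hi
  have e : (X : R⟦X⟧) ^ ℓ = X ^ i * X ^ (ℓ - i) := by rw [← pow_add]; congr 1; omega
  rw [e, qq]
  ring

theorem RecR.q1 (h : RecR x Y T s g) (k : Bool) : qq g k 1 = ex (FF s) := by
  rw [h.qstep k le_rfl (by norm_num), Finset.Icc_self, Finset.sum_singleton, pp1, h.q0]
  cases k <;> simp [wct]

theorem RecR.q2 (h : RecR x Y T s g) :
    qq g true 2 = ex (FF s) ^ 2 + ex (FF s - X) ∧
    qq g false 2 = ex (FF s) ^ 2 + C x * ex (FF s - X) := by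
  constructor
  · rw [h.qstep true (by norm_num) (by norm_num), Finset.sum_Icc_succ_top (by norm_num),
      Finset.Icc_self, Finset.sum_singleton, pp1]
    norm_num [h.q0, h.q1, pp2, wct]
    ring
  · rw [h.qstep false (by norm_num) (by norm_num), Finset.sum_Icc_succ_top (by norm_num),
      Finset.Icc_self, Finset.sum_singleton, pp1]
    norm_num [h.q0, h.q1, pp2, wct]
    ring

theorem RecR.q3 (h : RecR x Y T s g) (k : Bool) :
    qq g k 3 = r3 (C x) (ex (FF s)) (ex (FF s - X)) := by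
  obtain ⟨h1, h2⟩ := h.q2
  cases k
  · rw [h.qstep false (by norm_num) (by norm_num), Finset.sum_Icc_succ_top (by norm_num),
      Finset.sum_Icc_succ_top (by norm_num), Finset.Icc_self, Finset.sum_singleton, pp1]
    norm_num [h.q0, h.q1, pp2, pp3, wct, kat, h1, h2, r3]
    ring
  · rw [h.qstep true (by norm_num) (by norm_num), Finset.sum_Icc_succ_top (by norm_num),
      Finset.sum_Icc_succ_top (by norm_num), Finset.Icc_self, Finset.sum_singleton, pp1]
    norm_num [h.q0, h.q1, pp2, pp3, wct, kat, h1, h2, r3]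
    ring

theorem RecR.q4f (h : RecR x Y T s g) :
    qq g false 4 = ex (FF s) ^ 4 + (1 + C x) * ex (FF s) ^ 2 * ex (FF s - X)
      + C x * ex (FF s) * ex (FF s - X) + C x * ex (FF s - X) * (ex (FF s) ^ 2 + C x * ex (FF s - X))
      + C x * ex (FF s - X) * ex (FF s) + C x ^ 2 * ex (FF s - X - C (s 2) * X ^ 2) := by
  obtain ⟨h1, h2⟩ := h.q2
  have h3 := h.q3 true
  rw [h.qstep false (by norm_num) (by norm_num), Finset.sum_Icc_succ_top (by norm_num),
    Finset.sum_Icc_succ_top (by norm_num), Finset.sum_Icc_succ_top (by norm_num),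
    Finset.Icc_self, Finset.sum_singleton, pp1]
  norm_num [h.q0, h.q1, pp2, pp3, pp4, wct, kat, h1, h2, h3, r3]
  ring

theorem RecR.q5 (h : RecR x Y T s g) :
    qq g true 5 = r5 (C x) (ex (FF s)) (ex (FF s - X)) (ex (FF s - X - C (s 2) * X ^ 2)) := by
  obtain ⟨h1, h2⟩ := h.q2
  have h3 := h.q3 true
  have h4 := h.q4f
  rw [h.qstep true (by norm_num) (by norm_num), Finset.sum_Icc_succ_top (by norm_num),
    Finset.sum_Icc_succ_top (by norm_num), Finset.sum_Icc_succ_top (by norm_num),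
    Finset.sum_Icc_succ_top (by norm_num), Finset.Icc_self, Finset.sum_singleton, pp1]
  norm_num [h.q0, h.q1, pp2, pp3, pp4, pp5, wct, kat, h1, h2, h3, h4, r3, r5]
  ring

theorem ex_add (a b : R⟦X⟧) : ex (a + b) = ex a + ex b := map_add _ a b
theorem ex_mul (a b : R⟦X⟧) : ex (a * b) = ex a * ex b := map_mul _ a b
theorem ex_pow (a : R⟦X⟧) (n : ℕ) : ex (a ^ n) = ex a ^ n := map_pow _ a n
theorem ex_one : ex (1 : R⟦X⟧) = 1 := map_one _
theorem ex_C (a : R) : ex (C a : R⟦X⟧) = C a := PowerSeries.expand_C 2 two_ne_zero a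

theorem ex_r3 (a b : R⟦X⟧) : ex (r3 (C x) a b) = r3 (C x) (ex a) (ex b) := by
  unfold r3
  simp only [ex_add, ex_mul, ex_pow, ex_one, ex_C]

theorem ex_two : ex (2 : R⟦X⟧) = 2 := by
  have h := ex_add (1 : R⟦X⟧) 1
  rw [ex_one] at h
  norm_num at h
  exact h

theorem ex_three : ex (3 : R⟦X⟧) = 3 := by
  have h := ex_add (2 : R⟦X⟧) 1
  rw [ex_one, ex_two] at h
  norm_num at h
  exact h

theorem ex_r5 (a b c : R⟦X⟧) : ex (r5 (C x) a b c) = r5 (C x) (ex a) (ex b) (ex c) := by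
  unfold r5
  simp only [ex_add, ex_mul, ex_pow, ex_one, ex_C, ex_two, ex_three]

/-- The recursion gives the equation `E8`. -/
theorem RecR.e8 (h : RecR x Y T s g) : E8 x (Y - 2 * T) T s := by
  have c3 : ∀ n, coeff n (r3 (C x) (FF s) (FF s - X)) = coeff (2 * n) (qq g true 3) := by
    intro n
    rw [h.q3, ← ex_r3, ex_even]
  have c5 : ∀ n, coeff n (r5 (C x) (FF s) (FF s - X) (FF s - X - C (s 2) * X ^ 2))
      = coeff (2 * n) (qq g true 5) := by
    intro n
    rw [h.q5, ← ex_r5, ex_even]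
  have k3 : ∀ n, coeff n (qq g true 3) = if 3 ≤ n then g true 3 (n - 3) else 0 := by
    intro n
    rw [qq, coeff_X_pow_mul', GG]
    split_ifs
    · rw [coeff_mk]
    · rfl
  have k5 : ∀ n, coeff n (qq g true 5) = if 5 ≤ n then g true 5 (n - 5) else 0 := by
    intro n
    rw [qq, coeff_X_pow_mul', GG]
    split_ifs
    · rw [coeff_mk]
    · rfl
  -- the values for one lower edge
  have g31 : g true 3 1 = x * s 2 := by
    rw [h.step true 3 1 (by norm_num) (by norm_num) le_rfl, Finset.sum_Icc_succ_top (by norm_num),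
      Finset.sum_Icc_succ_top (by norm_num), Finset.Icc_self, Finset.sum_singleton,
      Finset.sum_singleton, Finset.sum_singleton, Finset.sum_singleton]
    norm_num [wct, kat, h.g1, h.g00, prR]
  have g51 : g true 5 1 = x ^ 2 * s 3 := by
    rw [h.step true 5 1 (by norm_num) (by norm_num) le_rfl, Finset.sum_Icc_succ_top (by norm_num),
      Finset.sum_Icc_succ_top (by norm_num), Finset.sum_Icc_succ_top (by norm_num),
      Finset.sum_Icc_succ_top (by norm_num), Finset.Icc_self, Finset.sum_singleton,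
      Finset.sum_singleton, Finset.sum_singleton, Finset.sum_singleton, Finset.sum_singleton,
      Finset.sum_singleton]
    norm_num [wct, kat, h.g1, h.g00, prR]
  unfold E8
  ext n
  rw [mul_assoc (C _) (X ^ 2) (FF s), mul_assoc (C _) X (r3 _ _ _), map_add (coeff n),
    map_add (coeff n), coeff_C_mul, coeff_C_mul, coeff_C_mul, c5, k5, coeff_X_pow_mul', coeff_X_pow]
  have e1 : coeff n (X * r3 (C x) (FF s) (FF s - X)) =
      if 1 ≤ n then coeff (n - 1) (r3 (C x) (FF s) (FF s - X)) else 0 := by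
    rw [← pow_one (X : R⟦X⟧), coeff_X_pow_mul']
  rw [e1, c3, k3]
  rcases n with _ | _ | _ | _ | n
  · norm_num
  · norm_num
  · norm_num [FF_coeff_zero]
  · norm_num [FF_coeff_one, g31, g51]
    ring
  · have h2 := h.root (n + 2) (by omega)
    have a1 : coeff (n + 1 + 1 + 1 + 1 - 2) (FF s) = s (n + 2) := by
      rw [show n + 1 + 1 + 1 + 1 - 2 = n + 2 by omega, FF_coeff s (by omega)]
    rw [if_pos (by omega), if_neg (by omega), if_pos (by omega), if_pos (by omega),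
      if_pos (by omega), a1, show 2 * (n + 1 + 1 + 1 + 1 - 1) - 3 = 2 * (n + 2) - 1 by omega,
      show 2 * (n + 1 + 1 + 1 + 1) - 5 = 2 * (n + 2) - 1 by omega]
    linear_combination h2

end K5A
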