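import Pool.Agent.Lib.K5A.Ev

/-!
# K5A.Sub: substitution of a power series for the outer variable of `K⟦X⟧⟦X⟧`
-/

set_option autoImplicit false

namespace K5A

open PowerSeries

variable {K : Type} [CommRing K]

/-- A multiple of `X ^ a` has no coefficient below `a`. -/
theorem coeff_mul_pow_zero {Z : K⟦X⟧} (hZ : constantCoeff Z = 0) (g : K⟦X⟧) {n a : ℕ} (h : n < a) :
    coeff n (g * Z ^ a) = 0 := by
  have h1 : X ^ a ∣ g * Z ^ a := Dvd.dvd.mul_left (pow_dvd_pow_of_dvd (X_dvd_iff.2 hZ) a) g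
  exact X_pow_dvd_iff.1 h1 n h

/-- `∑ f_a Z^a`. -/
noncomputable def eZ (Z : K⟦X⟧) (f : K⟦X⟧⟦X⟧) : K⟦X⟧ :=
  PowerSeries.mk fun n => coeff n ((trunc (n + 1) f).eval Z)

theorem eval_trunc (Z : K⟦X⟧) (f : K⟦X⟧⟦X⟧) (N : ℕ) :
    (trunc N f).eval Z = ∑ a ∈ Finset.range N, coeff a f * Z ^ a :=
  eval₂_trunc_eq_sum_range Z (RingHom.id _) N f

theorem coeff_eval_low {Z : K⟦X⟧} (hZ : constantCoeff Z = 0) (p : Polynomial K⟦X⟧) {N : ℕ}
    (hp : ∀ a < N, p.coeff a = 0) {n : ℕ} (h : n < N) : coeff n (p.eval Z) = 0 := by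
  rw [Polynomial.eval_eq_sum_range, map_sum]
  refine Finset.sum_eq_zero fun a _ => ?_
  rcases Nat.lt_or_ge a N with h1 | h1
  · rw [hp a h1, zero_mul, map_zero]
  · exact coeff_mul_pow_zero hZ _ (by omega)

theorem coeff_eval_congr {Z : K⟦X⟧} (hZ : constantCoeff Z = 0) (p q : Polynomial K⟦X⟧) {N : ℕ}
    (hp : ∀ a < N, p.coeff a = q.coeff a) {n : ℕ} (h : n < N) :
    coeff n (p.eval Z) = coeff n (q.eval Z) := by
  have h1 := coeff_eval_low hZ (p - q) (N := N) (fun a ha => by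
    rw [Polynomial.coeff_sub, hp a ha, sub_self]) h
  rw [Polynomial.eval_sub, map_sub, sub_eq_zero] at h1
  exact h1

theorem coeff_eZ_eq {Z : K⟦X⟧} (hZ : constantCoeff Z = 0) (f : K⟦X⟧⟦X⟧) (p : Polynomial K⟦X⟧) {n : ℕ}
    (hp : ∀ a ≤ n, p.coeff a = coeff a f) : coeff n (eZ Z f) = coeff n (p.eval Z) := by
  rw [eZ, coeff_mk]
  refine coeff_eval_congr hZ _ _ (N := n + 1) (fun a ha => ?_) (Nat.lt_succ_self n)
  rw [coeff_trunc, if_pos ha, hp a (by omega)]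

theorem coeff_eZ (Z : K⟦X⟧) (f : K⟦X⟧⟦X⟧) (n : ℕ) :
    coeff n (eZ Z f) = ∑ a ∈ Finset.range (n + 1), coeff n (coeff a f * Z ^ a) := by
  rw [eZ, coeff_mk, eval_trunc, map_sum]

theorem eZ_mul {Z : K⟦X⟧} (hZ : constantCoeff Z = 0) (f g : K⟦X⟧⟦X⟧) :
    eZ Z (f * g) = eZ Z f * eZ Z g := by
  ext n
  rw [coeff_eZ_eq hZ (f * g) (trunc (n + 1) f * trunc (n + 1) g) (fun a ha => by
    rw [← Polynomial.coeff_coe, Polynomial.coe_mul, ← coeff_mul_eq_coeff_trunc_mul_trunc f g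
      (show a < n + 1 by omega)])]
  rw [Polynomial.eval_mul, coeff_mul, coeff_mul]
  refine Finset.sum_congr rfl fun p hp => ?_
  have h3 : p.1 + p.2 = n := by simpa using Finset.HasAntidiagonal.mem_antidiagonal.1 hp
  rw [coeff_eZ_eq hZ f (trunc (n + 1) f) (fun a ha => by rw [coeff_trunc, if_pos (by omega)]),
    coeff_eZ_eq hZ g (trunc (n + 1) g) (fun a ha => by rw [coeff_trunc, if_pos (by omega)])]

theorem eZ_add (Z : K⟦X⟧) (f g : K⟦X⟧⟦X⟧) : eZ Z (f + g) = eZ Z f + eZ Z g := by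
  ext n
  rw [map_add, coeff_eZ, coeff_eZ, coeff_eZ, ← Finset.sum_add_distrib]
  exact Finset.sum_congr rfl fun a _ => by rw [map_add, add_mul, map_add]

theorem eZ_C (Z : K⟦X⟧) (c : K⟦X⟧) : eZ Z (C c) = c := by
  ext n
  rw [coeff_eZ, Finset.sum_eq_single 0]
  · simp
  · intro a _ ha
    rw [coeff_C, if_neg ha, zero_mul, map_zero]
  · intro h; simp at h

theorem eZ_X {Z : K⟦X⟧} (hZ : constantCoeff Z = 0) : eZ Z X = Z := by
  ext n
  rcases n with _ | n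
  · rw [coeff_eZ]
    simp [hZ]
  · rw [coeff_eZ, Finset.sum_eq_single 1]
    · simp
    · intro a _ ha
      rw [coeff_X, if_neg ha, zero_mul, map_zero]
    · intro h; simp at h

/-- Substitution as a ring homomorphism. -/
noncomputable def eH {Z : K⟦X⟧} (hZ : constantCoeff Z = 0) : K⟦X⟧⟦X⟧ →+* K⟦X⟧ where
  toFun := eZ Z
  map_one' := by rw [← map_one (C (R := K⟦X⟧)), eZ_C]
  map_zero' := by rw [← map_zero (C (R := K⟦X⟧)), eZ_C]
  map_add' := eZ_add Z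
  map_mul' := eZ_mul hZ

theorem eH_apply {Z : K⟦X⟧} (hZ : constantCoeff Z = 0) (f : K⟦X⟧⟦X⟧) : eH hZ f = eZ Z f := rfl

/-! ### Two variables -/

/-- `∑ u_(a,b) Y^a T^b`. -/
noncomputable def E2 (Y T : K⟦X⟧) (u : ℕ → ℕ → K) : K⟦X⟧ :=
  eZ Y (PowerSeries.mk fun a => eZ T (PowerSeries.mk fun b => C (u a b)))

/-- Bigraded convolution in a ring. -/
def cvR (u v : ℕ → ℕ → K) (a b : ℕ) : K :=
  ∑ p ∈ Finset.HasAntidiagonal.antidiagonal a, ∑ q ∈ Finset.HasAntidiagonal.antidiagonal b,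
    u p.1 q.1 * v p.2 q.2

theorem E2_mul {Y T : K⟦X⟧} (hY : constantCoeff Y = 0) (hT : constantCoeff T = 0)
    (u v : ℕ → ℕ → K) : E2 Y T (cvR u v) = E2 Y T u * E2 Y T v := by
  rw [E2, E2, E2, ← eZ_mul hY]
  congr 1
  ext1 a
  rw [coeff_mul, coeff_mk]
  simp only [coeff_mk]
  rw [show (∑ p ∈ Finset.HasAntidiagonal.antidiagonal a,
      eZ T (PowerSeries.mk fun b => C (u p.1 b)) * eZ T (PowerSeries.mk fun b => C (v p.2 b)))
    = eH hT (∑ p ∈ Finset.HasAntidiagonal.antidiagonal a,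
        (PowerSeries.mk fun b => C (u p.1 b)) * (PowerSeries.mk fun b => C (v p.2 b))) by
      rw [map_sum]
      exact Finset.sum_congr rfl fun p _ => (eZ_mul hT _ _).symm, eH_apply]
  congr 1
  ext1 b
  rw [coeff_mk, map_sum, cvR, map_sum]
  refine Finset.sum_congr rfl fun p _ => ?_
  rw [coeff_mul, map_sum]
  exact Finset.sum_congr rfl fun q _ => by rw [coeff_mk, coeff_mk, map_mul]

theorem E2_add (Y T : K⟦X⟧) (u v : ℕ → ℕ → K) :
    E2 Y T (fun a b => u a b + v a b) = E2 Y T u + E2 Y T v := by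
  rw [E2, E2, E2, ← eZ_add]
  congr 1
  ext1 a
  rw [map_add, coeff_mk, coeff_mk, coeff_mk, ← eZ_add]
  congr 1
  ext1 b
  rw [map_add, coeff_mk, coeff_mk, coeff_mk, map_add]

theorem E2_smul {Y T : K⟦X⟧} (hY : constantCoeff Y = 0) (hT : constantCoeff T = 0) (c : K)
    (u : ℕ → ℕ → K) : E2 Y T (fun a b => c * u a b) = C c * E2 Y T u := by
  rw [E2, E2]
  conv_rhs => rw [← eZ_C Y (C c), ← eZ_mul hY]
  congr 1
  ext1 a
  rw [coeff_C_mul, coeff_mk, coeff_mk]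
  conv_rhs => rw [← eZ_C T (C c), ← eZ_mul hT]
  congr 1
  ext1 b
  rw [coeff_C_mul, coeff_mk, coeff_mk, map_mul]

theorem E2_zero (Y T : K⟦X⟧) : E2 Y T (fun _ _ => (0 : K)) = 0 := by
  have h : (PowerSeries.mk fun b : ℕ => (C (0 : K) : K⟦X⟧)) = C 0 := by
    ext1 b
    rw [coeff_mk, coeff_C, map_zero]
    split_ifs <;> rfl
  have h2 : (PowerSeries.mk fun a : ℕ => eZ T (PowerSeries.mk fun b : ℕ => (C (0 : K) : K⟦X⟧)))
      = C 0 := by
    ext1 a
    rw [coeff_mk, h, eZ_C, coeff_C]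
    split_ifs <;> rfl
  rw [E2, h2, eZ_C]

theorem E2_one (Y T : K⟦X⟧) : E2 Y T (fun a b => if a = 0 ∧ b = 0 then (1 : K) else 0) = 1 := by
  have h2 : (PowerSeries.mk fun a : ℕ => eZ T (PowerSeries.mk fun b : ℕ =>
      (C (if a = 0 ∧ b = 0 then (1 : K) else 0) : K⟦X⟧))) = C 1 := by
    ext1 a
    rw [coeff_mk, coeff_C]
    by_cases ha : a = 0
    · have h : (PowerSeries.mk fun b : ℕ => (C (if a = 0 ∧ b = 0 then (1 : K) else 0) : K⟦X⟧))
          = C 1 := by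
        ext1 b
        rw [coeff_mk, coeff_C]
        by_cases hb : b = 0
        · simp [ha, hb]
        · simp [ha, hb]
      rw [h, eZ_C, if_pos ha]
    · have h : (PowerSeries.mk fun b : ℕ => (C (if a = 0 ∧ b = 0 then (1 : K) else 0) : K⟦X⟧))
          = C 0 := by
        ext1 b
        rw [coeff_mk, coeff_C]
        simp [ha]
      rw [h, eZ_C, if_neg ha]
  rw [E2, h2, eZ_C]

/-- Shift of the first grade. -/
theorem E2_shA {Y T : K⟦X⟧} (hY : constantCoeff Y = 0) (u : ℕ → ℕ → K) :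
    E2 Y T (fun a b => if a = 0 then 0 else u (a - 1) b) = Y * E2 Y T u := by
  rw [E2, E2]
  conv_rhs => rw [← eZ_X hY]
  rw [eZ_X hY]
  conv_rhs => rw [show Y * eZ Y (PowerSeries.mk fun a => eZ T (PowerSeries.mk fun b => C (u a b)))
    = eZ Y X * eZ Y (PowerSeries.mk fun a => eZ T (PowerSeries.mk fun b => C (u a b))) by
      rw [eZ_X hY], ← eZ_mul hY]
  congr 1
  ext1 a
  rcases a with _ | a
  · rw [coeff_zero_X_mul, coeff_mk]
    have h : (PowerSeries.mk fun b : ℕ => (C (if 0 = 0 then (0 : K) else u (0 - 1) b) : K⟦X⟧))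
          = C 0 := by
      ext1 b
      rw [coeff_mk, coeff_C]
      simp
    rw [h, eZ_C]
  · rw [coeff_succ_X_mul, coeff_mk, coeff_mk]
    congr 1

/-- Shift of the second grade. -/
theorem E2_shB {Y T : K⟦X⟧} (hY : constantCoeff Y = 0) (hT : constantCoeff T = 0) (u : ℕ → ℕ → K) :
    E2 Y T (fun a b => if b = 0 then 0 else u a (b - 1)) = T * E2 Y T u := by
  rw [E2, E2]
  conv_rhs => rw [show T * eZ Y (PowerSeries.mk fun a => eZ T (PowerSeries.mk fun b => C (u a b)))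
    = eZ Y (C T) * eZ Y (PowerSeries.mk fun a => eZ T (PowerSeries.mk fun b => C (u a b))) by
      rw [eZ_C], ← eZ_mul hY]
  congr 1
  ext1 a
  rw [coeff_C_mul, coeff_mk, coeff_mk]
  conv_rhs => rw [show T * eZ T (PowerSeries.mk fun b => C (u a b))
    = eZ T X * eZ T (PowerSeries.mk fun b => C (u a b)) by rw [eZ_X hT], ← eZ_mul hT]
  congr 1
  ext1 b
  rcases b with _ | b
  · rw [coeff_zero_X_mul, coeff_mk]; simp
  · rw [coeff_succ_X_mul, coeff_mk, coeff_mk]; simp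

end K5A
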