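import Pool.Agent.Lib.K5A.Rec
import Pool.Agent.Lib.K5A.Sub

/-!
# K5A.RecMap: the graded recursion, with weights `Y`, `T` in `ℝ⟦X⟧`
-/

set_option autoImplicit false

namespace K5A

open PowerSeries
open scoped ENNReal

/-- Real coefficients. -/
noncomputable def tR (u : ℕ → ℕ → ℝ≥0∞) : ℕ → ℕ → ℝ := fun a b => (u a b).toReal

/-- `∑ u_(a,b) Y^a T^b` with the real parts. -/
noncomputable def EE (Y T : ℝ⟦X⟧) (u : ℕ → ℕ → ℝ≥0∞) : ℝ⟦X⟧ := E2 Y T (tR u)

theorem E2_sum {K ι : Type} [CommRing K] (Y T : K⟦X⟧) (s : Finset ι) (u : ι → ℕ → ℕ → K) :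
    E2 Y T (fun a b => ∑ i ∈ s, u i a b) = ∑ i ∈ s, E2 Y T (u i) := by
  classical
  induction s using Finset.induction_on with
  | empty => simp only [Finset.sum_empty]; exact E2_zero Y T
  | insert i s hi ih =>
    simp only [Finset.sum_insert hi]
    rw [E2_add Y T (u i) (fun a b => ∑ i ∈ s, u i a b), ih]

/-- All values are finite. -/
def Fin2 (u : ℕ → ℕ → ℝ≥0∞) : Prop := ∀ a b, u a b ≠ ∞

theorem Fin2.cv {u v : ℕ → ℕ → ℝ≥0∞} (hu : Fin2 u) (hv : Fin2 v) : Fin2 (cv u v) := fun a b =>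
  ENNReal.sum_ne_top.2 fun p _ => ENNReal.sum_ne_top.2 fun q _ =>
    ENNReal.mul_ne_top (hu _ _) (hv _ _)

theorem tR_cv {u v : ℕ → ℕ → ℝ≥0∞} (hu : Fin2 u) (hv : Fin2 v) : tR (cv u v) = cvR (tR u) (tR v) := by
  funext a b
  unfold tR cv cvR
  rw [ENNReal.toReal_sum fun p _ => ENNReal.sum_ne_top.2 fun q _ =>
    ENNReal.mul_ne_top (hu _ _) (hv _ _)]
  refine Finset.sum_congr rfl fun p _ => ?_
  rw [ENNReal.toReal_sum fun q _ => ENNReal.mul_ne_top (hu _ _) (hv _ _)]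
  exact Finset.sum_congr rfl fun q _ => ENNReal.toReal_mul

theorem fin2_dl : Fin2 dl := fun a b => by
  unfold dl; split_ifs
  · exact ENNReal.one_ne_top
  · exact ENNReal.zero_ne_top

theorem fin2_zero : Fin2 (fun _ _ => 0) := fun _ _ => ENNReal.zero_ne_top

theorem Fin2.shA {u : ℕ → ℕ → ℝ≥0∞} (hu : Fin2 u) : Fin2 (shA u) := fun a b => by
  unfold K5A.shA; split_ifs
  · exact ENNReal.zero_ne_top
  · exact hu _ _

theorem Fin2.shB {u : ℕ → ℕ → ℝ≥0∞} (hu : Fin2 u) : Fin2 (shB u) := fun a b => by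
  unfold K5A.shB; split_ifs
  · exact ENNReal.zero_ne_top
  · exact hu _ _

section

variable {Y T : ℝ⟦X⟧} (hY : constantCoeff Y = 0) (hT : constantCoeff T = 0)

include hY hT

theorem EE_cv {u v : ℕ → ℕ → ℝ≥0∞} (hu : Fin2 u) (hv : Fin2 v) :
    EE Y T (cv u v) = EE Y T u * EE Y T v := by
  rw [EE, tR_cv hu hv, E2_mul hY hT, EE, EE]

omit hY hT in
theorem EE_dl : EE Y T dl = 1 := by
  rw [EE, ← E2_one Y T]
  congr 1
  funext a b
  unfold tR dl
  split_ifs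
  · exact ENNReal.toReal_one
  · exact ENNReal.toReal_zero

omit hY hT in
theorem EE_zero : EE Y T (fun _ _ => 0) = 0 := by
  rw [EE, ← E2_zero Y T]
  rfl

omit hY hT in
theorem EE_add {u v : ℕ → ℕ → ℝ≥0∞} (hu : Fin2 u) (hv : Fin2 v) :
    EE Y T (fun a b => u a b + v a b) = EE Y T u + EE Y T v := by
  rw [EE, EE, EE, ← E2_add]
  congr 1
  funext a b
  exact ENNReal.toReal_add (hu a b) (hv a b)

theorem EE_mulC {u : ℕ → ℕ → ℝ≥0∞} (c : ℝ≥0∞) :
    EE Y T (fun a b => c * u a b) = C c.toReal * EE Y T u := by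
  rw [EE, EE, ← E2_smul hY hT]
  congr 1
  funext a b
  exact ENNReal.toReal_mul

omit hT in
theorem EE_shA {u : ℕ → ℕ → ℝ≥0∞} : EE Y T (shA u) = Y * EE Y T u := by
  rw [EE, EE, ← E2_shA hY]
  congr 1
  funext a b
  unfold tR shA
  split_ifs
  · exact ENNReal.toReal_zero
  · rfl

theorem EE_shB {u : ℕ → ℕ → ℝ≥0∞} : EE Y T (shB u) = T * EE Y T u := by
  rw [EE, EE, ← E2_shB hY hT]
  congr 1
  funext a b
  unfold tR shB
  split_ifs
  · exact ENNReal.toReal_zero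
  · rfl

end

theorem fin2_prt {s : ℕ → ℕ → ℕ → ℝ≥0∞} (hs : ∀ κ, 2 ≤ κ → Fin2 (s κ)) {i j : ℕ} (hi : 1 ≤ i)
    (hj : 1 ≤ j) : Fin2 (prt s i j) := by
  unfold prt
  split_ifs with h1 h2
  · exact fin2_dl
  · refine hs _ ?_
    rcases Nat.lt_or_ge i 2 with h3 | h3
    · have : i = 1 := by omega
      subst this
      have : j ≠ 1 := fun h => h2 ⟨rfl, h⟩
      omega
    · omega
  · exact fin2_zero

theorem EE_prt (Y T : ℝ⟦X⟧) (s : ℕ → ℕ → ℕ → ℝ≥0∞) (i j : ℕ) :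
    EE Y T (prt s i j) = prR (fun κ => EE Y T (s κ)) i j := by
  unfold prt prR
  split_ifs
  · exact EE_dl
  · rfl
  · exact EE_zero

variable {x : ℝ≥0∞} {s : ℕ → ℕ → ℕ → ℝ≥0∞} {g gn : Bool → ℕ → ℕ → ℕ → ℕ → ℝ≥0∞}

theorem RecIn.fin_g (h : RecIn x s g gn) (hx : x ≠ ∞) (ℓ : ℕ) :
    ℓ ≤ 5 → ∀ k m, Fin2 (g k ℓ m) := by
  induction ℓ using Nat.strong_induction_on with
  | _ ℓ ih =>
    intro hℓ k m
    rcases Nat.eq_zero_or_pos ℓ with h0 | h0
    · subst h0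
      rcases Nat.eq_zero_or_pos m with h1 | h1
      · subst h1; rw [h.g00]; exact fin2_dl
      · rw [h.g0 k m h1]; exact fin2_zero
    · rcases Nat.eq_zero_or_pos m with h1 | h1
      · subst h1; rw [h.g1 k ℓ h0]; exact fin2_zero
      · intro a b
        rw [h.step k ℓ m h0 hℓ h1]
        refine ENNReal.sum_ne_top.2 fun i hi => ENNReal.sum_ne_top.2 fun j hj => ?_
        rw [Finset.mem_Icc] at hi hj
        exact ENNReal.mul_ne_top (ENNReal.pow_ne_top hx)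
          ((fin2_prt h.fin hi.1 hj.1).cv (ih (ℓ - i) (by omega) (by omega) _ _) a b)

theorem RecIn.toR (h : RecIn x s g gn) (hx : x ≠ ∞) {Y T : ℝ⟦X⟧} (hY : constantCoeff Y = 0)
    (hT : constantCoeff T = 0) :
    RecR (C x.toReal) Y T (fun κ => EE Y T (s κ)) (fun k ℓ m => EE Y T (g k ℓ m)) := by
  refine ⟨fun k => ?_, fun k m hm => ?_, fun k ℓ hℓ => ?_, fun k ℓ m h1 h2 h3 => ?_, fun κ hκ => ?_⟩
  · rw [h.g00]; exact EE_dl
  · rw [h.g0 k m hm]; exact EE_zero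
  · rw [h.g1 k ℓ hℓ]; exact EE_zero
  · have e : g k ℓ m = fun a b => ∑ i ∈ Finset.Icc 1 ℓ, ∑ j ∈ Finset.Icc 1 m,
        x ^ wct k i * cv (prt s i j) (g (kat k i) (ℓ - i) (m - j)) a b := by
      funext a b
      exact h.step k ℓ m h1 h2 h3 a b
    have f : ∀ i ∈ Finset.Icc 1 ℓ, ∀ j ∈ Finset.Icc 1 m,
        Fin2 (cv (prt s i j) (g (kat k i) (ℓ - i) (m - j))) := by
      intro i hi j hj
      rw [Finset.mem_Icc] at hi hj
      exact (fin2_prt h.fin hi.1 hj.1).cv (h.fin_g hx (ℓ - i) (by omega) _ _)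
    have e' : tR (g k ℓ m) = fun a b => ∑ i ∈ Finset.Icc 1 ℓ, ∑ j ∈ Finset.Icc 1 m,
        tR (fun a b => x ^ wct k i * cv (prt s i j) (g (kat k i) (ℓ - i) (m - j)) a b) a b := by
      funext a b
      rw [e]
      unfold tR
      rw [ENNReal.toReal_sum fun i hi => ENNReal.sum_ne_top.2 fun j hj =>
        ENNReal.mul_ne_top (ENNReal.pow_ne_top hx) (f i hi j hj a b)]
      refine Finset.sum_congr rfl fun i hi => ?_
      rw [ENNReal.toReal_sum fun j hj => ENNReal.mul_ne_top (ENNReal.pow_ne_top hx) (f i hi j hj a b)]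
    show E2 Y T (tR (g k ℓ m)) = _
    rw [e', E2_sum]
    refine Finset.sum_congr rfl fun i hi => ?_
    rw [E2_sum]
    refine Finset.sum_congr rfl fun j hj => ?_
    rw [Finset.mem_Icc] at hi hj
    have e3 := EE_mulC hY hT (u := cv (prt s i j) (g (kat k i) (ℓ - i) (m - j))) (x ^ wct k i)
    rw [EE] at e3
    rw [e3, EE_cv hY hT (fin2_prt h.fin hi.1 hj.1) (h.fin_g hx (ℓ - i) (by omega) _ _), EE_prt,
      ENNReal.toReal_pow, map_pow]
  · have f3 : Fin2 (g true 3 (2 * κ - 1)) := h.fin_g hx 3 (by norm_num) _ _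
    have f5 : Fin2 (g true 5 (2 * κ - 1)) := h.fin_g hx 5 (by norm_num) _ _
    have n3 : Fin2 (gn true 3 (2 * κ - 1)) := fun a b => by
      have := f3 a b
      rw [h.ch3 κ hκ a b] at this
      exact (ENNReal.add_ne_top.1 this).1
    have n5 : Fin2 (gn true 5 (2 * κ - 1)) := fun a b => by
      have := f5 a b
      rw [h.ch5 κ hκ a b] at this
      exact (ENNReal.add_ne_top.1 this).1
    have s2 : Fin2 (cv (s 2) (s κ)) := Fin2.cv (h.fin 2 le_rfl) (h.fin κ hκ)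
    have s3 : Fin2 (cv (s 3) (s κ)) := Fin2.cv (h.fin 3 (by norm_num)) (h.fin κ hκ)
    have xs2 : Fin2 (fun a b => x * cv (s 2) (s κ) a b) := fun a b => ENNReal.mul_ne_top hx (s2 a b)
    have xs3 : Fin2 (fun a b => x ^ 2 * cv (s 3) (s κ) a b) := fun a b =>
      ENNReal.mul_ne_top (ENNReal.pow_ne_top hx) (s3 a b)
    have E3 : EE Y T (g true 3 (2 * κ - 1)) = EE Y T (gn true 3 (2 * κ - 1))
        + C x.toReal * (EE Y T (s 2) * EE Y T (s κ)) := by
      rw [← EE_cv hY hT (h.fin 2 le_rfl) (h.fin κ hκ), ← EE_mulC hY hT x, ← EE_add n3 xs2]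
      congr 1
      funext a b
      exact h.ch3 κ hκ a b
    have E5 : EE Y T (g true 5 (2 * κ - 1)) = EE Y T (gn true 5 (2 * κ - 1))
        + C (x ^ 2).toReal * (EE Y T (s 3) * EE Y T (s κ)) := by
      rw [← EE_cv hY hT (h.fin 3 (by norm_num)) (h.fin κ hκ), ← EE_mulC hY hT (x ^ 2),
        ← EE_add n5 xs3]
      congr 1
      funext a b
      exact h.ch5 κ hκ a b
    have hR : EE Y T (s κ) = Y * EE Y T (gn true 3 (2 * κ - 1))
        + C (2 * x).toReal * (T * EE Y T (gn true 3 (2 * κ - 1)))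
        + T * EE Y T (gn true 5 (2 * κ - 1)) := by
      have h2x : (2 * x) ≠ ∞ := ENNReal.mul_ne_top (by norm_num) hx
      have m1 : Fin2 (fun a b => 2 * x * shB (gn true 3 (2 * κ - 1)) a b) := fun a b =>
        ENNReal.mul_ne_top h2x (n3.shB a b)
      rw [← EE_shA hY, ← EE_shB hY hT, ← EE_shB hY hT, ← EE_mulC hY hT (2 * x),
        ← EE_add n3.shA m1, ← EE_add (fun a b => ENNReal.add_ne_top.2 ⟨n3.shA a b, m1 a b⟩) n5.shB]
      congr 1
      funext a b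
      exact h.root κ hκ a b
    have c2 : (C (2 * x).toReal : ℝ⟦X⟧) = 2 * C x.toReal := by
      rw [ENNReal.toReal_mul, map_mul]
      rfl
    have cp : (C (x ^ 2).toReal : ℝ⟦X⟧) = C x.toReal ^ 2 := by rw [ENNReal.toReal_pow, map_pow]
    rw [c2] at hR
    rw [cp] at E5
    show EE Y T (s κ) + (Y + 2 * C x.toReal * T) * (C x.toReal * (EE Y T (s 2) * EE Y T (s κ)))
      + T * (C x.toReal ^ 2 * (EE Y T (s 3) * EE Y T (s κ))) =
      (Y + 2 * C x.toReal * T) * EE Y T (g true 3 (2 * κ - 1)) + T * EE Y T (g true 5 (2 * κ - 1))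
    rw [E3, E5]
    linear_combination hR

/-- The equation `E8` over `ℝ⟦X⟧`. -/
theorem RecIn.e8 (h : RecIn x s g gn) (hx : x ≠ ∞) {Y T : ℝ⟦X⟧} (hY : constantCoeff Y = 0)
    (hT : constantCoeff T = 0) : E8 (C x.toReal) (Y - 2 * T) T (fun κ => EE Y T (s κ)) :=
  (h.toR hx hY hT).e8

end K5A
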