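import Pool.Agent.Lib.K5A.RecMap

/-!
# K5A.Val: values of the substituted series in `ℝ≥0∞`
-/

set_option autoImplicit false

namespace K5A

open PowerSeries
open scoped ENNReal

variable {l : ℝ}

theorem tsum_mul_tsum_E (f g : ℕ → ℝ≥0∞) :
    (∑' n, f n) * (∑' n, g n) =
      ∑' n, ∑ p ∈ Finset.HasAntidiagonal.antidiagonal n, f p.1 * g p.2 := by
  rw [← ENNReal.tsum_mul_right]
  simp only [← ENNReal.tsum_mul_left]
  rw [← ENNReal.tsum_prod (f := fun a b => f a * g b),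
    ← (Finset.HasAntidiagonal.sigmaAntidiagonalEquivProd (A := ℕ)).tsum_eq
      (fun p : ℕ × ℕ => f p.1 * g p.2), ENNReal.tsum_sigma']
  refine tsum_congr fun n => ?_
  rw [tsum_fintype]
  exact Finset.sum_coe_sort (Finset.HasAntidiagonal.antidiagonal n) (fun p => f p.1 * g p.2)

theorem evE_mul (hl : 0 ≤ l) {f g : ℝ⟦X⟧} (hf : Nn f) (hg : Nn g) :
    evE l (f * g) = evE l f * evE l g := by
  unfold evE
  rw [tsum_mul_tsum_E]
  refine tsum_congr fun n => ?_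
  rw [coeff_mul_pow, ENNReal.ofReal_sum_of_nonneg fun p _ => mul_nonneg
    (mul_nonneg (hf _) (pow_nonneg hl _)) (mul_nonneg (hg _) (pow_nonneg hl _))]
  exact Finset.sum_congr rfl fun p _ => ENNReal.ofReal_mul (mul_nonneg (hf _) (pow_nonneg hl _))

theorem evE_one : evE l (1 : ℝ⟦X⟧) = 1 := by
  unfold evE
  rw [tsum_eq_single 0 (fun n hn => by rw [coeff_one, if_neg hn, zero_mul, ENNReal.ofReal_zero])]
  simp

theorem evE_C {c : ℝ} : evE l (C c) = ENNReal.ofReal c := by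
  unfold evE
  rw [tsum_eq_single 0 (fun n hn => by rw [coeff_C, if_neg hn, zero_mul, ENNReal.ofReal_zero])]
  simp

theorem nn_mul {f g : ℝ⟦X⟧} (hf : Nn f) (hg : Nn g) : Nn (f * g) := NnS.mul_mem hf hg

theorem nn_add {f g : ℝ⟦X⟧} (hf : Nn f) (hg : Nn g) : Nn (f + g) := NnS.add_mem hf hg

theorem nn_pow {f : ℝ⟦X⟧} (hf : Nn f) (n : ℕ) : Nn (f ^ n) := NnS.pow_mem hf n

theorem nn_one : Nn (1 : ℝ⟦X⟧) := NnS.one_mem

theorem evE_pow (hl : 0 ≤ l) {f : ℝ⟦X⟧} (hf : Nn f) (n : ℕ) : evE l (f ^ n) = evE l f ^ n := by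
  induction n with
  | zero => rw [pow_zero, pow_zero, evE_one]
  | succ n ih => rw [pow_succ, pow_succ, evE_mul hl (nn_pow hf n) hf, ih]

theorem nn_eZ {Z : ℝ⟦X⟧} (hZ : Nn Z) {f : ℝ⟦X⟧⟦X⟧} (hf : ∀ a, Nn (coeff a f)) : Nn (eZ Z f) := by
  intro n
  rw [coeff_eZ]
  exact Finset.sum_nonneg fun a _ => nn_mul (hf a) (nn_pow hZ a) n

theorem evE_eZ (hl : 0 ≤ l) {Z : ℝ⟦X⟧} (h0 : constantCoeff Z = 0) (hZ : Nn Z) {f : ℝ⟦X⟧⟦X⟧}
    (hf : ∀ a, Nn (coeff a f)) : evE l (eZ Z f) = ∑' a, evE l (coeff a f) * evE l Z ^ a := by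
  have h1 : ∀ n, ENNReal.ofReal (coeff n (eZ Z f) * l ^ n) =
      ∑' a, ENNReal.ofReal (coeff n (coeff a f * Z ^ a) * l ^ n) := by
    intro n
    rw [coeff_eZ, Finset.sum_mul, ENNReal.ofReal_sum_of_nonneg fun a _ => mul_nonneg
      (nn_mul (hf a) (nn_pow hZ a) n) (pow_nonneg hl n)]
    symm
    refine tsum_eq_sum fun a ha => ?_
    rw [coeff_mul_pow_zero h0 _ (by simpa using ha), zero_mul, ENNReal.ofReal_zero]
  unfold evE
  rw [tsum_congr h1, ENNReal.tsum_comm]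
  refine tsum_congr fun a => ?_
  have h2 := evE_mul hl (hf a) (nn_pow hZ a)
  rw [evE_pow hl hZ] at h2
  exact h2

theorem nn_EE {Y T : ℝ⟦X⟧} (hY : Nn Y) (hT : Nn T) (u : ℕ → ℕ → ℝ≥0∞) : Nn (EE Y T u) := by
  refine nn_eZ hY fun a => ?_
  rw [coeff_mk]
  refine nn_eZ hT fun b => ?_
  rw [coeff_mk]
  exact nn_C ENNReal.toReal_nonneg

/-- The value of `∑ u_(a,b) Y^a T^b`. -/
theorem evE_EE (hl : 0 ≤ l) {Y T : ℝ⟦X⟧} (hY0 : constantCoeff Y = 0) (hT0 : constantCoeff T = 0)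
    (hY : Nn Y) (hT : Nn T) {u : ℕ → ℕ → ℝ≥0∞} (hu : Fin2 u) :
    evE l (EE Y T u) = ∑' a, ∑' b, u a b * evE l Y ^ a * evE l T ^ b := by
  have h1 : ∀ a, Nn (coeff a (PowerSeries.mk fun a => eZ T (PowerSeries.mk fun b =>
      (C (tR u a b) : ℝ⟦X⟧)))) := by
    intro a
    rw [coeff_mk]
    refine nn_eZ hT fun b => ?_
    rw [coeff_mk]
    exact nn_C ENNReal.toReal_nonneg
  rw [EE, E2, evE_eZ hl hY0 hY h1]
  refine tsum_congr fun a => ?_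
  rw [coeff_mk, evE_eZ hl hT0 hT (fun b => by rw [coeff_mk]; exact nn_C ENNReal.toReal_nonneg),
    ← ENNReal.tsum_mul_right]
  refine tsum_congr fun b => ?_
  rw [coeff_mk, evE_C, tR, ENNReal.ofReal_toReal (hu a b)]
  ring

end K5A
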